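import Mathlib
import Pool.Graph.R_seed8.Helper923.HMertens
import Pool.Graph.R_seed8.Helper923.PPS.Smooth

set_option autoImplicit false

open Finset

namespace Pool.Agent.KS6_8.LM

theorem log_prime_ge {p : ℕ} (hp : p.Prime) : 1 / 2 ≤ Real.log p := by
  have h1 : Real.log 2 ≤ Real.log p := Real.log_le_log (by norm_num) (by exact_mod_cast hp.two_le)
  have := Real.log_two_gt_d9
  linarith

theorem block : ∃ C : ℝ, 1 ≤ C ∧ ∀ (Z : ℝ) (S : Finset ℕ), 1 / 4 ≤ Z →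
    (∀ p ∈ S, p.Prime ∧ Z ≤ Real.log p ∧ Real.log p ≤ 2 * Z) →
      ∑ p ∈ S, (1 : ℝ) / p ≤ C := by
  obtain ⟨C, hC⟩ := Pool.Agent.Helper923.HMertens.mertens_log
  have hC0 : 0 ≤ C := (abs_nonneg _).trans (hC 1 le_rfl)
  refine ⟨2 + 4 * C, by linarith, ?_⟩
  intro Z S hZ hS
  have hZ0 : 0 < Z := by linarith
  set N := ⌊Real.exp (2 * Z)⌋₊ with hN
  have hN1 : 1 ≤ N := by
    rw [hN, Nat.one_le_floor_iff]
    exact Real.one_le_exp (by linarith)
  have hNl : Real.log N ≤ 2 * Z := by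
    rw [Real.log_le_iff_le_exp (by exact_mod_cast hN1)]
    exact Nat.floor_le (Real.exp_pos _).le
  have hsub : S ⊆ (Finset.Icc 1 N).filter Nat.Prime := by
    intro p hp
    obtain ⟨h1, h2, h3⟩ := hS p hp
    rw [Finset.mem_filter, Finset.mem_Icc]
    refine ⟨⟨h1.one_lt.le, ?_⟩, h1⟩
    rw [hN, Nat.le_floor_iff (Real.exp_pos _).le]
    rwa [Real.log_le_iff_le_exp (by exact_mod_cast h1.pos)] at h3
  have h1 : ∑ p ∈ S, Real.log p / p ≤ 2 * Z + C := by
    have h2 := (abs_le.1 (hC N hN1)).2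
    have h3 : ∑ p ∈ S, Real.log p / p ≤ ∑ p ∈ (Finset.Icc 1 N).filter Nat.Prime, Real.log p / p :=
      Finset.sum_le_sum_of_subset_of_nonneg hsub
        (fun p _ _ => div_nonneg (Real.log_natCast_nonneg p) (Nat.cast_nonneg _))
    linarith
  have h2 : ∑ p ∈ S, (1 : ℝ) / p ≤ (1 / Z) * ∑ p ∈ S, Real.log p / p := by
    rw [Finset.mul_sum]
    apply Finset.sum_le_sum
    intro p hp
    obtain ⟨g1, g2, g3⟩ := hS p hp
    have hp0 : (0 : ℝ) < p := by exact_mod_cast g1.pos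
    rw [show 1 / Z * (Real.log p / p) = (Real.log p / Z) / p by field_simp]
    apply div_le_div_of_nonneg_right _ hp0.le
    rwa [le_div_iff₀ hZ0, one_mul]
  refine h2.trans ?_
  rw [one_div, inv_mul_le_iff₀ hZ0]
  nlinarith

theorem blocks : ∃ C : ℝ, 1 ≤ C ∧ ∀ (Z A ρ : ℝ) (S : Finset ℕ) (w : ℕ → ℝ), 1 / 4 ≤ Z → 0 ≤ A →
    0 ≤ ρ → ρ < 1 → (∀ p ∈ S, p.Prime ∧ Z ≤ Real.log p) →
    (∀ p ∈ S, ∀ j : ℕ, 2 ^ j * Z ≤ Real.log p → w p ≤ A * ρ ^ j) →
      ∑ p ∈ S, w p / p ≤ C * A / (1 - ρ) := by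
  classical
  obtain ⟨C, hC1, hC⟩ := block
  refine ⟨C, hC1, ?_⟩
  intro Z A ρ S w hZ hA hρ0 hρ1 hS hw
  have hZ0 : 0 < Z := by linarith
  set j : ℕ → ℕ := fun p => Nat.log 2 ⌊Real.log p / Z⌋₊ with hj
  have hjp : ∀ p ∈ S, 2 ^ (j p) * Z ≤ Real.log p ∧ Real.log p ≤ 2 * (2 ^ (j p) * Z) := by
    intro p hp
    obtain ⟨h1, h2⟩ := hS p hp
    have h3 : 1 ≤ Real.log p / Z := by rw [le_div_iff₀ hZ0]; linarith
    have h4 : 1 ≤ ⌊Real.log p / Z⌋₊ := by rwa [Nat.one_le_floor_iff]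
    have h5 : 2 ^ (j p) ≤ ⌊Real.log p / Z⌋₊ := Nat.pow_log_le_self 2 (by omega)
    have h6 : ⌊Real.log p / Z⌋₊ < 2 ^ (j p + 1) := Nat.lt_pow_succ_log_self (by norm_num) _
    constructor
    · have h7 : ((2 ^ (j p) : ℕ) : ℝ) ≤ Real.log p / Z :=
        (Nat.le_floor_iff (by linarith)).1 h5
      push_cast at h7
      rwa [le_div_iff₀ hZ0] at h7
    · have h7 : Real.log p / Z < ((2 ^ (j p + 1) : ℕ) : ℝ) := (Nat.floor_lt (by linarith)).1 h6
      push_cast at h7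
      rw [div_lt_iff₀ hZ0, pow_succ] at h7
      linarith
  obtain ⟨J, hJ⟩ : ∃ J : ℕ, ∀ p ∈ S, j p < J :=
    ⟨S.sup j + 1, fun p hp => Nat.lt_succ_of_le (Finset.le_sup hp)⟩
  have hmap : ∀ p ∈ S, j p ∈ Finset.range J := fun p hp => Finset.mem_range.2 (hJ p hp)
  rw [← Finset.sum_fiberwise_of_maps_to hmap]
  have hterm : ∀ i ∈ Finset.range J, ∑ p ∈ S.filter (fun p => j p = i), w p / p ≤
      A * ρ ^ i * C := by
    intro i _
    have h1 : ∑ p ∈ S.filter (fun p => j p = i), w p / p ≤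
        A * ρ ^ i * ∑ p ∈ S.filter (fun p => j p = i), (1 : ℝ) / p := by
      rw [Finset.mul_sum]
      apply Finset.sum_le_sum
      intro p hp
      rw [Finset.mem_filter] at hp
      have h2 := hw p hp.1 i (by rw [← hp.2]; exact (hjp p hp.1).1)
      have hp0 : (0 : ℝ) < p := by exact_mod_cast (hS p hp.1).1.pos
      rw [mul_one_div]
      exact div_le_div_of_nonneg_right h2 hp0.le
    refine h1.trans (mul_le_mul_of_nonneg_left ?_ (by positivity))
    apply hC (2 ^ i * Z)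
    · have : (1 : ℝ) ≤ 2 ^ i := one_le_pow₀ (by norm_num)
      nlinarith
    · intro p hp
      rw [Finset.mem_filter] at hp
      have h2 := hjp p hp.1
      rw [hp.2] at h2
      exact ⟨(hS p hp.1).1, h2.1, h2.2⟩
  refine (Finset.sum_le_sum hterm).trans ?_
  rw [← Finset.sum_mul, ← Finset.mul_sum]
  have hgeo : ∑ i ∈ Finset.range J, ρ ^ i ≤ (1 - ρ)⁻¹ := by
    rw [← tsum_geometric_of_lt_one hρ0 hρ1]
    exact (summable_geometric_of_lt_one hρ0 hρ1).sum_le_tsum _ (fun i _ => pow_nonneg hρ0 i)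
  rw [div_eq_mul_inv]
  have := mul_le_mul_of_nonneg_left hgeo (mul_nonneg (by linarith : 0 ≤ C) hA)
  linarith

/-- tail sum -/
theorem prime_tail : ∃ C : ℝ, 1 ≤ C ∧ ∀ (Z : ℝ) (S : Finset ℕ), 1 / 4 ≤ Z →
    (∀ p ∈ S, p.Prime ∧ Z ≤ Real.log p) → ∑ p ∈ S, 1 / Real.log p / p ≤ C / Z := by
  obtain ⟨C, hC1, hC⟩ := blocks
  refine ⟨2 * C, by linarith, ?_⟩
  intro Z S hZ hS
  have hZ0 : 0 < Z := by linarith
  have h := hC Z (1 / Z) (1 / 2) S (fun p => 1 / Real.log p) hZ (by positivity) (by norm_num)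
    (by norm_num) hS (by
      intro p _ j hj
      have h2 : (0 : ℝ) < 2 ^ j * Z := by positivity
      calc 1 / Real.log p ≤ 1 / (2 ^ j * Z) := one_div_le_one_div_of_le h2 hj
        _ = 1 / Z * (1 / 2) ^ j := by rw [one_div_pow]; field_simp)
  refine h.trans (le_of_eq ?_)
  field_simp
  norm_num

/-- quarter power -/
noncomputable def qr (x : ℝ) : ℝ := x ^ (1 / 4 : ℝ)

theorem qr_pos {x : ℝ} (hx : 0 < x) : 0 < qr x := Real.rpow_pos_of_pos hx _

theorem qr_mono {x y : ℝ} (hx : 0 ≤ x) (h : x ≤ y) : qr x ≤ qr y :=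
  Real.rpow_le_rpow hx h (by norm_num)

theorem qr_pow {x : ℝ} (hx : 0 ≤ x) : qr x ^ 4 = x := by
  unfold qr
  rw [← Real.rpow_natCast, ← Real.rpow_mul hx]
  norm_num

theorem prime_quarter : ∃ C : ℝ, 1 ≤ C ∧ ∀ (S : Finset ℕ),
    (∀ p ∈ S, p.Prime) → ∑ p ∈ S, 1 / qr (Real.log p) / p ≤ C := by
  obtain ⟨C, hC1, hC⟩ := blocks
  have hc : (1 : ℝ) < qr 2 := Real.one_lt_rpow (by norm_num) (by norm_num)
  have hc0 : 0 < qr 2 := by linarith
  have hq4 : 0 < qr (1 / 4) := qr_pos (by norm_num)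
  have hρ1 : 1 / qr 2 < 1 := by rw [div_lt_one hc0]; exact hc
  refine ⟨max 1 (C * (1 / qr (1 / 4)) / (1 - 1 / qr 2)), le_max_left _ _, ?_⟩
  intro S hS
  refine le_trans ?_ (le_max_right _ _)
  apply hC (1 / 4) (1 / qr (1 / 4)) (1 / qr 2) S (fun p => 1 / qr (Real.log p)) le_rfl
    (by positivity) (by positivity) hρ1
    (fun p hp => ⟨hS p hp, by have := log_prime_ge (hS p hp); linarith⟩)
  intro p hp j hj
  have h2 : (0 : ℝ) < 2 ^ j * (1 / 4) := by positivity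
  calc 1 / qr (Real.log p) ≤ 1 / qr (2 ^ j * (1 / 4)) :=
        one_div_le_one_div_of_le (qr_pos h2) (qr_mono h2.le hj)
    _ = 1 / qr (1 / 4) * (1 / qr 2) ^ j := by
      have : qr (2 ^ j * (1 / 4)) = qr 2 ^ j * qr (1 / 4) := by
        unfold qr
        rw [Real.mul_rpow (by positivity) (by norm_num), ← Real.rpow_natCast,
          ← Real.rpow_natCast, ← Real.rpow_mul (by norm_num), ← Real.rpow_mul (by norm_num),
          mul_comm (j : ℝ)]
      rw [this, one_div_pow]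
      field_simp

/-- `∑_{p<z} 1/p ≤ C (log z)^{1/4}` -/
theorem prime_recip : ∃ C : ℝ, 1 ≤ C ∧ ∀ (Z : ℝ) (S : Finset ℕ), 0 ≤ Z →
    (∀ p ∈ S, p.Prime ∧ Real.log p ≤ Z) → ∑ p ∈ S, (1 : ℝ) / p ≤ C * qr Z := by
  obtain ⟨C, hC1, hC⟩ := prime_quarter
  refine ⟨C, hC1, ?_⟩
  intro Z S hZ hS
  have h1 : ∑ p ∈ S, (1 : ℝ) / p ≤ qr Z * ∑ p ∈ S, 1 / qr (Real.log p) / p := by
    rw [Finset.mul_sum]
    apply Finset.sum_le_sum
    intro p hp
    obtain ⟨g1, g2⟩ := hS p hp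
    have g0 := log_prime_ge g1
    have hq : 0 < qr (Real.log p) := qr_pos (by linarith)
    have hp0 : (0 : ℝ) < p := by exact_mod_cast g1.pos
    rw [show qr Z * (1 / qr (Real.log p) / p) = (qr Z / qr (Real.log p)) / p by field_simp]
    apply div_le_div_of_nonneg_right _ hp0.le
    rw [le_div_iff₀ hq, one_mul]
    exact qr_mono (by linarith) g2
  refine h1.trans ?_
  have h2 := hC S (fun p hp => (hS p hp).1)
  have h3 : 0 ≤ qr Z := Real.rpow_nonneg hZ _
  nlinarith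

/-- `∑_{p<z} log p/p ≤ C log z` -/
theorem prime_log : ∃ C : ℝ, 1 ≤ C ∧ ∀ (z : ℕ) (S : Finset ℕ), 2 ≤ z →
    (∀ p ∈ S, p.Prime ∧ p ≤ z) → ∑ p ∈ S, Real.log p / p ≤ C * Real.log z := by
  obtain ⟨C, hC⟩ := Pool.Agent.Helper923.HMertens.mertens_log
  have hC0 : 0 ≤ C := (abs_nonneg _).trans (hC 1 le_rfl)
  refine ⟨1 + 2 * C, by linarith, ?_⟩
  intro z S hz hS
  have hsub : S ⊆ (Finset.Icc 1 z).filter Nat.Prime := by
    intro p hp
    obtain ⟨h1, h2⟩ := hS p hp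
    rw [Finset.mem_filter, Finset.mem_Icc]
    exact ⟨⟨h1.one_lt.le, h2⟩, h1⟩
  have h2 := (abs_le.1 (hC z (by omega))).2
  have h3 : ∑ p ∈ S, Real.log p / p ≤ ∑ p ∈ (Finset.Icc 1 z).filter Nat.Prime, Real.log p / p :=
    Finset.sum_le_sum_of_subset_of_nonneg hsub
      (fun p _ _ => div_nonneg (Real.log_natCast_nonneg p) (Nat.cast_nonneg _))
  have h4 : 1 / 2 ≤ Real.log z := by
    have h1 : Real.log 2 ≤ Real.log z := Real.log_le_log (by norm_num) (by exact_mod_cast hz)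
    have := Real.log_two_gt_d9
    linarith
  nlinarith

theorem smooth_decay : ∃ C : ℝ, 1 ≤ C ∧ ∀ (z : ℕ) (v : ℝ) (S : Finset ℕ), 2 ≤ z → 0 ≤ v →
    (∀ a ∈ S, Real.exp (v * (13 * Real.log z)) ≤ a ∧ a ∈ z.smoothNumbers) →
      ∑ a ∈ S, (1 : ℝ) / a ≤ C * Real.log z * Real.exp (-v) := by
  obtain ⟨C, hC1, hC⟩ := Pool.Agent.Helper923.PPS.rankin
    Pool.Agent.Helper923.HMertens.mertens_log Pool.Agent.Helper923.HMertens.mertens_ratio
  refine ⟨13 * C, by linarith, ?_⟩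
  intro z v S hz hv hS
  have h4 : Real.log 2 ≤ Real.log z := Real.log_le_log (by norm_num) (by exact_mod_cast hz)
  have hl2 := Real.log_two_gt_d9
  set z' := max z 3000 with hz'
  have hz'1 : 3000 ≤ z' := le_max_right _ _
  have hz'0 : (0 : ℝ) < z' := by exact_mod_cast (by omega : 0 < z')
  have hlog' : Real.log z' ≤ 13 * Real.log z := by
    have h1 : (z' : ℝ) ≤ z * 3000 := by
      have h2 : z' ≤ z * 3000 := by
        rw [hz']; apply max_le
        · omega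
        · omega
      exact_mod_cast h2
    have h2 := Real.log_le_log hz'0 h1
    rw [Real.log_mul (by positivity) (by norm_num)] at h2
    have h3 : Real.log 3000 ≤ 12 * Real.log 2 := by
      rw [show (12 : ℝ) * Real.log 2 = Real.log (2 ^ 12) by rw [Real.log_pow]; norm_num]
      exact Real.log_le_log (by norm_num) (by norm_num)
    linarith
  have hlz' : 0 < Real.log z' := Real.log_pos (by exact_mod_cast (by omega : 1 < z'))
  have h := hC z' (v * (13 * Real.log z)) hz'1 (by positivity) S (by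
    intro a ha
    obtain ⟨g1, g2⟩ := hS a ha
    refine ⟨g1, ?_⟩
    intro p hp hpa
    rw [Nat.mem_smoothNumbers'] at g2
    have := g2 p hp hpa
    have : z ≤ z' := le_max_left _ _
    omega)
  refine h.trans ?_
  have h5 : Real.exp (-(v * (13 * Real.log z)) / Real.log z') ≤ Real.exp (-v) := by
    apply Real.exp_le_exp.2
    rw [div_le_iff₀ hlz']
    nlinarith
  calc C * Real.log z' * Real.exp (-(v * (13 * Real.log z)) / Real.log z')
      ≤ C * (13 * Real.log z) * Real.exp (-v) := by gcongr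
    _ = 13 * C * Real.log z * Real.exp (-v) := by ring

theorem smooth0 : ∃ C : ℝ, 1 ≤ C ∧ ∀ (z : ℕ) (S : Finset ℕ), 2 ≤ z →
    (∀ a ∈ S, a ∈ z.smoothNumbers) → ∑ a ∈ S, (1 : ℝ) / a ≤ C * Real.log z := by
  obtain ⟨C, hC1, hC⟩ := smooth_decay
  refine ⟨C, hC1, ?_⟩
  intro z S hz hS
  have h := hC z 0 S hz le_rfl (by
    intro a ha
    refine ⟨?_, hS a ha⟩
    rw [zero_mul, Real.exp_zero]
    have := (Nat.mem_smoothNumbers'.1 (hS a ha))
    have h1 := Nat.ne_zero_of_mem_smoothNumbers (hS a ha)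
    exact_mod_cast Nat.one_le_iff_ne_zero.2 h1)
  simpa using h

theorem smooth1 : ∃ C : ℝ, 1 ≤ C ∧ ∀ (z : ℕ) (S : Finset ℕ), 2 ≤ z →
    (∀ a ∈ S, a ∈ z.smoothNumbers) →
      ∑ a ∈ S, Real.log a / a ≤ C * (Real.log z * Real.log z) := by
  classical
  obtain ⟨C, hC1, hC⟩ := smooth_decay
  refine ⟨26 * C, by linarith, ?_⟩
  intro z S hz hS
  have h4 : Real.log 2 ≤ Real.log z := Real.log_le_log (by norm_num) (by exact_mod_cast hz)
  have hl2 := Real.log_two_gt_d9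
  set L := 13 * Real.log z with hL
  have hL0 : 0 < L := by rw [hL]; linarith
  obtain ⟨J, hJ⟩ : ∃ J : ℕ, ∀ a ∈ S, ⌊Real.log a / L⌋₊ < J :=
    ⟨S.sup (fun a => ⌊Real.log a / L⌋₊) + 1, fun p hp =>
      Nat.lt_succ_of_le (Finset.le_sup (f := fun a : ℕ => ⌊Real.log a / L⌋₊) hp)⟩
  have ha1 : ∀ a ∈ S, (0 : ℝ) < a := fun a ha => by
    exact_mod_cast Nat.pos_of_ne_zero (Nat.ne_zero_of_mem_smoothNumbers (hS a ha))
  have hpt : ∀ a ∈ S, Real.log a / a ≤ ∑ j ∈ Finset.range J,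
      if Real.exp ((j : ℝ) * L) ≤ a then L * (1 / (a : ℝ)) else 0 := by
    intro a ha
    have h0 := ha1 a ha
    have h1 : 0 ≤ Real.log a := Real.log_natCast_nonneg a
    have hcard : ((⌊Real.log a / L⌋₊ + 1 : ℕ) : ℝ) * (L * (1 / (a : ℝ))) ≤
        ∑ j ∈ Finset.range J, if Real.exp ((j : ℝ) * L) ≤ a then L * (1 / (a : ℝ)) else 0 := by
      rw [← Finset.sum_filter, Finset.sum_const, nsmul_eq_mul]
      apply mul_le_mul_of_nonneg_right _ (by positivity)
      have : Finset.range (⌊Real.log a / L⌋₊ + 1) ⊆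
          (Finset.range J).filter (fun j : ℕ => Real.exp ((j : ℝ) * L) ≤ a) := by
        intro j hj
        rw [Finset.mem_range] at hj
        rw [Finset.mem_filter, Finset.mem_range]
        have h2 := hJ a ha
        refine ⟨by omega, ?_⟩
        rw [← Real.le_log_iff_exp_le h0, ← le_div_iff₀ hL0]
        exact (Nat.le_floor_iff (by positivity)).1 (by omega)
      have h3 := Finset.card_le_card this
      rw [Finset.card_range] at h3
      exact_mod_cast h3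
    refine le_trans ?_ hcard
    have h2 : Real.log a / L < ⌊Real.log a / L⌋₊ + 1 := Nat.lt_floor_add_one _
    rw [div_lt_iff₀ hL0] at h2
    push_cast
    rw [← mul_assoc, mul_one_div]
    apply div_le_div_of_nonneg_right h2.le h0.le
  refine (Finset.sum_le_sum hpt).trans ?_
  rw [Finset.sum_comm]
  have hj : ∀ j ∈ Finset.range J, ∑ a ∈ S,
      (if Real.exp ((j : ℝ) * L) ≤ a then L * (1 / (a : ℝ)) else 0) ≤
      L * (C * Real.log z) * (1 / 2) ^ j := by
    intro j _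
    rw [← Finset.sum_filter, ← Finset.mul_sum]
    have h := hC z j (S.filter (fun a : ℕ => Real.exp ((j : ℝ) * L) ≤ a)) hz (by positivity) (by
      intro a ha
      rw [Finset.mem_filter] at ha
      exact ⟨ha.2, hS a ha.1⟩)
    have he : Real.exp (-(j : ℝ)) ≤ (1 / 2) ^ j := by
      have h1 : Real.exp (-(j : ℝ)) = (Real.exp (-1)) ^ j := by
        rw [← Real.exp_nat_mul]; ring_nf
      rw [h1]
      apply pow_le_pow_left₀ (Real.exp_pos _).le
      rw [Real.exp_neg, one_div]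
      apply inv_anti₀ (by norm_num)
      have := Real.exp_one_gt_d9
      linarith
    have hz0 : 0 ≤ Real.log z := by linarith
    refine (mul_le_mul_of_nonneg_left h hL0.le).trans ?_
    calc L * (C * Real.log z * Real.exp (-(j : ℝ)))
        ≤ L * (C * Real.log z * (1 / 2) ^ j) := by gcongr
      _ = L * (C * Real.log z) * (1 / 2) ^ j := by ring
  refine (Finset.sum_le_sum hj).trans ?_
  rw [← Finset.mul_sum]
  have hgeo : ∑ i ∈ Finset.range J, (1 / 2 : ℝ) ^ i ≤ 2 := by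
    have h := (summable_geometric_of_lt_one (r := (1 / 2 : ℝ)) (by norm_num) (by norm_num)).sum_le_tsum
      (Finset.range J) (fun i _ => by positivity)
    rw [tsum_geometric_of_lt_one (by norm_num) (by norm_num)] at h
    norm_num at h ⊢
    exact h
  have hz0 : 0 ≤ Real.log z := by linarith
  calc L * (C * Real.log z) * ∑ i ∈ Finset.range J, (1 / 2 : ℝ) ^ i
      ≤ L * (C * Real.log z) * 2 := mul_le_mul_of_nonneg_left hgeo (by positivity)
    _ = 26 * C * (Real.log z * Real.log z) := by rw [hL]; ring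

end Pool.Agent.KS6_8.LM
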