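import Mathlib
import Pool.Agent.KS6_8.LM.Primes

set_option autoImplicit false

open Finset

namespace Pool.Agent.KS6_8.LM

/-- quantitative non-resonance of `log p` and `log q` -/
def NR (p q : ℕ) : Prop := ∃ s r : ℕ, 1 ≤ s ∧ 1 ≤ r ∧ (s : ℝ) ≤ 4 * Real.log p ∧
  |(s : ℝ) * Real.log q - r * Real.log p| ≤ 1 / 2 ∧
  1 / (r * Real.log p) ^ 4 ≤ |(s : ℝ) * Real.log q - r * Real.log p|

theorem bad_struct {p q : ℕ} (hp : p.Prime) (hpq : p < q) (h : ¬ NR p q) :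
    ∃ s r : ℕ, 1 ≤ s ∧ s ≤ r ∧ (s : ℝ) ≤ 4 * Real.log p ∧
      |(s : ℝ) * Real.log q - r * Real.log p| ≤ 1 / 2 ∧
      |(s : ℝ) * Real.log q - r * Real.log p| < 1 / (r * Real.log p) ^ 4 := by
  have hLp : 0 < Real.log p := by have := log_prime_ge hp; linarith
  have hLp2 : 1 ≤ 2 * Real.log p := by have := log_prime_ge hp; linarith
  have hlt : Real.log p < Real.log q :=
    Real.log_lt_log (by exact_mod_cast hp.pos) (by exact_mod_cast hpq)
  set n : ℕ := ⌈2 * Real.log p⌉₊ with hn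
  have hn0 : 0 < n := by rw [hn, Nat.ceil_pos]; linarith
  have hn1 : (n : ℝ) < 2 * Real.log p + 1 := Nat.ceil_lt_add_one (by linarith)
  have hn2 : 2 * Real.log p ≤ n := Nat.le_ceil _
  obtain ⟨s, hs0, hsn, hs⟩ := Real.exists_nat_abs_mul_sub_round_le (Real.log q / Real.log p) hn0
  set j : ℤ := round ((s : ℝ) * (Real.log q / Real.log p)) with hj
  have hnn : (1 : ℝ) / (n + 1) ≤ 1 / (2 * Real.log p) :=
    one_div_le_one_div_of_le (by linarith) (by linarith)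
  have hnh : (1 : ℝ) / (n + 1) ≤ 1 / 2 := by
    apply one_div_le_one_div_of_le (by norm_num)
    have : (1 : ℝ) ≤ n := by exact_mod_cast hn0
    linarith
  have hs1 : (1 : ℝ) ≤ s := by exact_mod_cast hs0
  have hξ : 1 < Real.log q / Real.log p := by rw [lt_div_iff₀ hLp]; linarith
  have hjs : (s : ℤ) ≤ j := by
    have h1 : (s : ℝ) * 1 < (s : ℝ) * (Real.log q / Real.log p) :=
      mul_lt_mul_of_pos_left hξ (by linarith)
    have h2 := (abs_le.1 (hs.trans hnh)).2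
    have h3 : (s : ℝ) - 1 < j := by linarith
    have h4 : (s : ℤ) - 1 < j := by exact_mod_cast h3
    omega
  obtain ⟨r, hr⟩ := Int.eq_ofNat_of_zero_le (by omega : 0 ≤ j)
  have hjr : (j : ℝ) = (r : ℝ) := by rw [hr]; simp
  have hsr : s ≤ r := by omega
  have e1 : |(s : ℝ) * Real.log q - r * Real.log p| =
      Real.log p * |(s : ℝ) * (Real.log q / Real.log p) - j| := by
    rw [hjr, ← abs_of_pos hLp, ← abs_mul, abs_of_pos hLp]
    congr 1
    field_simp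
  have h5 : |(s : ℝ) * Real.log q - r * Real.log p| ≤ 1 / 2 := by
    rw [e1]
    calc Real.log p * |(s : ℝ) * (Real.log q / Real.log p) - j|
        ≤ Real.log p * (1 / (2 * Real.log p)) :=
          mul_le_mul_of_nonneg_left (hs.trans hnn) hLp.le
      _ = 1 / 2 := by field_simp
  have h6 : (s : ℝ) ≤ 4 * Real.log p := by
    have : (s : ℝ) ≤ n := by exact_mod_cast hsn
    linarith
  refine ⟨s, r, hs0, hsr, h6, h5, ?_⟩
  by_contra hcon
  push Not at hcon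
  exact h ⟨s, r, hs0, by omega, h6, h5, hcon⟩

theorem exp_small_bounds {η : ℝ} (h0 : 0 ≤ η) (h1 : η ≤ 1 / 2) :
    Real.exp η ≤ 1 + 2 * η := by
  have h4 := Real.abs_exp_sub_one_sub_id_le (x := η) (by rw [abs_of_nonneg h0]; linarith)
  rw [abs_le] at h4
  nlinarith [h4.2]

theorem window {c η : ℝ} (hc : 1 / 2 ≤ c) (hη0 : 0 ≤ η) (hη : η ≤ 1 / 2) {W : Finset ℕ}
    (hW : ∀ q ∈ W, 1 ≤ q ∧ |Real.log q - c| ≤ η) :
    ∑ q ∈ W, Real.log q ^ 2 / q ≤ 24 * (c ^ 2 * (η + Real.exp (-c))) := by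
  have hlo : ∀ q ∈ W, Real.exp (c - η) ≤ q ∧ (q : ℝ) ≤ Real.exp (c + η) := by
    intro q hq
    obtain ⟨h1, h2⟩ := hW q hq
    have hq0 : (0 : ℝ) < q := by exact_mod_cast h1
    rw [abs_le] at h2
    constructor
    · rw [← Real.le_log_iff_exp_le hq0]; linarith
    · rw [← Real.log_le_iff_le_exp hq0]; linarith
  have hexp := exp_small_bounds hη0 hη
  have hexp' : 1 - η ≤ Real.exp (-η) := by have := Real.add_one_le_exp (-η); linarith
  have hec : 0 < Real.exp c := Real.exp_pos c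
  have hcard : (W.card : ℝ) ≤ 3 * η * Real.exp c + 1 := by
    have hsub : W ⊆ Finset.Icc ⌈Real.exp (c - η)⌉₊ ⌊Real.exp (c + η)⌋₊ := by
      intro q hq
      obtain ⟨h1, h2⟩ := hlo q hq
      rw [Finset.mem_Icc]
      exact ⟨Nat.ceil_le.2 h1, (Nat.le_floor_iff (Real.exp_pos _).le).2 h2⟩
    rcases W.eq_empty_or_nonempty with rfl | ⟨q, hq⟩
    · simp only [Finset.card_empty, Nat.cast_zero]; positivity
    have hq' := Finset.mem_Icc.1 (hsub hq)
    have h1 := Finset.card_le_card hsub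
    rw [Nat.card_Icc] at h1
    have h2 : W.card + ⌈Real.exp (c - η)⌉₊ ≤ ⌊Real.exp (c + η)⌋₊ + 1 := by omega
    have h3 : (W.card : ℝ) + ⌈Real.exp (c - η)⌉₊ ≤ ⌊Real.exp (c + η)⌋₊ + 1 := by exact_mod_cast h2
    have h4 := Nat.le_ceil (Real.exp (c - η))
    have h5 := Nat.floor_le (Real.exp_pos (c + η)).le
    have h6 : Real.exp (c + η) = Real.exp c * Real.exp η := Real.exp_add _ _
    have h7 : Real.exp (c - η) = Real.exp c * Real.exp (-η) := by
      rw [← Real.exp_add]; ring_nf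
    have h5' : (⌊Real.exp (c + η)⌋₊ : ℝ) ≤ Real.exp c * Real.exp η := h6 ▸ h5
    have h4' : Real.exp c * Real.exp (-η) ≤ (⌈Real.exp (c - η)⌉₊ : ℝ) := by
      rw [← h7]; exact h4
    nlinarith
  have hterm : ∀ q ∈ W, Real.log q ^ 2 / q ≤ 4 * c ^ 2 * (2 * Real.exp (-c)) := by
    intro q hq
    obtain ⟨h1, h2⟩ := hW q hq
    have hq0 : (0 : ℝ) < q := by exact_mod_cast h1
    have hl0 : 0 ≤ Real.log q := Real.log_natCast_nonneg q
    rw [abs_le] at h2
    have h3 : Real.log q ^ 2 ≤ 4 * c ^ 2 := by nlinarith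
    have h4 : (1 : ℝ) / q ≤ 2 * Real.exp (-c) := by
      have h5 := (hlo q hq).1
      have h6 : (1 : ℝ) / q ≤ 1 / Real.exp (c - η) :=
        one_div_le_one_div_of_le (Real.exp_pos _) h5
      refine h6.trans ?_
      rw [one_div, ← Real.exp_neg, show -(c - η) = -c + η by ring, Real.exp_add]
      have := Real.exp_pos (-c)
      nlinarith
    rw [div_eq_mul_one_div]
    exact mul_le_mul h3 h4 (by positivity) (by positivity)
  calc ∑ q ∈ W, Real.log q ^ 2 / q ≤ ∑ _q ∈ W, 4 * c ^ 2 * (2 * Real.exp (-c)) :=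
        Finset.sum_le_sum hterm
    _ = W.card * (4 * c ^ 2 * (2 * Real.exp (-c))) := by rw [Finset.sum_const, nsmul_eq_mul]
    _ ≤ (3 * η * Real.exp c + 1) * (4 * c ^ 2 * (2 * Real.exp (-c))) :=
        mul_le_mul_of_nonneg_right hcard (by positivity)
    _ = 24 * c ^ 2 * η * (Real.exp c * Real.exp (-c)) + 8 * c ^ 2 * Real.exp (-c) := by ring
    _ = 24 * c ^ 2 * η + 8 * c ^ 2 * Real.exp (-c) := by
        rw [← Real.exp_add, add_neg_cancel, Real.exp_zero, mul_one]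
    _ ≤ 24 * (c ^ 2 * (η + Real.exp (-c))) := by
        have : 0 ≤ c ^ 2 * Real.exp (-c) := by positivity
        nlinarith

theorem per_prime : ∃ C : ℝ, 1 ≤ C ∧ ∀ (p : ℕ) (Q : Finset ℕ), p.Prime →
    (∀ q ∈ Q, p < q ∧ ¬ NR p q) → ∑ q ∈ Q, Real.log q ^ 2 / q ≤ C / Real.log p ^ 2 := by
  classical
  have hsumm : Summable (fun n : ℕ => (1 : ℝ) / (n : ℝ) ^ 2) :=
    Real.summable_one_div_nat_pow.2 (by norm_num)
  set Z := ∑' n : ℕ, (1 : ℝ) / (n : ℝ) ^ 2 with hZ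
  have hZ0 : 0 ≤ Z := tsum_nonneg (fun _ => by positivity)
  have hZs : ∀ S : Finset ℕ, ∑ n ∈ S, (1 : ℝ) / (n : ℝ) ^ 2 ≤ Z := fun S =>
    hsumm.sum_le_tsum S (fun _ _ => by positivity)
  refine ⟨24 * (Z * Z) + 24 * 5040 * (64 * Z) + 1, by nlinarith [mul_nonneg hZ0 hZ0], ?_⟩
  intro p Q hp hQ
  set L := Real.log p with hL
  have hLh : 1 / 2 ≤ L := log_prime_ge hp
  have hL0 : 0 < L := by linarith
  have hch : ∀ q ∈ Q, ∃ x : ℕ × ℕ, 1 ≤ x.1 ∧ x.1 ≤ x.2 ∧ (x.1 : ℝ) ≤ 4 * L ∧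
      |(x.1 : ℝ) * Real.log q - x.2 * L| ≤ 1 / 2 ∧
      |(x.1 : ℝ) * Real.log q - x.2 * L| < 1 / (x.2 * L) ^ 4 := by
    intro q hq
    obtain ⟨s, r, h⟩ := bad_struct hp (hQ q hq).1 (hQ q hq).2
    exact ⟨(s, r), h⟩
  choose! g hg using hch
  set SS := Finset.Icc 1 ⌊4 * L⌋₊ with hSS
  obtain ⟨B, hB⟩ : ∃ B : ℕ, ∀ q ∈ Q, (g q).2 ≤ B :=
    ⟨Q.sup (fun q => (g q).2), fun q hq => Finset.le_sup (f := fun q => (g q).2) hq⟩
  have hmap : ∀ q ∈ Q, g q ∈ SS ×ˢ Finset.Icc 1 B := by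
    intro q hq
    obtain ⟨h1, h2, h3, h4, h5⟩ := hg q hq
    rw [Finset.mem_product, hSS, Finset.mem_Icc, Finset.mem_Icc]
    exact ⟨⟨h1, (Nat.le_floor_iff (by positivity)).2 h3⟩, by omega, hB q hq⟩
  rw [← Finset.sum_fiberwise_of_maps_to hmap]
  have hterm : ∀ x ∈ SS ×ˢ Finset.Icc 1 B,
      ∑ q ∈ Q.filter (fun q => g q = x), Real.log q ^ 2 / q ≤
        24 / L ^ 2 * (1 / (x.1 : ℝ) ^ 2 * (1 / (x.2 : ℝ) ^ 2)) +
          24 * 5040 / L ^ 5 * ((x.1 : ℝ) ^ 2 * (1 / (x.2 : ℝ) ^ 2)) := by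
    rintro ⟨s, r⟩ hx
    rw [Finset.mem_product, hSS, Finset.mem_Icc, Finset.mem_Icc] at hx
    obtain ⟨⟨hs1, hs2⟩, hr1, hr2⟩ := hx
    simp only at hs1 hs2 hr1 hr2 ⊢
    have hs0 : (1 : ℝ) ≤ s := by exact_mod_cast hs1
    have hr0 : (1 : ℝ) ≤ r := by exact_mod_cast hr1
    rcases (Q.filter (fun q => g q = (s, r))).eq_empty_or_nonempty with hemp | ⟨q0, hq0⟩
    · rw [hemp, Finset.sum_empty]; positivity
    have hsr : (s : ℝ) ≤ r := by
      rw [Finset.mem_filter] at hq0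
      have := (hg q0 hq0.1).2.1
      rw [hq0.2] at this
      exact_mod_cast this
    set c := (r : ℝ) * L / s with hc
    have hcL : L ≤ c := by
      rw [hc, le_div_iff₀ (by linarith)]; nlinarith
    set η := min (1 / 2) (1 / (r * L) ^ 4) / (s : ℝ) with hη
    have hη0 : 0 ≤ η := by rw [hη]; positivity
    have hη1 : η ≤ 1 / 2 := by
      rw [hη, div_le_iff₀ (by linarith)]
      have : min (1 / 2) (1 / (r * L) ^ 4) ≤ 1 / 2 := min_le_left _ _
      linarith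
    have hη2 : η ≤ 1 / (r * L) ^ 4 / s := by
      rw [hη]; gcongr; exact min_le_right _ _
    have hw := window (c := c) (η := η) (by linarith) hη0 hη1
      (W := Q.filter (fun q => g q = (s, r))) (by
        intro q hq
        rw [Finset.mem_filter] at hq
        obtain ⟨h1, h2, h3, h4, h5⟩ := hg q hq.1
        rw [hq.2] at h4 h5
        simp only at h4 h5
        refine ⟨by have := (hQ q hq.1).1; omega, ?_⟩
        have e1 : Real.log q - c = ((s : ℝ) * Real.log q - r * L) / s := by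
          rw [hc]; field_simp
        rw [e1, abs_div, abs_of_pos (by linarith : (0 : ℝ) < s), hη]
        gcongr
        exact le_min h4 h5.le)
    refine hw.trans ?_
    have hA : c ^ 2 * η ≤ 1 / L ^ 2 * (1 / (s : ℝ) ^ 2 * (1 / (r : ℝ) ^ 2)) := by
      calc c ^ 2 * η ≤ c ^ 2 * (1 / (r * L) ^ 4 / s) := by gcongr
        _ = 1 / L ^ 2 * (1 / (s : ℝ) ^ 2 * (1 / (r : ℝ) ^ 2)) * (1 / s) := by
            rw [hc]; field_simp
        _ ≤ 1 / L ^ 2 * (1 / (s : ℝ) ^ 2 * (1 / (r : ℝ) ^ 2)) * 1 := by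
            apply mul_le_mul_of_nonneg_left _ (by positivity)
            rw [div_le_one (by linarith)]; exact hs0
        _ = _ := mul_one _
    have hBd : c ^ 2 * Real.exp (-c) ≤ 5040 / L ^ 5 * ((s : ℝ) ^ 2 * (1 / (r : ℝ) ^ 2)) := by
      have hc0 : 0 < c := by linarith
      have h1 := Real.pow_div_factorial_le_exp c hc0.le 7
      have h2 : c ^ 7 ≤ 5040 * Real.exp c := by
        rw [div_le_iff₀ (by positivity)] at h1
        have : ((Nat.factorial 7 : ℕ) : ℝ) = 5040 := by norm_num [Nat.factorial]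
        rw [this] at h1
        linarith
      have h3 : c ^ 2 * Real.exp (-c) ≤ 5040 / c ^ 5 := by
        rw [le_div_iff₀ (by positivity), Real.exp_neg]
        rw [show c ^ 2 * (Real.exp c)⁻¹ * c ^ 5 = c ^ 7 / Real.exp c by
          rw [div_eq_mul_inv]; ring]
        rw [div_le_iff₀ (Real.exp_pos c)]
        exact h2
      refine h3.trans ?_
      have h4 : 5040 / c ^ 5 = 5040 / L ^ 5 * ((s : ℝ) / r) ^ 5 := by
        rw [hc]; field_simp
      rw [h4]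
      apply mul_le_mul_of_nonneg_left _ (by positivity)
      have h5 : (s : ℝ) / r ≤ 1 := by rw [div_le_one (by linarith)]; exact hsr
      have h6 : ((s : ℝ) / r) ^ 5 ≤ ((s : ℝ) / r) ^ 2 :=
        pow_le_pow_of_le_one (by positivity) h5 (by norm_num)
      refine h6.trans (le_of_eq ?_)
      rw [div_pow]; ring
    calc 24 * (c ^ 2 * (η + Real.exp (-c))) = 24 * (c ^ 2 * η) + 24 * (c ^ 2 * Real.exp (-c)) := by
          ring
      _ ≤ 24 * (1 / L ^ 2 * (1 / (s : ℝ) ^ 2 * (1 / (r : ℝ) ^ 2))) +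
          24 * (5040 / L ^ 5 * ((s : ℝ) ^ 2 * (1 / (r : ℝ) ^ 2))) := by gcongr
      _ = _ := by ring
  refine (Finset.sum_le_sum hterm).trans ?_
  rw [Finset.sum_add_distrib, ← Finset.mul_sum, ← Finset.mul_sum, Finset.sum_product,
    Finset.sum_product]
  simp only [← Finset.mul_sum, ← Finset.sum_mul]
  have h1 := hZs SS
  have h2 := hZs (Finset.Icc 1 B)
  have h20 : 0 ≤ ∑ n ∈ Finset.Icc 1 B, (1 : ℝ) / (n : ℝ) ^ 2 :=
    Finset.sum_nonneg (fun _ _ => by positivity)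
  have h10 : 0 ≤ ∑ n ∈ SS, (1 : ℝ) / (n : ℝ) ^ 2 :=
    Finset.sum_nonneg (fun _ _ => by positivity)
  have h3 : ∑ s ∈ SS, (s : ℝ) ^ 2 ≤ 64 * L ^ 3 := by
    have hle : ∀ s ∈ SS, (s : ℝ) ^ 2 ≤ (4 * L) ^ 2 := by
      intro s hs
      rw [hSS, Finset.mem_Icc] at hs
      have := (Nat.le_floor_iff (by positivity : 0 ≤ 4 * L)).1 hs.2
      gcongr
    refine (Finset.sum_le_sum hle).trans ?_
    rw [Finset.sum_const, nsmul_eq_mul, hSS, Nat.card_Icc, Nat.add_sub_cancel]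
    have := Nat.floor_le (a := 4 * L) (by positivity)
    calc (⌊4 * L⌋₊ : ℝ) * (4 * L) ^ 2 ≤ (4 * L) * (4 * L) ^ 2 := by gcongr
      _ = 64 * L ^ 3 := by ring
  have h30 : 0 ≤ ∑ s ∈ SS, (s : ℝ) ^ 2 := Finset.sum_nonneg (fun _ _ => by positivity)
  calc 24 / L ^ 2 * ((∑ s ∈ SS, 1 / (s : ℝ) ^ 2) * ∑ n ∈ Finset.Icc 1 B, 1 / (n : ℝ) ^ 2) +
        24 * 5040 / L ^ 5 * ((∑ s ∈ SS, (s : ℝ) ^ 2) * ∑ n ∈ Finset.Icc 1 B, 1 / (n : ℝ) ^ 2)
      ≤ 24 / L ^ 2 * (Z * Z) + 24 * 5040 / L ^ 5 * ((64 * L ^ 3) * Z) := by gcongr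
    _ = (24 * (Z * Z) + 24 * 5040 * (64 * Z)) / L ^ 2 := by field_simp
    _ ≤ _ := by
      apply div_le_div_of_nonneg_right _ (by positivity)
      linarith

theorem inv_sq_le_qr {L : ℝ} (hL : 1 / 2 ≤ L) : 1 / L ^ 2 ≤ 4 * (1 / qr L) := by
  have hL0 : 0 < L := by linarith
  have hu := qr_pos hL0
  have h4 := qr_pow hL0.le
  set u := qr L
  rw [← h4, mul_one_div, div_le_div_iff₀ (by positivity) hu]
  have h5 : 1 / 4 ≤ u ^ 7 := by
    rcases le_or_gt 1 u with h | h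
    · have : 1 ≤ u ^ 7 := one_le_pow₀ h
      linarith
    · have h6 : u ^ 8 ≤ u ^ 7 := pow_le_pow_of_le_one hu.le h.le (by norm_num)
      have h7 : 1 / 4 ≤ u ^ 8 := by
        have : u ^ 8 = (u ^ 4) ^ 2 := by ring
        rw [this, h4]; nlinarith
      linarith
  calc 1 * u = 4 * (1 / 4) * u := by ring
    _ ≤ 4 * u ^ 7 * u := by gcongr
    _ = 4 * (u ^ 4) ^ 2 := by ring

open scoped Classical in
/-- the sum over resonant pairs of primes converges -/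
theorem bad_sum : ∃ C : ℝ, 1 ≤ C ∧ ∀ N : ℕ,
    ∑ q ∈ N.primesBelow, ∑ p ∈ q.primesBelow.filter (fun p => ¬ NR p q),
      (1 : ℝ) / q * (1 / p) * Real.log q ^ 2 ≤ C := by
  obtain ⟨C, hC1, hC⟩ := per_prime
  obtain ⟨C', hC1', hC'⟩ := prime_quarter
  refine ⟨C * 4 * C', by nlinarith, ?_⟩
  intro N
  rw [Finset.sum_comm' (s' := fun p => N.primesBelow.filter (fun q => p < q ∧ ¬ NR p q))
    (t' := N.primesBelow)]
  · have h1 : ∀ p ∈ N.primesBelow, ∑ q ∈ N.primesBelow.filter (fun q => p < q ∧ ¬ NR p q),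
        (1 : ℝ) / q * (1 / p) * Real.log q ^ 2 ≤ C * 4 * (1 / qr (Real.log p) / p) := by
      intro p hp
      have hpp := Nat.prime_of_mem_primesBelow hp
      have hp0 : (0 : ℝ) < p := by exact_mod_cast hpp.pos
      have h2 := hC p (N.primesBelow.filter (fun q => p < q ∧ ¬ NR p q)) hpp
        (fun q hq => (Finset.mem_filter.1 hq).2)
      have h3 : ∑ q ∈ N.primesBelow.filter (fun q => p < q ∧ ¬ NR p q),
          (1 : ℝ) / q * (1 / p) * Real.log q ^ 2 = 1 / p *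
          ∑ q ∈ N.primesBelow.filter (fun q => p < q ∧ ¬ NR p q), Real.log q ^ 2 / q := by
        rw [Finset.mul_sum]
        exact Finset.sum_congr rfl (fun q _ => by ring)
      rw [h3]
      have h4 := inv_sq_le_qr (log_prime_ge hpp)
      calc 1 / (p : ℝ) * ∑ q ∈ N.primesBelow.filter (fun q => p < q ∧ ¬ NR p q),
            Real.log q ^ 2 / q ≤ 1 / p * (C / Real.log p ^ 2) := by gcongr
        _ = 1 / p * (C * (1 / Real.log p ^ 2)) := by ring
        _ ≤ 1 / p * (C * (4 * (1 / qr (Real.log p)))) := by gcongr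
        _ = _ := by ring
    refine (Finset.sum_le_sum h1).trans ?_
    rw [← Finset.mul_sum]
    have := hC' N.primesBelow (fun p hp => Nat.prime_of_mem_primesBelow hp)
    gcongr
  · intro q p
    simp only [Finset.mem_filter, Nat.mem_primesBelow]
    constructor
    · rintro ⟨⟨h1, h2⟩, ⟨h3, h4⟩, h5⟩
      exact ⟨⟨⟨h1, h2⟩, h3, h5⟩, by omega, h4⟩
    · rintro ⟨⟨⟨h1, h2⟩, h3, h5⟩, h6, h4⟩
      exact ⟨⟨h1, h2⟩, ⟨h3, h4⟩, h5⟩

end Pool.Agent.KS6_8.LM
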