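import Mathlib

set_option autoImplicit false

open MeasureTheory

namespace Pool.Agent.KS6_8.LM

/-- residue of `τ` modulo `L` -/
noncomputable def D (L τ : ℝ) : ℝ := τ - L * ⌊τ / L⌋

theorem D_nonneg {L : ℝ} (hL : 0 < L) (τ : ℝ) : 0 ≤ D L τ := by
  unfold D
  have h := Int.floor_le (τ / L)
  rw [le_div_iff₀ hL] at h
  linarith

theorem D_lt {L : ℝ} (hL : 0 < L) (τ : ℝ) : D L τ < L := by
  unfold D
  have h := Int.lt_floor_add_one (τ / L)
  rw [div_lt_iff₀ hL] at h
  linarith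

theorem measurable_D (L : ℝ) : Measurable (D L) := by
  have h : Measurable (fun τ : ℝ => ((⌊τ / L⌋ : ℤ) : ℝ)) :=
    (measurable_from_top (f := fun n : ℤ => (n : ℝ))).comp
      (Int.measurable_floor.comp (measurable_id.div_const L))
  exact measurable_id.sub (h.const_mul L)

theorem D_add_mul {L : ℝ} (hL : 0 < L) (τ : ℝ) (k : ℤ) : D L (τ + k * L) = D L τ := by
  unfold D
  rw [add_div, mul_div_assoc, div_self hL.ne', mul_one, Int.floor_add_intCast]
  push_cast; ring

theorem vol_single {L T V : ℝ} (hL : 0 < L) (hT : 0 ≤ T) (hV : 0 ≤ V) :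
    volume {τ : ℝ | τ ∈ Set.Icc 0 T ∧ D L τ ≤ V} ≤ ENNReal.ofReal ((T / L + 1) * V) := by
  have hsub : {τ : ℝ | τ ∈ Set.Icc 0 T ∧ D L τ ≤ V} ⊆
      ⋃ j ∈ Finset.range (⌊T / L⌋₊ + 1), Set.Icc ((j : ℝ) * L) (j * L + V) := by
    rintro τ ⟨⟨h0, h1⟩, h2⟩
    have h3 : 0 ≤ ⌊τ / L⌋ := Int.floor_nonneg.2 (by positivity)
    obtain ⟨j, hj⟩ := Int.eq_ofNat_of_zero_le h3
    simp only [Set.mem_iUnion, Finset.mem_range]
    have h6 := D_nonneg hL τ
    unfold D at h2 h6
    rw [hj] at h2 h6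
    refine ⟨j, ?_, ?_⟩
    · have h4 : (j : ℤ) ≤ ⌊T / L⌋ := by
        rw [← hj]; exact Int.floor_le_floor (by gcongr)
      have h5 : j ≤ ⌊T / L⌋₊ := by
        rw [Nat.le_floor_iff (by positivity)]
        have := Int.le_floor.1 h4
        exact_mod_cast this
      omega
    · push_cast at h2 h6
      constructor <;> linarith
  refine (measure_mono hsub).trans ((measure_biUnion_finset_le _ _).trans ?_)
  simp only [Real.volume_Icc, add_sub_cancel_left, Finset.sum_const, Finset.card_range,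
    nsmul_eq_mul]
  rw [← ENNReal.ofReal_natCast, ← ENNReal.ofReal_mul (by positivity)]
  apply ENNReal.ofReal_le_ofReal
  apply mul_le_mul_of_nonneg_right _ hV
  push_cast
  have := Nat.floor_le (a := T / L) (by positivity)
  linarith

theorem card_close {S : Finset ℕ} {θ V : ℝ} (hθ : 0 < θ) (hV : 0 ≤ V)
    (h : ∀ a ∈ S, ∀ b ∈ S, a ≤ b → ((b : ℝ) - a) * θ ≤ V) : (S.card : ℝ) ≤ V / θ + 1 := by
  rcases S.eq_empty_or_nonempty with rfl | hne
  · simp only [Finset.card_empty, Nat.cast_zero]; positivity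
  set a := S.min' hne
  set b := S.max' hne
  have hab : a ≤ b := S.min'_le_max' hne
  have h1 := h a (S.min'_mem hne) b (S.max'_mem hne) hab
  have h2 : S ⊆ Finset.Icc a b := fun x hx =>
    Finset.mem_Icc.2 ⟨S.min'_le x hx, S.le_max' x hx⟩
  have h3 := Finset.card_le_card h2
  rw [Nat.card_Icc] at h3
  have h4 : (S.card : ℝ) ≤ (b : ℝ) - a + 1 := by
    have : S.card + a ≤ b + 1 := by omega
    have h5 : (S.card : ℝ) + a ≤ b + 1 := by exact_mod_cast this
    linarith
  have h5 : (b : ℝ) - a ≤ V / θ := by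
    rw [le_div_iff₀ hθ]; exact h1
  linarith

theorem count_rot {L V σ θ : ℝ} (hL : 0 < L) (hV : 0 ≤ V) (hθ : 0 < |θ|) {K : ℕ}
    (hK : K = ⌈L / |θ|⌉₊) :
    (((Finset.range K).filter (fun k : ℕ => D L (σ + k * θ) ≤ V)).card : ℝ) ≤
      3 * (V / |θ| + 1) := by
  classical
  set j0 : ℤ := ⌊σ / L⌋
  set S := (Finset.range K).filter (fun k : ℕ => D L (σ + k * θ) ≤ V) with hS
  have hcls : ∀ j : ℤ, (((S.filter (fun k : ℕ => ⌊(σ + k * θ) / L⌋ = j)).card : ℝ)) ≤
      V / |θ| + 1 := by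
    intro j
    apply card_close hθ hV
    intro a ha b hb hab
    simp only [hS, Finset.mem_filter] at ha hb
    have ha1 := ha.1.2
    have hb1 := hb.1.2
    have ha2 := D_nonneg hL (σ + a * θ)
    have hb2 := D_nonneg hL (σ + b * θ)
    unfold D at ha1 hb1 ha2 hb2
    rw [ha.2] at ha1 ha2
    rw [hb.2] at hb1 hb2
    have hab' : (0 : ℝ) ≤ b - a := by
      have : (a : ℝ) ≤ b := by exact_mod_cast hab
      linarith
    rw [← abs_of_nonneg hab', ← abs_mul, abs_le]
    constructor <;> nlinarith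
  have hcover : S ⊆ (S.filter (fun k : ℕ => ⌊(σ + k * θ) / L⌋ = j0 - 1)) ∪
      ((S.filter (fun k : ℕ => ⌊(σ + k * θ) / L⌋ = j0)) ∪
      (S.filter (fun k : ℕ => ⌊(σ + k * θ) / L⌋ = j0 + 1))) := by
    intro k hk
    have hk' : k < K := by
      rw [hS, Finset.mem_filter, Finset.mem_range] at hk
      exact hk.1
    have h1 : (k : ℝ) * |θ| < L := by
      have h2 : (k : ℝ) < L / |θ| := by
        rw [hK] at hk'
        exact Nat.lt_ceil.1 hk'
      rwa [lt_div_iff₀ hθ] at h2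
    have h2 : |(σ + k * θ) / L - σ / L| < 1 := by
      rw [← sub_div, abs_div, abs_of_pos hL, div_lt_one hL, add_sub_cancel_left, abs_mul,
        Nat.abs_cast]
      exact h1
    have h3 := abs_lt.1 h2
    have f1 := Int.floor_le (σ / L)
    have f2 := Int.lt_floor_add_one (σ / L)
    have f3 := Int.floor_le ((σ + k * θ) / L)
    have f4 := Int.lt_floor_add_one ((σ + k * θ) / L)
    have g1 : (⌊(σ + k * θ) / L⌋ : ℝ) < (j0 : ℝ) + 2 := by
      have : (j0 : ℝ) = (⌊σ / L⌋ : ℝ) := rfl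
      linarith
    have g2 : (j0 : ℝ) - 2 < (⌊(σ + k * θ) / L⌋ : ℝ) := by
      have : (j0 : ℝ) = (⌊σ / L⌋ : ℝ) := rfl
      linarith
    have g3 : ⌊(σ + k * θ) / L⌋ < j0 + 2 := by exact_mod_cast g1
    have g4 : j0 - 2 < ⌊(σ + k * θ) / L⌋ := by exact_mod_cast g2
    simp only [Finset.mem_union, Finset.mem_filter]
    have : ⌊(σ + k * θ) / L⌋ = j0 - 1 ∨ ⌊(σ + k * θ) / L⌋ = j0 ∨
        ⌊(σ + k * θ) / L⌋ = j0 + 1 := by omega
    rcases this with h | h | h
    · exact Or.inl ⟨hk, h⟩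
    · exact Or.inr (Or.inl ⟨hk, h⟩)
    · exact Or.inr (Or.inr ⟨hk, h⟩)
  have hc := (Finset.card_le_card hcover).trans ((Finset.card_union_le _ _).trans
    (Nat.add_le_add_left (Finset.card_union_le _ _) _))
  have hc' : (S.card : ℝ) ≤ (S.filter (fun k : ℕ => ⌊(σ + k * θ) / L⌋ = j0 - 1)).card +
      ((S.filter (fun k : ℕ => ⌊(σ + k * θ) / L⌋ = j0)).card +
      (S.filter (fun k : ℕ => ⌊(σ + k * θ) / L⌋ = j0 + 1)).card) := by exact_mod_cast hc
  have := hcls (j0 - 1)
  have := hcls j0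
  have := hcls (j0 + 1)
  linarith

theorem vol_joint {L M T V W : ℝ} {s r : ℕ} (hL : 0 < L) (hM : 0 < M) (hT : 0 ≤ T)
    (hV : 1 ≤ V) (hW : 0 ≤ W) (hθ0 : 0 < |(s : ℝ) * M - r * L|)
    (hθ1 : |(s : ℝ) * M - r * L| ≤ 1) {K : ℕ} (hK : K = ⌈L / |(s : ℝ) * M - r * L|⌉₊) :
    volume {τ : ℝ | τ ∈ Set.Icc 0 T ∧ D L τ ≤ V ∧ D M τ ≤ W} ≤
      ENNReal.ofReal (K * s * M + 6 * V / L * ((T / M + 1) * W)) := by
  classical
  set θ : ℝ := (s : ℝ) * M - r * L with hθ
  set E : Set ℝ := {τ : ℝ | τ ∈ Set.Icc 0 T ∧ D L τ ≤ V ∧ D M τ ≤ W} with hE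
  set B : Set ℝ := {τ : ℝ | τ ∈ Set.Icc 0 T ∧ D M τ ≤ W} with hB
  set A : ℕ → Set ℝ := fun k => {σ : ℝ | D L (σ + k * θ) ≤ V} with hA
  have hAm : ∀ k, MeasurableSet (A k) := fun k =>
    measurableSet_le ((measurable_D L).comp (measurable_id.add_const _)) measurable_const
  have hBm : MeasurableSet B := measurableSet_Icc.inter
    (measurableSet_le (measurable_D M) measurable_const)
  have hBv : volume B ≤ ENNReal.ofReal ((T / M + 1) * W) := vol_single hM hT hW
  have hEfin : volume E ≠ ⊤ := by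
    apply ne_of_lt
    have : volume E ≤ volume (Set.Icc (0 : ℝ) T) := measure_mono fun τ hτ => hτ.1
    refine this.trans_lt ?_
    rw [Real.volume_Icc]; exact ENNReal.ofReal_lt_top
  have hK0 : 0 < K := by
    rw [hK, Nat.ceil_pos]; positivity
  have hshift : ∀ k ∈ Finset.range K,
      volume E ≤ ENNReal.ofReal (K * s * M) + volume (A k ∩ B) := by
    intro k hk
    rw [Finset.mem_range] at hk
    set c : ℝ := (k : ℝ) * s * M with hc
    have hsub : E ⊆ Set.Icc 0 c ∪ (fun τ => τ + (-c)) ⁻¹' (A k ∩ B) := by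
      rintro τ ⟨⟨h0, h1⟩, h2, h3⟩
      rcases le_or_gt τ c with h | h
      · exact Or.inl ⟨h0, h⟩
      · right
        refine ⟨?_, ⟨?_, ?_⟩, ?_⟩
        · change D L (τ + (-c) + k * θ) ≤ V
          have e1 : τ + (-c) + k * θ = τ + ((-(k * r : ℤ) : ℤ) : ℝ) * L := by
            rw [hc, hθ]; push_cast; ring
          rw [e1, D_add_mul hL]
          exact h2
        · change 0 ≤ τ + (-c); linarith
        · change τ + (-c) ≤ T
          have : 0 ≤ c := by positivity
          linarith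
        · change D M (τ + (-c)) ≤ W
          have e1 : τ + (-c) = τ + ((-(k * s : ℤ) : ℤ) : ℝ) * M := by
            rw [hc]; push_cast; ring
          rw [e1, D_add_mul hM]
          exact h3
    refine (measure_mono hsub).trans ((measure_union_le _ _).trans ?_)
    rw [measure_preimage_add_right, Real.volume_Icc, sub_zero]
    have hcK : c ≤ K * s * M := by
      have : (k : ℝ) ≤ K := by exact_mod_cast hk.le
      rw [hc]; gcongr
    gcongr
  have hsum : (K : ENNReal) * volume E ≤ K * ENNReal.ofReal (K * s * M) +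
      ENNReal.ofReal (3 * (V / |θ| + 1)) * volume B := by
    have h1 : ∑ _k ∈ Finset.range K, volume E ≤
        ∑ k ∈ Finset.range K, (ENNReal.ofReal (K * s * M) + volume (A k ∩ B)) :=
      Finset.sum_le_sum hshift
    rw [Finset.sum_const, Finset.card_range, nsmul_eq_mul, Finset.sum_add_distrib,
      Finset.sum_const, Finset.card_range, nsmul_eq_mul] at h1
    refine h1.trans (add_le_add le_rfl ?_)
    have h2 : ∀ k ∈ Finset.range K, volume (A k ∩ B) =
        ∫⁻ σ in B, (A k).indicator (fun _ => (1 : ENNReal)) σ := by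
      intro k _
      rw [lintegral_indicator (hAm k), lintegral_one, Measure.restrict_apply_univ,
        Measure.restrict_apply (hAm k)]
    rw [Finset.sum_congr rfl h2, ← lintegral_finsetSum _
      (fun k _ => measurable_const.indicator (hAm k))]
    have h3 : ∀ σ, ∑ k ∈ Finset.range K, (A k).indicator (fun _ => (1 : ENNReal)) σ ≤
        ENNReal.ofReal (3 * (V / |θ| + 1)) := by
      intro σ
      have h4 : ∑ k ∈ Finset.range K, (A k).indicator (fun _ => (1 : ENNReal)) σ =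
          (((Finset.range K).filter (fun k : ℕ => D L (σ + k * θ) ≤ V)).card : ENNReal) := by
        rw [Finset.card_filter]
        push_cast
        apply Finset.sum_congr rfl
        intro k _
        simp only [Set.indicator, hA, Set.mem_ofPred_eq]
      rw [h4, ← ENNReal.ofReal_natCast]
      apply ENNReal.ofReal_le_ofReal
      exact count_rot hL (by linarith) hθ0 hK
    refine (lintegral_mono h3).trans ?_
    rw [lintegral_const, Measure.restrict_apply_univ]
  have hBfin : volume B ≠ ⊤ := ne_of_lt (hBv.trans_lt ENNReal.ofReal_lt_top)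
  -- real form
  obtain ⟨e, he0, he⟩ : ∃ e : ℝ, 0 ≤ e ∧ volume E = ENNReal.ofReal e :=
    ⟨(volume E).toReal, ENNReal.toReal_nonneg, (ENNReal.ofReal_toReal hEfin).symm⟩
  have hVW : 0 ≤ (T / M + 1) * W := by positivity
  have hsum2 : (K : ENNReal) * ENNReal.ofReal e ≤ K * ENNReal.ofReal (K * s * M) +
      ENNReal.ofReal (3 * (V / |θ| + 1)) * ENNReal.ofReal ((T / M + 1) * W) := by
    rw [← he]
    exact hsum.trans (by gcongr)
  have hKsM : (0 : ℝ) ≤ K * s * M := by positivity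
  have hN : 0 ≤ 3 * (V / |θ| + 1) := by positivity
  rw [← ENNReal.ofReal_natCast, ← ENNReal.ofReal_mul (by positivity),
    ← ENNReal.ofReal_mul (by positivity), ← ENNReal.ofReal_mul hN,
    ← ENNReal.ofReal_add (by positivity) (by positivity),
    ENNReal.ofReal_le_ofReal_iff (by positivity)] at hsum2
  rw [he]
  apply ENNReal.ofReal_le_ofReal
  have hKr : (0 : ℝ) < K := by exact_mod_cast hK0
  have hKL : L / |θ| ≤ K := by rw [hK]; exact Nat.le_ceil _
  have h5 : e ≤ K * s * M + 3 * (V / |θ| + 1) * ((T / M + 1) * W) / K := by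
    rw [← sub_le_iff_le_add', le_div_iff₀ hKr]
    nlinarith
  refine h5.trans (add_le_add le_rfl ?_)
  rw [div_le_iff₀ hKr]
  have h6 : 3 * (V / |θ| + 1) ≤ 6 * V / L * K := by
    have h7 : 6 * V / L * (L / |θ|) ≤ 6 * V / L * K :=
      mul_le_mul_of_nonneg_left hKL (by positivity)
    refine le_trans ?_ h7
    have h8 : 6 * V / L * (L / |θ|) = 6 * V / |θ| := by field_simp
    rw [h8]
    have h9 : 1 ≤ V / |θ| := by
      rw [le_div_iff₀ hθ0]; linarith
    calc 3 * (V / |θ| + 1) ≤ 3 * (V / |θ| + V / |θ|) := by linarith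
      _ = 6 * V / |θ| := by ring
  calc 3 * (V / |θ| + 1) * ((T / M + 1) * W) ≤ 6 * V / L * K * ((T / M + 1) * W) :=
        mul_le_mul_of_nonneg_right h6 hVW
    _ = 6 * V / L * ((T / M + 1) * W) * K := by ring

/-- the hitting lemma -/
theorem hit {L M τ η : ℝ} {s r : ℕ} (hL : 0 < L) (hM : 0 < M)
    (hθ0 : 0 < |(s : ℝ) * M - r * L|) (hθ1 : |(s : ℝ) * M - r * L| ≤ η) {K : ℕ}
    (hK : K = ⌈L / |(s : ℝ) * M - r * L|⌉₊)
    (hτ : ((K : ℝ) * s + 1) * M + (K * r + 2) * L ≤ τ) :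
    ∃ a b : ℕ, 1 ≤ a ∧ 1 ≤ b ∧ τ - η ≤ a * L + b * M ∧ (a : ℝ) * L + b * M ≤ τ := by
  set θ : ℝ := (s : ℝ) * M - r * L with hθ
  have hKL : L / |θ| ≤ K := by rw [hK]; exact Nat.le_ceil _
  rcases lt_or_gt_of_ne (abs_pos.1 hθ0) with hneg | hpos
  · -- `s M < r L`
    rw [abs_of_neg hneg] at hθ0 hθ1 hKL
    set b0 : ℕ := K * s + 1 with hb0
    set a0 : ℕ := ⌊(τ - b0 * M) / L⌋₊ with ha0
    have hb0r : (b0 : ℝ) = K * s + 1 := by rw [hb0]; push_cast; ring
    have hx0 : 2 ≤ (τ - b0 * M) / L := by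
      rw [le_div_iff₀ hL, hb0r]
      have : 0 ≤ (K : ℝ) * r * L := by positivity
      nlinarith
    have ha1 : (a0 : ℝ) ≤ (τ - b0 * M) / L := Nat.floor_le (by linarith)
    have ha2 : (τ - b0 * M) / L < a0 + 1 := Nat.lt_floor_add_one _
    rw [le_div_iff₀ hL] at ha1
    rw [div_lt_iff₀ hL] at ha2
    have ha0' : 1 ≤ a0 := by
      rw [ha0, Nat.one_le_floor_iff]
      linarith
    set v0 : ℝ := a0 * L + b0 * M with hv0
    have hd0 : 0 ≤ τ - v0 := by rw [hv0]; linarith
    have hdL : τ - v0 < L := by rw [hv0]; nlinarith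
    set k : ℕ := ⌊(τ - v0) / (-θ)⌋₊ with hk
    have hk1 : (k : ℝ) ≤ (τ - v0) / (-θ) := Nat.floor_le (by positivity)
    have hk2 : (τ - v0) / (-θ) < k + 1 := Nat.lt_floor_add_one _
    have hkK : k ≤ K := by
      have : (k : ℝ) ≤ K := by
        refine hk1.trans (le_trans ?_ hKL)
        gcongr
      exact_mod_cast this
    rw [le_div_iff₀ hθ0] at hk1
    rw [div_lt_iff₀ hθ0] at hk2
    have hks : k * s ≤ K * s := Nat.mul_le_mul_right s hkK
    refine ⟨a0 + k * r, b0 - k * s, by omega, by omega, ?_, ?_⟩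
    · have e1 : ((b0 - k * s : ℕ) : ℝ) = b0 - k * s := by
        rw [Nat.cast_sub (by omega)]; push_cast; ring
      rw [e1]; push_cast
      have e2 : ((a0 : ℝ) + k * r) * L + (b0 - k * s) * M = v0 + k * (-θ) := by
        rw [hv0, hθ]; ring
      rw [e2]
      nlinarith
    · have e1 : ((b0 - k * s : ℕ) : ℝ) = b0 - k * s := by
        rw [Nat.cast_sub (by omega)]; push_cast; ring
      rw [e1]; push_cast
      have e2 : ((a0 : ℝ) + k * r) * L + (b0 - k * s) * M = v0 + k * (-θ) := by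
        rw [hv0, hθ]; ring
      rw [e2]
      linarith
  · rw [abs_of_pos hpos] at hθ0 hθ1 hKL
    set a0 : ℕ := ⌊(τ - M) / L⌋₊ with ha0
    have hx0 : (K : ℝ) * r + 2 ≤ (τ - M) / L := by
      rw [le_div_iff₀ hL]
      have : 0 ≤ (K : ℝ) * s * M := by positivity
      nlinarith
    have hx0' : 0 ≤ (τ - M) / L := le_trans (by positivity) hx0
    have ha1 : (a0 : ℝ) ≤ (τ - M) / L := Nat.floor_le hx0'
    have ha2 : (τ - M) / L < a0 + 1 := Nat.lt_floor_add_one _
    have ha3 : K * r + 1 ≤ a0 := by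
      have : (K : ℝ) * r + 1 < a0 := by linarith
      have h2 : ((K * r + 1 : ℕ) : ℝ) < a0 := by push_cast; exact this
      exact_mod_cast h2.le
    rw [le_div_iff₀ hL] at ha1
    rw [div_lt_iff₀ hL] at ha2
    set v0 : ℝ := a0 * L + M with hv0
    have hd0 : 0 ≤ τ - v0 := by rw [hv0]; linarith
    have hdL : τ - v0 < L := by rw [hv0]; nlinarith
    set k : ℕ := ⌊(τ - v0) / θ⌋₊ with hk
    have hk1 : (k : ℝ) ≤ (τ - v0) / θ := Nat.floor_le (by positivity)
    have hk2 : (τ - v0) / θ < k + 1 := Nat.lt_floor_add_one _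
    have hkK : k ≤ K := by
      have : (k : ℝ) ≤ K := by
        refine hk1.trans (le_trans ?_ hKL)
        gcongr
      exact_mod_cast this
    rw [le_div_iff₀ hθ0] at hk1
    rw [div_lt_iff₀ hθ0] at hk2
    have hkr : k * r ≤ K * r := Nat.mul_le_mul_right r hkK
    refine ⟨a0 - k * r, 1 + k * s, by omega, by omega, ?_, ?_⟩
    · have e1 : ((a0 - k * r : ℕ) : ℝ) = a0 - k * r := by
        rw [Nat.cast_sub (by omega)]; push_cast; ring
      rw [e1]; push_cast
      have e2 : ((a0 : ℝ) - k * r) * L + (1 + k * s) * M = v0 + k * θ := by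
        rw [hv0, hθ]; ring
      rw [e2]
      nlinarith
    · have e1 : ((a0 - k * r : ℕ) : ℝ) = a0 - k * r := by
        rw [Nat.cast_sub (by omega)]; push_cast; ring
      rw [e1]; push_cast
      have e2 : ((a0 : ℝ) - k * r) * L + (1 + k * s) * M = v0 + k * θ := by
        rw [hv0, hθ]; ring
      rw [e2]
      linarith

end Pool.Agent.KS6_8.LM
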