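import Mathlib
import Pool.Agent.KS6_8.LM.Meas

set_option autoImplicit false

open MeasureTheory Filter Topology

namespace Pool.Agent.KS6_8.LM

theorem ii_of_bdd {F : ℝ → ℝ} (hFm : Measurable F) (h0 : ∀ τ, 0 ≤ F τ) (h1 : ∀ τ, F τ ≤ 1)
    (a b : ℝ) : IntervalIntegrable F volume a b := by
  rw [intervalIntegrable_iff]
  apply Measure.integrableOn_of_bounded (M := 1)
  · rw [Set.uIoc]
    exact ne_of_lt measure_Ioc_lt_top
  · exact hFm.aestronglyMeasurable
  · apply Eventually.of_forall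
    intro τ
    rw [Real.norm_eq_abs, abs_of_nonneg (h0 τ)]
    exact h1 τ

theorem int_bds {F : ℝ → ℝ} (hFm : Measurable F) (h0 : ∀ τ, 0 ≤ F τ) (h1 : ∀ τ, F τ ≤ 1)
    {a b : ℝ} (hab : a ≤ b) : 0 ≤ ∫ τ in a..b, F τ ∧ ∫ τ in a..b, F τ ≤ b - a := by
  constructor
  · exact intervalIntegral.integral_nonneg hab (fun τ _ => h0 τ)
  · have h := intervalIntegral.integral_mono_on hab (ii_of_bdd hFm h0 h1 a b)
      (intervalIntegrable_const (c := (1 : ℝ))) (fun τ _ => h1 τ)
    simpa using h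

theorem mean_exists {F : ℝ → ℝ} (hFm : Measurable F) (h0 : ∀ τ, 0 ≤ F τ) (h1 : ∀ τ, F τ ≤ 1)
    (H : ∀ ε : ℝ, 0 < ε → ∃ ℓ T₀ : ℝ, 0 ≤ ℓ ∧ 0 < T₀ ∧ ∀ a : ℝ, 0 ≤ a → ∃ s, a ≤ s ∧ s ≤ a + ℓ ∧
      ∀ T, T₀ ≤ T → |∫ τ in (0 : ℝ)..T, (F (τ + s) - F τ)| ≤ ε * T) :
    ∃ δ : ℝ, Tendsto (fun T => (∫ τ in (0 : ℝ)..T, F τ) / T) atTop (𝓝 δ) := by
  apply cauchySeq_tendsto_of_complete
  rw [Metric.cauchySeq_iff']
  intro ε hε
  obtain ⟨ℓ, T₀, hℓ, hT₀, hH⟩ := H (ε / 10) (by positivity)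
  set T := max T₀ (10 * ℓ / ε) with hT
  have hT1 : T₀ ≤ T := le_max_left _ _
  have hT2 : 10 * ℓ / ε ≤ T := le_max_right _ _
  have hT0 : 0 < T := by linarith
  have hℓT : ℓ ≤ ε / 10 * T := by
    rw [div_le_iff₀ hε] at hT2
    linarith
  have hii := ii_of_bdd hFm h0 h1
  set I0 := ∫ τ in (0 : ℝ)..T, F τ with hI0
  have hI0b := int_bds hFm h0 h1 hT0.le
  rw [sub_zero, ← hI0] at hI0b
  have step : ∀ c : ℝ, 0 ≤ c → |(∫ τ in c..(c + T), F τ) - I0| ≤ ε / 5 * T := by
    intro c hc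
    obtain ⟨s, hs1, hs2, hs3⟩ := hH c hc
    have h3 := hs3 T hT1
    have e1 : ∫ τ in (0 : ℝ)..T, (F (τ + s) - F τ) = (∫ τ in s..(s + T), F τ) - I0 := by
      rw [intervalIntegral.integral_sub]
      · rw [intervalIntegral.integral_comp_add_right (fun τ => F τ) s, zero_add, add_comm T s]
      · exact (hFm.comp (measurable_id.add_const s)) |> fun hm =>
          ii_of_bdd (F := fun τ => F (τ + s)) hm (fun τ => h0 _) (fun τ => h1 _) 0 T
      · exact hii 0 T
    have e2 : ∫ τ in c..(c + T), F τ = (∫ τ in c..s, F τ) + (∫ τ in s..(s + T), F τ) -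
        ∫ τ in (c + T)..(s + T), F τ := by
      have g1 := intervalIntegral.integral_add_adjacent_intervals (hii c s) (hii s (s + T))
      have g2 := intervalIntegral.integral_add_adjacent_intervals (hii c (c + T))
        (hii (c + T) (s + T))
      linarith
    have b1 := int_bds hFm h0 h1 hs1
    have b2 := int_bds hFm h0 h1 (by linarith : c + T ≤ s + T)
    rw [e1] at h3
    rw [abs_le] at h3 ⊢
    rw [e2]
    constructor <;> linarith [h3.1, h3.2, b1.1, b1.2, b2.1, b2.2]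
  have hn : ∀ n : ℕ, |(∫ τ in (0 : ℝ)..(n * T), F τ) - n * I0| ≤ n * (ε / 5 * T) := by
    intro n
    induction n with
    | zero => simp
    | succ n ih =>
      have g1 := intervalIntegral.integral_add_adjacent_intervals (hii 0 (n * T))
        (hii (n * T) (n * T + T))
      have g2 := step (n * T) (by positivity)
      have g3 : ((n + 1 : ℕ) : ℝ) * T = n * T + T := by push_cast; ring
      rw [g3, ← g1]
      push_cast
      rw [abs_le] at ih g2 ⊢
      constructor <;> linarith [ih.1, ih.2, g2.1, g2.2]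
  have key : ∀ S : ℝ, 10 * T / ε ≤ S → 0 < S → |(∫ τ in (0 : ℝ)..S, F τ) / S - I0 / T| ≤
      2 * ε / 5 := by
    intro S hS hS0
    set n := ⌊S / T⌋₊ with hndef
    have n1 : (n : ℝ) * T ≤ S := by
      have := Nat.floor_le (a := S / T) (by positivity)
      rwa [le_div_iff₀ hT0] at this
    have n2 : S < (n : ℝ) * T + T := by
      have := Nat.lt_floor_add_one (S / T)
      rw [div_lt_iff₀ hT0] at this
      linarith
    have g1 := intervalIntegral.integral_add_adjacent_intervals (hii 0 (n * T)) (hii (n * T) S)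
    have g2 := int_bds hFm h0 h1 n1
    have g3 := hn n
    have g4 : (n : ℝ) * (ε / 5 * T) ≤ ε / 5 * S := by
      have : ε / 5 * ((n : ℝ) * T) ≤ ε / 5 * S := by gcongr
      linarith
    have g5 : T ≤ ε / 10 * S := by
      rw [div_le_iff₀ hε] at hS
      linarith
    have e1 : (∫ τ in (0 : ℝ)..S, F τ) / S - I0 / T =
        ((∫ τ in (0 : ℝ)..S, F τ) - S / T * I0) / S := by
      field_simp
    rw [e1, abs_div, abs_of_pos hS0, div_le_iff₀ hS0]
    have g6 : 0 ≤ I0 / T ∧ I0 / T ≤ 1 := by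
      constructor
      · exact div_nonneg hI0b.1 hT0.le
      · rw [div_le_one hT0]; exact hI0b.2
    have g7 : S / T * I0 = n * I0 + (S - n * T) * (I0 / T) := by field_simp; ring
    have g8 : 0 ≤ (S - n * T) * (I0 / T) ∧ (S - n * T) * (I0 / T) ≤ T := by
      constructor
      · exact mul_nonneg (by linarith) g6.1
      · calc (S - n * T) * (I0 / T) ≤ T * 1 := by
              apply mul_le_mul (by linarith) g6.2 g6.1 hT0.le
          _ = T := mul_one T
    rw [g7, ← g1]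
    rw [abs_le] at g3 ⊢
    constructor <;> linarith [g3.1, g3.2, g2.1, g2.2, g8.1, g8.2]
  refine ⟨max (10 * T / ε) 1, ?_⟩
  intro S hS
  have hS1 : 10 * T / ε ≤ S := (le_max_left _ _).trans hS
  have hS2 : 1 ≤ S := (le_max_right _ _).trans hS
  have k1 := key S hS1 (by linarith)
  have k2 := key (max (10 * T / ε) 1) (le_max_left _ _) (lt_of_lt_of_le one_pos (le_max_right _ _))
  rw [Real.dist_eq]
  rw [abs_le] at k1 k2
  rw [abs_lt]
  constructor <;> linarith [k1.1, k1.2, k2.1, k2.2]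

end Pool.Agent.KS6_8.LM
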