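import Mathlib
import Pool.Agent.KS6_8.LM.Meas

set_option autoImplicit false

open MeasureTheory Filter Topology

namespace Pool.Agent.KS6_8.LM

theorem vol_window {L T a V : ℝ} (hL : 0 < L) (hT : 0 ≤ T) (hV : 0 ≤ V) :
    volume {τ : ℝ | τ ∈ Set.Icc 0 T ∧ a ≤ D L τ ∧ D L τ ≤ a + V} ≤
      ENNReal.ofReal ((T / L + 1) * V) := by
  have hsub : {τ : ℝ | τ ∈ Set.Icc 0 T ∧ a ≤ D L τ ∧ D L τ ≤ a + V} ⊆
      ⋃ j ∈ Finset.range (⌊T / L⌋₊ + 1), Set.Icc ((j : ℝ) * L + a) (j * L + a + V) := by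
    rintro τ ⟨⟨h0, h1⟩, h2, h2'⟩
    have h3 : 0 ≤ ⌊τ / L⌋ := Int.floor_nonneg.2 (by positivity)
    obtain ⟨j, hj⟩ := Int.eq_ofNat_of_zero_le h3
    simp only [Set.mem_iUnion, Finset.mem_range]
    unfold D at h2 h2'
    rw [hj] at h2 h2'
    refine ⟨j, ?_, ?_⟩
    · have h4 : (j : ℤ) ≤ ⌊T / L⌋ := by
        rw [← hj]; exact Int.floor_le_floor (by gcongr)
      have h5 : j ≤ ⌊T / L⌋₊ := by
        rw [Nat.le_floor_iff (by positivity)]
        have := Int.le_floor.1 h4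
        exact_mod_cast this
      omega
    · push_cast at h2 h2'
      constructor <;> linarith
  refine (measure_mono hsub).trans ((measure_biUnion_finset_le _ _).trans ?_)
  simp only [Real.volume_Icc, add_sub_cancel_left, Finset.sum_const, Finset.card_range,
    nsmul_eq_mul]
  rw [← ENNReal.ofReal_natCast, ← ENNReal.ofReal_mul (by positivity)]
  apply ENNReal.ofReal_le_ofReal
  apply mul_le_mul_of_nonneg_right _ hV
  push_cast
  have := Nat.floor_le (a := T / L) (by positivity)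
  linarith

theorem count_diam {L V σ θ : ℝ} (hL : 0 < L) (hV : 0 ≤ V) (hθ : 0 < |θ|) {K : ℕ}
    (hK : K = ⌈L / |θ|⌉₊) (P : ℝ → Prop) [DecidablePred P]
    (hP : ∀ x₁ x₂, 0 ≤ x₁ → x₁ < L → 0 ≤ x₂ → x₂ < L → P x₁ → P x₂ → |x₁ - x₂| ≤ V) :
    (((Finset.range K).filter (fun k : ℕ => P (D L (σ + k * θ)))).card : ℝ) ≤
      3 * (V / |θ| + 1) := by
  classical
  set j0 : ℤ := ⌊σ / L⌋
  set S := (Finset.range K).filter (fun k : ℕ => P (D L (σ + k * θ))) with hS
  have hcls : ∀ j : ℤ, (((S.filter (fun k : ℕ => ⌊(σ + k * θ) / L⌋ = j)).card : ℝ)) ≤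
      V / |θ| + 1 := by
    intro j
    apply card_close hθ hV
    intro a ha b hb hab
    simp only [hS, Finset.mem_filter] at ha hb
    have h1 := hP _ _ (D_nonneg hL (σ + a * θ)) (D_lt hL (σ + a * θ))
      (D_nonneg hL (σ + b * θ)) (D_lt hL (σ + b * θ)) ha.1.2 hb.1.2
    unfold D at h1
    rw [ha.2, hb.2] at h1
    have hab' : (0 : ℝ) ≤ b - a := by
      have : (a : ℝ) ≤ b := by exact_mod_cast hab
      linarith
    rw [← abs_of_nonneg hab', ← abs_mul]
    have e1 : |(σ + a * θ - L * j) - (σ + b * θ - L * j)| = |((b : ℝ) - a) * θ| := by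
      rw [← abs_neg]; congr 1; ring
    rw [← e1]
    exact h1
  have hcover : S ⊆ (S.filter (fun k : ℕ => ⌊(σ + k * θ) / L⌋ = j0 - 1)) ∪
      ((S.filter (fun k : ℕ => ⌊(σ + k * θ) / L⌋ = j0)) ∪
      (S.filter (fun k : ℕ => ⌊(σ + k * θ) / L⌋ = j0 + 1))) := by
    intro k hk
    have hk' : k < K := by
      rw [hS, Finset.mem_filter, Finset.mem_range] at hk
      exact hk.1
    have h1 : (k : ℝ) * |θ| < L := by
      have h2 : (k : ℝ) < L / |θ| := by
        rw [hK] at hk'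
        exact Nat.lt_ceil.1 hk'
      rwa [lt_div_iff₀ hθ] at h2
    have h2 : |(σ + k * θ) / L - σ / L| < 1 := by
      rw [← sub_div, abs_div, abs_of_pos hL, div_lt_one hL, add_sub_cancel_left, abs_mul,
        Nat.abs_cast]
      exact h1
    have h3 := abs_lt.1 h2
    have f1 := Int.floor_le (σ / L)
    have f2 := Int.lt_floor_add_one (σ / L)
    have f3 := Int.floor_le ((σ + k * θ) / L)
    have f4 := Int.lt_floor_add_one ((σ + k * θ) / L)
    have g1 : (⌊(σ + k * θ) / L⌋ : ℝ) < (j0 : ℝ) + 2 := by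
      have : (j0 : ℝ) = (⌊σ / L⌋ : ℝ) := rfl
      linarith
    have g2 : (j0 : ℝ) - 2 < (⌊(σ + k * θ) / L⌋ : ℝ) := by
      have : (j0 : ℝ) = (⌊σ / L⌋ : ℝ) := rfl
      linarith
    have g3 : ⌊(σ + k * θ) / L⌋ < j0 + 2 := by exact_mod_cast g1
    have g4 : j0 - 2 < ⌊(σ + k * θ) / L⌋ := by exact_mod_cast g2
    simp only [Finset.mem_union, Finset.mem_filter]
    have : ⌊(σ + k * θ) / L⌋ = j0 - 1 ∨ ⌊(σ + k * θ) / L⌋ = j0 ∨
        ⌊(σ + k * θ) / L⌋ = j0 + 1 := by omega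
    rcases this with h | h | h
    · exact Or.inl ⟨hk, h⟩
    · exact Or.inr (Or.inl ⟨hk, h⟩)
    · exact Or.inr (Or.inr ⟨hk, h⟩)
  have hc := (Finset.card_le_card hcover).trans ((Finset.card_union_le _ _).trans
    (Nat.add_le_add_left (Finset.card_union_le _ _) _))
  have hc' : (S.card : ℝ) ≤ (S.filter (fun k : ℕ => ⌊(σ + k * θ) / L⌋ = j0 - 1)).card +
      ((S.filter (fun k : ℕ => ⌊(σ + k * θ) / L⌋ = j0)).card +
      (S.filter (fun k : ℕ => ⌊(σ + k * θ) / L⌋ = j0 + 1)).card) := by exact_mod_cast hc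
  have := hcls (j0 - 1)
  have := hcls j0
  have := hcls (j0 + 1)
  linarith

theorem vol_moving {L M T V : ℝ} {s r : ℕ} (hL : 0 < L) (hM : 0 < M) (hT : 0 ≤ T)
    (hV : 0 < V) (hθ0 : 0 < |(s : ℝ) * M - r * L|)
    (hθ1 : |(s : ℝ) * M - r * L| ≤ V) {K : ℕ} (hK : K = ⌈L / |(s : ℝ) * M - r * L|⌉₊)
    (Q : ℝ → ℝ → Prop) (hQm : MeasurableSet {z : ℝ × ℝ | Q z.1 z.2})
    (hQ : ∀ y x₁ x₂, 0 ≤ x₁ → x₁ < L → 0 ≤ x₂ → x₂ < L → Q x₁ y → Q x₂ y → |x₁ - x₂| ≤ V) :
    volume {τ : ℝ | τ ∈ Set.Icc 0 T ∧ Q (D L τ) (D M τ)} ≤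
      ENNReal.ofReal (K * s * M + 6 * V / L * T) := by
  classical
  set θ : ℝ := (s : ℝ) * M - r * L with hθ
  set E : Set ℝ := {τ : ℝ | τ ∈ Set.Icc 0 T ∧ Q (D L τ) (D M τ)} with hE
  set B : Set ℝ := Set.Icc 0 T with hB
  set A : ℕ → Set ℝ := fun k => {σ : ℝ | Q (D L (σ + k * θ)) (D M σ)} with hA
  have hAm : ∀ k, MeasurableSet (A k) := fun k =>
    (((measurable_D L).comp (measurable_id.add_const _)).prodMk (measurable_D M)) hQm
  have hBv : volume B = ENNReal.ofReal T := by rw [hB, Real.volume_Icc, sub_zero]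
  have hEfin : volume E ≠ ⊤ := by
    apply ne_of_lt
    have : volume E ≤ volume (Set.Icc (0 : ℝ) T) := measure_mono fun τ hτ => hτ.1
    refine this.trans_lt ?_
    rw [Real.volume_Icc]; exact ENNReal.ofReal_lt_top
  have hK0 : 0 < K := by
    rw [hK, Nat.ceil_pos]; positivity
  have hshift : ∀ k ∈ Finset.range K,
      volume E ≤ ENNReal.ofReal (K * s * M) + volume (A k ∩ B) := by
    intro k hk
    rw [Finset.mem_range] at hk
    set c : ℝ := (k : ℝ) * s * M with hc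
    have hsub : E ⊆ Set.Icc 0 c ∪ (fun τ => τ + (-c)) ⁻¹' (A k ∩ B) := by
      rintro τ ⟨⟨h0, h1⟩, h2⟩
      rcases le_or_gt τ c with h | h
      · exact Or.inl ⟨h0, h⟩
      · right
        refine ⟨?_, ?_, ?_⟩
        · change Q (D L (τ + (-c) + k * θ)) (D M (τ + (-c)))
          have e1 : τ + (-c) + k * θ = τ + ((-(k * r : ℤ) : ℤ) : ℝ) * L := by
            rw [hc, hθ]; push_cast; ring
          have e2 : τ + (-c) = τ + ((-(k * s : ℤ) : ℤ) : ℝ) * M := by
            rw [hc]; push_cast; ring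
          rw [e1, D_add_mul hL, e2, D_add_mul hM]
          exact h2
        · change 0 ≤ τ + (-c); linarith
        · change τ + (-c) ≤ T
          have : 0 ≤ c := by positivity
          linarith
    refine (measure_mono hsub).trans ((measure_union_le _ _).trans ?_)
    rw [measure_preimage_add_right, Real.volume_Icc, sub_zero]
    have hcK : c ≤ K * s * M := by
      have : (k : ℝ) ≤ K := by exact_mod_cast hk.le
      rw [hc]; gcongr
    gcongr
  have hsum : (K : ENNReal) * volume E ≤ K * ENNReal.ofReal (K * s * M) +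
      ENNReal.ofReal (3 * (V / |θ| + 1)) * volume B := by
    have h1 : ∑ _k ∈ Finset.range K, volume E ≤
        ∑ k ∈ Finset.range K, (ENNReal.ofReal (K * s * M) + volume (A k ∩ B)) :=
      Finset.sum_le_sum hshift
    rw [Finset.sum_const, Finset.card_range, nsmul_eq_mul, Finset.sum_add_distrib,
      Finset.sum_const, Finset.card_range, nsmul_eq_mul] at h1
    refine h1.trans (add_le_add le_rfl ?_)
    have h2 : ∀ k ∈ Finset.range K, volume (A k ∩ B) =
        ∫⁻ σ in B, (A k).indicator (fun _ => (1 : ENNReal)) σ := by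
      intro k _
      rw [lintegral_indicator (hAm k), lintegral_one, Measure.restrict_apply_univ,
        Measure.restrict_apply (hAm k)]
    rw [Finset.sum_congr rfl h2, ← lintegral_finsetSum _
      (fun k _ => measurable_const.indicator (hAm k))]
    have h3 : ∀ σ, ∑ k ∈ Finset.range K, (A k).indicator (fun _ => (1 : ENNReal)) σ ≤
        ENNReal.ofReal (3 * (V / |θ| + 1)) := by
      intro σ
      have h4 : ∑ k ∈ Finset.range K, (A k).indicator (fun _ => (1 : ENNReal)) σ =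
          (((Finset.range K).filter (fun k : ℕ => Q (D L (σ + k * θ)) (D M σ))).card :
            ENNReal) := by
        rw [Finset.card_filter]
        push_cast
        apply Finset.sum_congr rfl
        intro k _
        simp only [Set.indicator, hA, Set.mem_ofPred_eq]
      rw [h4, ← ENNReal.ofReal_natCast]
      apply ENNReal.ofReal_le_ofReal
      exact count_diam hL hV.le hθ0 hK (fun x => Q x (D M σ)) (hQ (D M σ))
    refine (lintegral_mono h3).trans ?_
    rw [lintegral_const, Measure.restrict_apply_univ]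
  obtain ⟨e, he0, he⟩ : ∃ e : ℝ, 0 ≤ e ∧ volume E = ENNReal.ofReal e :=
    ⟨(volume E).toReal, ENNReal.toReal_nonneg, (ENNReal.ofReal_toReal hEfin).symm⟩
  have hsum2 := hsum
  rw [he, hBv] at hsum2
  have hKsM : (0 : ℝ) ≤ K * s * M := by positivity
  have hN : 0 ≤ 3 * (V / |θ| + 1) := by positivity
  rw [← ENNReal.ofReal_natCast, ← ENNReal.ofReal_mul (by positivity),
    ← ENNReal.ofReal_mul (by positivity), ← ENNReal.ofReal_mul hN,
    ← ENNReal.ofReal_add (by positivity) (by positivity),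
    ENNReal.ofReal_le_ofReal_iff (by positivity)] at hsum2
  rw [he]
  apply ENNReal.ofReal_le_ofReal
  have hKr : (0 : ℝ) < K := by exact_mod_cast hK0
  have hKL : L / |θ| ≤ K := by rw [hK]; exact Nat.le_ceil _
  have h5 : e ≤ K * s * M + 3 * (V / |θ| + 1) * T / K := by
    rw [← sub_le_iff_le_add', le_div_iff₀ hKr]
    nlinarith
  refine h5.trans (add_le_add le_rfl ?_)
  rw [div_le_iff₀ hKr]
  have h6 : 3 * (V / |θ| + 1) ≤ 6 * V / L * K := by
    have h7 : 6 * V / L * (L / |θ|) ≤ 6 * V / L * K :=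
      mul_le_mul_of_nonneg_left hKL (by positivity)
    refine le_trans ?_ h7
    have h8 : 6 * V / L * (L / |θ|) = 6 * V / |θ| := by field_simp
    rw [h8]
    have h9 : 1 ≤ V / |θ| := by
      rw [le_div_iff₀ hθ0]; linarith
    calc 3 * (V / |θ| + 1) ≤ 3 * (V / |θ| + V / |θ|) := by linarith
      _ = 6 * V / |θ| := by ring
  calc 3 * (V / |θ| + 1) * T ≤ 6 * V / L * K * T :=
        mul_le_mul_of_nonneg_right h6 hT
    _ = 6 * V / L * T * K := by ring

/-- upper density at most `ε` -/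
def UD (S : Set ℝ) (ε : ℝ) : Prop :=
  ∀ᶠ T : ℝ in atTop, volume (S ∩ Set.Icc 0 T) ≤ ENNReal.ofReal (ε * T)

/-- a family of sets with vanishing upper density -/
def Negl (S : ℝ → Set ℝ) : Prop := ∀ ε : ℝ, 0 < ε → ∀ᶠ κ : ℝ in 𝓝[>] 0, UD (S κ) ε

theorem Negl.union {S S' : ℝ → Set ℝ} (h : Negl S) (h' : Negl S') :
    Negl (fun κ => S κ ∪ S' κ) := by
  intro ε hε
  filter_upwards [h (ε / 2) (by positivity), h' (ε / 2) (by positivity)] with κ h1 h2
  filter_upwards [h1, h2, eventually_ge_atTop (0 : ℝ)] with T h1 h2 hT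
  rw [Set.union_inter_distrib_right]
  refine (measure_union_le _ _).trans ((add_le_add h1 h2).trans ?_)
  rw [← ENNReal.ofReal_add (by positivity) (by positivity)]
  apply ENNReal.ofReal_le_ofReal
  linarith

theorem Negl.biUnion {ι : Type*} (I : Finset ι) {S : ι → ℝ → Set ℝ}
    (h : ∀ i ∈ I, Negl (S i)) : Negl (fun κ => ⋃ i ∈ I, S i κ) := by
  classical
  induction I using Finset.induction_on with
  | empty =>
    intro ε hε
    apply Eventually.of_forall
    intro κ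
    apply Eventually.of_forall
    intro T
    simp
  | insert a I ha ih =>
    have h1 := (h a (Finset.mem_insert_self a I)).union
      (ih (fun i hi => h i (Finset.mem_insert_of_mem hi)))
    intro ε hε
    filter_upwards [h1 ε hε] with κ hκ
    simpa only [Finset.set_biUnion_insert] using hκ

theorem negl_window {L a b : ℝ} (hL : 0 < L) (hb : 0 < b) :
    Negl (fun κ => {τ : ℝ | |D L τ - a| ≤ b * κ}) := by
  intro ε hε
  have h1 : ∀ᶠ κ : ℝ in 𝓝[>] 0, κ < ε * L / (4 * b) := by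
    have : (0 : ℝ) < ε * L / (4 * b) := by positivity
    exact mem_nhdsWithin_of_mem_nhds (Iio_mem_nhds this)
  filter_upwards [h1, self_mem_nhdsWithin] with κ hκ hκ0
  rw [Set.mem_Ioi] at hκ0
  filter_upwards [eventually_ge_atTop L] with T hT
  have hT0 : 0 < T := by linarith
  have hsub : {τ : ℝ | |D L τ - a| ≤ b * κ} ∩ Set.Icc 0 T ⊆
      {τ : ℝ | τ ∈ Set.Icc 0 T ∧ a - b * κ ≤ D L τ ∧ D L τ ≤ a - b * κ + 2 * (b * κ)} := by
    rintro τ ⟨h2, h3⟩
    have h2' : |D L τ - a| ≤ b * κ := h2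
    have h4 := abs_le.1 h2'
    exact ⟨h3, by linarith [h4.1], by linarith [h4.2]⟩
  refine (measure_mono hsub).trans ((vol_window hL hT0.le (by positivity)).trans ?_)
  apply ENNReal.ofReal_le_ofReal
  have e2 : T / L + 1 ≤ 2 * (T / L) := by
    have : 1 ≤ T / L := by rw [le_div_iff₀ hL]; linarith
    linarith
  rw [lt_div_iff₀ (by positivity)] at hκ
  calc (T / L + 1) * (2 * (b * κ)) ≤ 2 * (T / L) * (2 * (b * κ)) := by gcongr
    _ = (κ * (4 * b)) * T / L := by ring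
    _ ≤ (ε * L) * T / L := by gcongr
    _ = ε * T := by field_simp

/-- Dirichlet for logarithms of two primes -/
theorem dirichlet_pair {p q : ℕ} (hp : p.Prime) (hq : q.Prime) (hpq : p ≠ q) {κ : ℝ}
    (hκ : 0 < κ) : ∃ s r : ℕ, 0 < |(s : ℝ) * Real.log q - r * Real.log p| ∧
      |(s : ℝ) * Real.log q - r * Real.log p| ≤ κ := by
  have hLp : 0 < Real.log p := Real.log_pos (by exact_mod_cast hp.one_lt)
  have hLq : 0 < Real.log q := Real.log_pos (by exact_mod_cast hq.one_lt)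
  set n : ℕ := ⌈Real.log p / κ⌉₊ with hn
  have hn0 : 0 < n := by rw [hn, Nat.ceil_pos]; positivity
  obtain ⟨s, hs0, hsn, hs⟩ := Real.exists_nat_abs_mul_sub_round_le (Real.log q / Real.log p) hn0
  set j : ℤ := round ((s : ℝ) * (Real.log q / Real.log p)) with hj
  have hj0 : 0 ≤ j := by
    rw [hj, round_eq]
    apply Int.floor_nonneg.2
    positivity
  obtain ⟨r, hr⟩ := Int.eq_ofNat_of_zero_le hj0
  have hjr : (j : ℝ) = (r : ℝ) := by rw [hr]; simp
  have e1 : |(s : ℝ) * Real.log q - r * Real.log p| =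
      Real.log p * |(s : ℝ) * (Real.log q / Real.log p) - j| := by
    rw [hjr, ← abs_of_pos hLp, ← abs_mul, abs_of_pos hLp]
    congr 1
    field_simp
  refine ⟨s, r, ?_, ?_⟩
  · rw [abs_pos, sub_ne_zero]
    intro h
    have h1 : Real.log ((q ^ s : ℕ) : ℝ) = Real.log ((p ^ r : ℕ) : ℝ) := by
      push_cast
      rw [Real.log_pow, Real.log_pow, h]
    have h2 : ((q ^ s : ℕ) : ℝ) = ((p ^ r : ℕ) : ℝ) :=
      Real.log_injOn_pos (Set.mem_Ioi.2 (by exact_mod_cast pow_pos hq.pos s))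
        (Set.mem_Ioi.2 (by exact_mod_cast pow_pos hp.pos r)) h1
    have h3 : q ^ s = p ^ r := by exact_mod_cast h2
    have h4 : q ∣ p ^ r := h3 ▸ dvd_pow_self q (by omega)
    have h5 := hq.dvd_of_dvd_pow h4
    rw [Nat.prime_dvd_prime_iff_eq hq hp] at h5
    exact hpq h5.symm
  · rw [e1]
    have hn1 : Real.log p / κ ≤ n := Nat.le_ceil _
    have hn2 : (0 : ℝ) < n + 1 := by positivity
    calc Real.log p * |(s : ℝ) * (Real.log q / Real.log p) - j|
        ≤ Real.log p * (1 / (n + 1)) := mul_le_mul_of_nonneg_left hs hLp.le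
      _ = Real.log p / (n + 1) := by ring
      _ ≤ κ := by
        rw [div_le_iff₀ hn2]
        rw [div_le_iff₀ hκ] at hn1
        nlinarith

theorem exp_diff {L x₁ x₂ : ℝ} (h1 : x₁ ≤ L) (h2 : x₂ ≤ L) :
    |x₁ - x₂| ≤ Real.exp L * |Real.exp (-x₁) - Real.exp (-x₂)| := by
  wlog h : x₁ ≤ x₂ generalizing x₁ x₂ with H
  · rw [abs_sub_comm, abs_sub_comm (Real.exp (-x₁))]
    exact H h2 h1 (by linarith)
  have e1 : Real.exp (-x₁) - Real.exp (-x₂) = Real.exp (-x₂) * (Real.exp (x₂ - x₁) - 1) := by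
    rw [mul_sub, ← Real.exp_add]; ring_nf
  have e2 : x₂ - x₁ ≤ Real.exp (x₂ - x₁) - 1 := by
    have := Real.add_one_le_exp (x₂ - x₁); linarith
  have e3 : 1 ≤ Real.exp L * Real.exp (-x₂) := by
    rw [← Real.exp_add]; exact Real.one_le_exp (by linarith)
  rw [abs_sub_comm, abs_of_nonneg (by linarith : 0 ≤ x₂ - x₁), e1,
    abs_of_nonneg (mul_nonneg (Real.exp_pos _).le (by linarith)), ← mul_assoc]
  nlinarith

theorem negl_pair {p q : ℕ} (hp : p.Prime) (hq : q.Prime) (hpq : p ≠ q) :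
    Negl (fun κ => {τ : ℝ |
      Real.exp (-(2 * κ)) ≤ Real.exp (-D (Real.log p) τ) + Real.exp (-D (Real.log q) τ) ∧
      Real.exp (-D (Real.log p) τ) + Real.exp (-D (Real.log q) τ) ≤ Real.exp (2 * κ)}) := by
  intro ε hε
  set L := Real.log p with hLdef
  set M := Real.log q with hMdef
  have hL : 0 < L := Real.log_pos (by exact_mod_cast hp.one_lt)
  have hM : 0 < M := Real.log_pos (by exact_mod_cast hq.one_lt)
  have h1 : ∀ᶠ κ : ℝ in 𝓝[>] 0, κ < min (1 / 4) (ε * L / (2 * (6 * 6 * Real.exp L))) := by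
    have : (0 : ℝ) < min (1 / 4) (ε * L / (2 * (6 * 6 * Real.exp L))) := by positivity
    exact mem_nhdsWithin_of_mem_nhds (Iio_mem_nhds this)
  filter_upwards [h1, self_mem_nhdsWithin] with κ hκ hκ0
  rw [Set.mem_Ioi] at hκ0
  have hκ1 : κ < 1 / 4 := lt_of_lt_of_le hκ (min_le_left _ _)
  have hκ2 : κ < ε * L / (2 * (6 * 6 * Real.exp L)) := lt_of_lt_of_le hκ (min_le_right _ _)
  set V := 6 * κ * Real.exp L with hV
  have hV0 : 0 < V := by positivity
  obtain ⟨s, r, hθ0, hθ1⟩ := dirichlet_pair hp hq hpq hV0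
  obtain ⟨K, hK⟩ : ∃ K : ℕ, K = ⌈L / |(s : ℝ) * M - r * L|⌉₊ := ⟨_, rfl⟩
  filter_upwards [eventually_ge_atTop (0 : ℝ), eventually_ge_atTop (2 * (K * s * M) / ε)]
    with T hT hT2
  have hmv := vol_moving hL hM hT hV0 hθ0 hθ1 hK
    (fun x y => Real.exp (-(2 * κ)) ≤ Real.exp (-x) + Real.exp (-y) ∧
      Real.exp (-x) + Real.exp (-y) ≤ Real.exp (2 * κ)) (by
      have hm : Measurable (fun z : ℝ × ℝ => Real.exp (-z.1) + Real.exp (-z.2)) := by fun_prop
      exact (measurableSet_le measurable_const hm).inter (measurableSet_le hm measurable_const))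
    (by
      intro y x₁ x₂ _ hx1 _ hx2 hq1 hq2
      refine (exp_diff hx1.le hx2.le).trans ?_
      have e1 : |Real.exp (-x₁) - Real.exp (-x₂)| ≤ Real.exp (2 * κ) - Real.exp (-(2 * κ)) := by
        rw [abs_le]
        constructor <;> linarith [hq1.1, hq1.2, hq2.1, hq2.2]
      have e2 : Real.exp (2 * κ) ≤ 1 + 2 * (2 * κ) := by
        have h4 := Real.abs_exp_sub_one_sub_id_le (x := 2 * κ)
          (by rw [abs_of_nonneg (by positivity)]; linarith)
        rw [abs_le] at h4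
        nlinarith [h4.2]
      have e3 : 1 - 2 * κ ≤ Real.exp (-(2 * κ)) := by
        have := Real.add_one_le_exp (-(2 * κ)); linarith
      rw [hV]
      calc Real.exp L * |Real.exp (-x₁) - Real.exp (-x₂)| ≤ Real.exp L * (6 * κ) := by
            gcongr
            linarith
        _ = _ := by ring)
  have hsub : {τ : ℝ |
      Real.exp (-(2 * κ)) ≤ Real.exp (-D L τ) + Real.exp (-D M τ) ∧
      Real.exp (-D L τ) + Real.exp (-D M τ) ≤ Real.exp (2 * κ)} ∩ Set.Icc 0 T ⊆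
      {τ : ℝ | τ ∈ Set.Icc 0 T ∧ (Real.exp (-(2 * κ)) ≤ Real.exp (-D L τ) + Real.exp (-D M τ) ∧
      Real.exp (-D L τ) + Real.exp (-D M τ) ≤ Real.exp (2 * κ))} := fun τ hτ => ⟨hτ.2, hτ.1⟩
  refine (measure_mono hsub).trans (hmv.trans ?_)
  apply ENNReal.ofReal_le_ofReal
  have e1 : (K : ℝ) * s * M ≤ ε / 2 * T := by
    rw [div_le_iff₀ hε] at hT2
    linarith
  have e2 : 6 * V / L * T ≤ ε / 2 * T := by
    apply mul_le_mul_of_nonneg_right _ hT
    rw [lt_div_iff₀ (by positivity)] at hκ2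
    rw [div_le_iff₀ hL, hV]
    linarith
  linarith

/-- relatively dense common almost periods -/
theorem almost_periods (P : Finset ℕ) (Lf : ℕ → ℝ) (hLf : ∀ p ∈ P, 0 < Lf p) {κ : ℝ}
    (hκ : 0 < κ) : ∃ ℓ : ℝ, 0 ≤ ℓ ∧ ∀ a : ℝ, 0 ≤ a → ∃ s, a ≤ s ∧ s ≤ a + ℓ ∧
      ∀ p ∈ P, ∃ j : ℤ, |s - j * Lf p| ≤ κ := by
  classical
  set M : ℕ := ⌈∑ p ∈ P, Lf p / κ⌉₊ + 1 with hM
  have hM0 : 0 < M := by omega
  have hMr : (0 : ℝ) < M := by exact_mod_cast hM0
  have hMp : ∀ p ∈ P, Lf p / κ ≤ M := by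
    intro p hp
    have h1 : Lf p / κ ≤ ∑ p ∈ P, Lf p / κ :=
      Finset.single_le_sum (f := fun p => Lf p / κ)
        (fun q hq => div_nonneg (hLf q hq).le hκ.le) hp
    have h2 : ∑ p ∈ P, Lf p / κ ≤ ⌈∑ p ∈ P, Lf p / κ⌉₊ := Nat.le_ceil _
    rw [hM]; push_cast
    linarith
  set cell : ℝ → (P → Fin M) := fun t p => ⟨⌊(M : ℝ) * Int.fract (t / Lf p)⌋₊, by
    rw [Nat.floor_lt (by have := Int.fract_nonneg (t / Lf p); positivity)]
    have := Int.fract_lt_one (t / Lf p)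
    nlinarith⟩ with hcell
  have hrep : ∀ c : P → Fin M, ∃ t : ℝ, 0 ≤ t ∧ ((∃ t' : ℝ, 0 ≤ t' ∧ cell t' = c) → cell t = c) := by
    intro c
    by_cases h : ∃ t' : ℝ, 0 ≤ t' ∧ cell t' = c
    · obtain ⟨t', h1, h2⟩ := h
      exact ⟨t', h1, fun _ => h2⟩
    · exact ⟨0, le_rfl, fun h' => absurd h' h⟩
  choose rep hrep0 hrep1 using hrep
  refine ⟨∑ c, rep c, Finset.sum_nonneg (fun c _ => hrep0 c), ?_⟩
  intro a ha
  set t := a + ∑ c, rep c with ht
  have hs0 : 0 ≤ ∑ c, rep c := Finset.sum_nonneg (fun c _ => hrep0 c)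
  have ht0 : 0 ≤ t := by linarith
  set tc := rep (cell t) with htc
  have htc0 : 0 ≤ tc := hrep0 _
  have htc1 : tc ≤ ∑ c, rep c :=
    Finset.single_le_sum (f := rep) (fun c _ => hrep0 c) (Finset.mem_univ _)
  have hce : cell tc = cell t := hrep1 (cell t) ⟨t, ht0, rfl⟩
  refine ⟨t - tc, by linarith, by linarith, ?_⟩
  intro p hp
  refine ⟨⌊t / Lf p⌋ - ⌊tc / Lf p⌋, ?_⟩
  have hL := hLf p hp
  have h1 := congrFun hce ⟨p, hp⟩
  rw [hcell] at h1
  simp only [Fin.mk.injEq] at h1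
  have f1 := Nat.floor_le (a := (M : ℝ) * Int.fract (t / Lf p))
    (by have := Int.fract_nonneg (t / Lf p); positivity)
  have f2 := Nat.lt_floor_add_one ((M : ℝ) * Int.fract (t / Lf p))
  have f3 := Nat.floor_le (a := (M : ℝ) * Int.fract (tc / Lf p))
    (by have := Int.fract_nonneg (tc / Lf p); positivity)
  have f4 := Nat.lt_floor_add_one ((M : ℝ) * Int.fract (tc / Lf p))
  rw [h1] at f3 f4
  have g1 : |(M : ℝ) * (Int.fract (t / Lf p) - Int.fract (tc / Lf p))| ≤ 1 := by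
    rw [abs_le]; constructor <;> linarith
  have e1 : t - tc - ((⌊t / Lf p⌋ - ⌊tc / Lf p⌋ : ℤ) : ℝ) * Lf p =
      (Int.fract (t / Lf p) - Int.fract (tc / Lf p)) * Lf p := by
    unfold Int.fract
    push_cast
    field_simp
    ring
  rw [e1, abs_mul, abs_of_pos hL]
  rw [abs_mul, abs_of_pos hMr] at g1
  have h2 := hMp p hp
  rw [div_le_iff₀ hκ] at h2
  have h3 : 0 ≤ |Int.fract (t / Lf p) - Int.fract (tc / Lf p)| := abs_nonneg _
  calc |Int.fract (t / Lf p) - Int.fract (tc / Lf p)| * Lf p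
      ≤ |Int.fract (t / Lf p) - Int.fract (tc / Lf p)| * (M * κ) := by gcongr
    _ = (M * |Int.fract (t / Lf p) - Int.fract (tc / Lf p)|) * κ := by ring
    _ ≤ 1 * κ := by gcongr
    _ = κ := one_mul κ

end Pool.Agent.KS6_8.LM
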