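import Mathlib
import Pool.Agent.KS6_8.LM.Bad

set_option autoImplicit false

open Finset

namespace Pool.Agent.KS6_8.LM

/-- the numbers `1 ≤ m ≤ N` all of whose prime factors are below `z` -/
noncomputable def Sm (N z : ℕ) : Finset ℕ := by
  classical
  exact (Finset.Icc 1 N).filter (fun m => m ∈ z.smoothNumbers)

theorem mem_Sm {N z m : ℕ} : m ∈ Sm N z ↔ (1 ≤ m ∧ m ≤ N) ∧ m ∈ z.smoothNumbers := by
  unfold Sm
  rw [Finset.mem_filter, Finset.mem_Icc]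

theorem sum_image_le' {ι : Type*} [DecidableEq ι] (X : Finset ι) (φ : ι → ℕ) (G : ℕ → ℝ)
    (hG : ∀ m, 0 ≤ G m) : ∑ m ∈ X.image φ, G m ≤ ∑ x ∈ X, G (φ x) := by
  rw [Finset.sum_comp G φ]
  apply Finset.sum_le_sum
  intro m hm
  obtain ⟨x, hx, hxm⟩ := Finset.mem_image.1 hm
  have h1 : 1 ≤ (X.filter (fun a => φ a = m)).card := by
    rw [Nat.one_le_iff_ne_zero, Finset.card_ne_zero]
    exact ⟨x, Finset.mem_filter.2 ⟨hx, hxm⟩⟩
  rw [nsmul_eq_mul]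
  have h2 : (1 : ℝ) ≤ ((X.filter (fun a => φ a = m)).card : ℝ) := by exact_mod_cast h1
  nlinarith [hG m]

theorem peel (N z : ℕ) (G : ℕ → ℝ) (hG : ∀ m, 0 ≤ G m) :
    ∑ m ∈ Sm N z, G m ≤ G 1 + ∑ p ∈ z.primesBelow, ∑ a ∈ Finset.Icc 1 N,
      ∑ m ∈ Sm N p, G (p ^ a * m) := by
  classical
  set X : Finset (Σ _ : ℕ, ℕ × ℕ) := z.primesBelow.sigma (fun p => Finset.Icc 1 N ×ˢ Sm N p)
    with hX
  set φ : (Σ _ : ℕ, ℕ × ℕ) → ℕ := fun x => x.1 ^ x.2.1 * x.2.2 with hφ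
  have hsub : Sm N z ⊆ {1} ∪ X.image φ := by
    intro m hm
    obtain ⟨⟨h1, h2⟩, h3⟩ := mem_Sm.1 hm
    rw [Finset.mem_union, Finset.mem_singleton]
    rcases Nat.lt_or_ge 1 m with hm1 | hm1
    · right
      have hne : m.primeFactors.Nonempty := Nat.nonempty_primeFactors.2 hm1
      set p := m.primeFactors.max' hne with hp
      have hpm : p ∈ m.primeFactors := Finset.max'_mem _ _
      have hpp := Nat.prime_of_mem_primeFactors hpm
      have hpd := Nat.dvd_of_mem_primeFactors hpm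
      have hm0 : m ≠ 0 := by omega
      set a := m.factorization p with ha
      have ha1 : 1 ≤ a := by
        rw [ha]; exact (hpp.dvd_iff_one_le_factorization hm0).1 hpd
      have hmul : p ^ a * (m / p ^ a) = m := Nat.ordProj_mul_ordCompl_eq_self m p
      have hc0 : 0 < m / p ^ a := Nat.ordCompl_pos p hm0
      rw [Finset.mem_image]
      refine ⟨⟨p, (a, m / p ^ a)⟩, ?_, hmul⟩
      rw [hX, Finset.mem_sigma, Finset.mem_product, Finset.mem_Icc, mem_Sm]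
      have hpa : p ^ a ≤ m := Nat.le_of_dvd (by omega) ⟨m / p ^ a, hmul.symm⟩
      have haN : a < p ^ a := Nat.lt_pow_self hpp.one_lt
      refine ⟨?_, ⟨ha1, ?_⟩, ⟨hc0, ?_⟩, ?_⟩
      · rw [Nat.mem_primesBelow]
        exact ⟨Nat.mem_smoothNumbers'.1 h3 p hpp hpd, hpp⟩
      · change a ≤ N
        omega
      · change m / p ^ a ≤ N
        exact (Nat.div_le_self _ _).trans h2
      · change m / p ^ a ∈ p.smoothNumbers
        rw [Nat.mem_smoothNumbers']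
        intro q hq hqd
        have hqm : q ∣ m := hqd.trans ⟨p ^ a, by rw [mul_comm]; exact hmul.symm⟩
        have hqle : q ≤ p := Finset.le_max' _ _ (Nat.mem_primeFactors.2 ⟨hq, hqm, hm0⟩)
        have hqne : q ≠ p := by
          rintro rfl
          exact Nat.not_dvd_ordCompl hq hm0 hqd
        omega
    · left; omega
  calc ∑ m ∈ Sm N z, G m ≤ ∑ m ∈ {1} ∪ X.image φ, G m :=
        Finset.sum_le_sum_of_subset_of_nonneg hsub (fun _ _ _ => hG _)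
    _ ≤ ∑ m ∈ ({1} : Finset ℕ), G m + ∑ m ∈ X.image φ, G m := by
        have := Finset.sum_union_inter (s₁ := {1}) (s₂ := X.image φ) (f := G)
        have h0 : 0 ≤ ∑ m ∈ {1} ∩ X.image φ, G m := Finset.sum_nonneg (fun _ _ => hG _)
        linarith
    _ ≤ G 1 + ∑ x ∈ X, G (φ x) := by
        rw [Finset.sum_singleton]
        exact add_le_add le_rfl (sum_image_le' X φ G hG)
    _ = _ := by
        rw [hX, Finset.sum_sigma]
        congr 1
        apply Finset.sum_congr rfl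
        intro p _
        rw [Finset.sum_product]

theorem peel3 (N : ℕ) (G : ℕ → ℝ) (hG : ∀ m, 0 ≤ G m) :
    ∑ m ∈ Finset.Icc 1 N, G m ≤ G 1 +
      (∑ p₁ ∈ (N + 1).primesBelow, ∑ a₁ ∈ Finset.Icc 1 N, G (p₁ ^ a₁ * 1)) +
      (∑ p₁ ∈ (N + 1).primesBelow, ∑ a₁ ∈ Finset.Icc 1 N,
        ∑ p₂ ∈ p₁.primesBelow, ∑ a₂ ∈ Finset.Icc 1 N, G (p₁ ^ a₁ * (p₂ ^ a₂ * 1))) +
      (∑ p₁ ∈ (N + 1).primesBelow, ∑ a₁ ∈ Finset.Icc 1 N,
        ∑ p₂ ∈ p₁.primesBelow, ∑ a₂ ∈ Finset.Icc 1 N,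
        ∑ p₃ ∈ p₂.primesBelow, ∑ a₃ ∈ Finset.Icc 1 N, ∑ m ∈ Sm N p₃,
          G (p₁ ^ a₁ * (p₂ ^ a₂ * (p₃ ^ a₃ * m)))) := by
  have h0 : Finset.Icc 1 N = Sm N (N + 1) := by
    ext m
    rw [mem_Sm, Finset.mem_Icc]
    constructor
    · rintro ⟨h1, h2⟩
      refine ⟨⟨h1, h2⟩, ?_⟩
      rw [Nat.mem_smoothNumbers']
      intro p _ hpm
      have := Nat.le_of_dvd (by omega) hpm
      omega
    · exact fun h => h.1
  conv_lhs => rw [h0]
  refine (peel N (N + 1) G hG).trans ?_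
  have h1 : ∀ p₁ ∈ (N + 1).primesBelow, ∀ a₁ ∈ Finset.Icc 1 N,
      ∑ m ∈ Sm N p₁, G (p₁ ^ a₁ * m) ≤ G (p₁ ^ a₁ * 1) +
        (∑ p₂ ∈ p₁.primesBelow, ∑ a₂ ∈ Finset.Icc 1 N, G (p₁ ^ a₁ * (p₂ ^ a₂ * 1)) +
        ∑ p₂ ∈ p₁.primesBelow, ∑ a₂ ∈ Finset.Icc 1 N,
        ∑ p₃ ∈ p₂.primesBelow, ∑ a₃ ∈ Finset.Icc 1 N, ∑ m ∈ Sm N p₃,
          G (p₁ ^ a₁ * (p₂ ^ a₂ * (p₃ ^ a₃ * m)))) := by
    intro p₁ _ a₁ _
    refine (peel N p₁ (fun m => G (p₁ ^ a₁ * m)) (fun _ => hG _)).trans ?_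
    apply add_le_add le_rfl
    rw [← Finset.sum_add_distrib]
    apply Finset.sum_le_sum
    intro p₂ _
    rw [← Finset.sum_add_distrib]
    apply Finset.sum_le_sum
    intro a₂ _
    exact peel N p₂ (fun m => G (p₁ ^ a₁ * (p₂ ^ a₂ * m))) (fun _ => hG _)
  have h2 := Finset.sum_le_sum (fun p₁ hp₁ => Finset.sum_le_sum (h1 p₁ hp₁))
  refine (add_le_add (le_refl (G 1)) h2).trans (le_of_eq ?_)
  simp only [Finset.sum_add_distrib]
  ring

/-- weight of a prime power -/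
noncomputable def E (p a : ℕ) : ℝ := (1 + a) / (p : ℝ) ^ a

theorem E_nonneg (p a : ℕ) : 0 ≤ E p a := by unfold E; positivity

theorem E_sum : ∃ K : ℝ, 1 ≤ K ∧ ∀ (p N : ℕ), p.Prime →
    ∑ a ∈ Finset.Icc 1 N, E p a ≤ K * (1 / p) := by
  have hs : Summable (fun a : ℕ => (2 * (1 + (a : ℝ)) * (1 / 2) ^ a)) := by
    have h1 : Summable (fun a : ℕ => (a : ℝ) ^ 1 * (1 / 2 : ℝ) ^ a) :=
      summable_pow_mul_geometric_of_norm_lt_one 1 (by norm_num)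
    have h2 : Summable (fun a : ℕ => (1 / 2 : ℝ) ^ a) :=
      summable_geometric_of_lt_one (by norm_num) (by norm_num)
    refine ((h1.add h2).mul_left 2).congr ?_
    intro a
    ring
  set K := ∑' a : ℕ, (2 * (1 + (a : ℝ)) * (1 / 2) ^ a) with hK
  have hK0 : 0 ≤ K := tsum_nonneg (fun _ => by positivity)
  refine ⟨K + 1, by linarith, ?_⟩
  intro p N hp
  have hp2 : (2 : ℝ) ≤ p := by exact_mod_cast hp.two_le
  have h1 : ∑ a ∈ Finset.Icc 1 N, E p a ≤ ∑ a ∈ Finset.Icc 1 N,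
      (2 * (1 + (a : ℝ)) * (1 / 2) ^ a) * (1 / p) := by
    apply Finset.sum_le_sum
    intro a ha
    obtain ⟨b, rfl⟩ : ∃ b, a = b + 1 := ⟨a - 1, by have := (Finset.mem_Icc.1 ha).1; omega⟩
    unfold E
    have h2 : (1 : ℝ) / p ^ (b + 1) ≤ 2 * (1 / 2) ^ (b + 1) * (1 / p) := by
      have h3 : (1 : ℝ) / p ^ b ≤ (1 / 2) ^ b := by
        rw [one_div_pow]
        apply one_div_le_one_div_of_le (by positivity)
        exact pow_le_pow_left₀ (by norm_num) hp2 b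
      calc (1 : ℝ) / p ^ (b + 1) = 1 / p * (1 / p ^ b) := by
            rw [pow_succ]; field_simp
        _ ≤ 1 / p * (1 / 2) ^ b := by gcongr
        _ = 2 * (1 / 2) ^ (b + 1) * (1 / p) := by ring
    calc (1 + ((b + 1 : ℕ) : ℝ)) / (p : ℝ) ^ (b + 1)
        = (1 + ((b + 1 : ℕ) : ℝ)) * (1 / (p : ℝ) ^ (b + 1)) := by ring
      _ ≤ (1 + ((b + 1 : ℕ) : ℝ)) * (2 * (1 / 2) ^ (b + 1) * (1 / p)) := by gcongr
      _ = _ := by ring
  refine h1.trans ?_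
  rw [← Finset.sum_mul]
  apply mul_le_mul_of_nonneg_right _ (by positivity)
  have := hs.sum_le_tsum (Finset.Icc 1 N) (fun _ _ => by positivity)
  linarith

end Pool.Agent.KS6_8.LM
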