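import Mathlib
import Pool.Agent.KS6_8.LM.Peel

set_option autoImplicit false

open Finset

namespace Pool.Agent.KS6_8.LM

/-- shorthand for the logarithm of a natural number -/
noncomputable def lg (p : ℕ) : ℝ := Real.log p

open scoped Classical in
/-- indicator of resonance -/
noncomputable def bi (p q : ℕ) : ℝ := if NR p q then 0 else 1

open scoped Classical in
/-- indicator of `lg q ^ 2 ≤ lg p` -/
noncomputable def ch (p q : ℕ) : ℝ := if lg q ^ 2 ≤ lg p then 1 else 0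

theorem bi_nonneg (p q : ℕ) : 0 ≤ bi p q := by unfold bi; split_ifs <;> norm_num
theorem ch_nonneg (p q : ℕ) : 0 ≤ ch p q := by unfold ch; split_ifs <;> norm_num
theorem ch_le (p q : ℕ) : ch p q ≤ 1 := by unfold ch; split_ifs <;> norm_num

noncomputable def T1 (N : ℕ) (Ψ : ℕ → ℝ) : ℝ := ∑ p₁ ∈ N.primesBelow, 1 / (p₁ : ℝ) * Ψ p₁

noncomputable def T2 (N : ℕ) (Ψ : ℕ → ℕ → ℝ) : ℝ :=
  ∑ p₁ ∈ N.primesBelow, ∑ p₂ ∈ p₁.primesBelow, 1 / (p₁ : ℝ) * (1 / p₂) * Ψ p₁ p₂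

noncomputable def T3 (N : ℕ) (Ψ : ℕ → ℕ → ℕ → ℝ) : ℝ :=
  ∑ p₁ ∈ N.primesBelow, ∑ p₂ ∈ p₁.primesBelow, ∑ p₃ ∈ p₂.primesBelow,
    1 / (p₁ : ℝ) * (1 / p₂) * (1 / p₃) * Ψ p₁ p₂ p₃

theorem lgP {p : ℕ} (hp : p.Prime) : 1 / 2 ≤ lg p := log_prime_ge hp

theorem lg_mono {p q : ℕ} (hp : p.Prime) (h : p ≤ q) : lg p ≤ lg q :=
  Real.log_le_log (by exact_mod_cast hp.pos) (by exact_mod_cast h)

theorem mb {p q : ℕ} (h : p ∈ q.primesBelow) : p.Prime ∧ p < q ∧ lg p ≤ lg q := by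
  have h1 := Nat.mem_primesBelow.1 h
  exact ⟨h1.2, h1.1, lg_mono h1.2 h1.1.le⟩

theorem qr_facts {L : ℝ} (hL : 1 / 2 ≤ L) : 1 / 2 ≤ qr L ∧ qr L ≤ 2 * L := by
  have hL0 : 0 < L := by linarith
  have hu := qr_pos hL0
  have h4 := qr_pow hL0.le
  set u := qr L
  constructor
  · by_contra hcon
    push Not at hcon
    have : u ^ 4 ≤ (1 / 2) ^ 4 := pow_le_pow_left₀ hu.le hcon.le 4
    norm_num at this
    linarith
  · rcases le_or_gt u 1 with h | h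
    · linarith
    · have : u ≤ u ^ 4 := le_self_pow₀ h.le (by norm_num)
      linarith

theorem swap12 (N : ℕ) (f : ℕ → ℕ → ℝ) :
    ∑ p₁ ∈ N.primesBelow, ∑ p₂ ∈ p₁.primesBelow, f p₁ p₂ =
    ∑ p₂ ∈ N.primesBelow, ∑ p₁ ∈ N.primesBelow.filter (fun p => p₂ < p), f p₁ p₂ := by
  apply Finset.sum_comm'
  intro q p
  simp only [Finset.mem_filter, Nat.mem_primesBelow]
  constructor
  · rintro ⟨⟨h1, h2⟩, h3, h4⟩
    exact ⟨⟨⟨h1, h2⟩, h3⟩, by omega, h4⟩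
  · rintro ⟨⟨⟨h1, h2⟩, h3⟩, h6, h4⟩
    exact ⟨⟨h1, h2⟩, h3, h4⟩

theorem T1_q : ∃ C : ℝ, 0 ≤ C ∧ ∀ N : ℕ, T1 N (fun p => 1 / qr (lg p)) ≤ C := by
  obtain ⟨C, hC1, hC⟩ := prime_quarter
  refine ⟨C, by linarith, fun N => ?_⟩
  have := hC N.primesBelow (fun p hp => Nat.prime_of_mem_primesBelow hp)
  refine le_trans (le_of_eq ?_) this
  unfold T1 lg
  exact Finset.sum_congr rfl (fun p _ => by ring)

theorem T1_mono {N : ℕ} {Ψ Φ : ℕ → ℝ} {c : ℝ} (h : ∀ p, p.Prime → Ψ p ≤ c * Φ p) :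
    T1 N Ψ ≤ c * T1 N Φ := by
  unfold T1
  rw [Finset.mul_sum]
  apply Finset.sum_le_sum
  intro p hp
  have := h p (Nat.prime_of_mem_primesBelow hp)
  calc 1 / (p : ℝ) * Ψ p ≤ 1 / (p : ℝ) * (c * Φ p) := by gcongr
    _ = _ := by ring

theorem T1_l : ∃ C : ℝ, 0 ≤ C ∧ ∀ N : ℕ, T1 N (fun p => 1 / lg p) ≤ C := by
  obtain ⟨C, hC0, hC⟩ := T1_q
  refine ⟨8 * C, by linarith, fun N => ?_⟩
  refine (T1_mono (c := 8) (Φ := fun p => 1 / qr (lg p)) ?_).trans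
    (mul_le_mul_of_nonneg_left (hC N) (by norm_num))
  intro p hp
  have hL := lgP hp
  obtain ⟨h1, h2⟩ := qr_facts hL
  have h4 := qr_pow (by linarith : 0 ≤ lg p)
  have hu : 0 < qr (lg p) := by linarith
  conv_lhs => rw [← h4]
  rw [mul_one_div, div_le_div_iff₀ (by positivity) hu]
  have h5 : (1 / 2) ^ 3 ≤ qr (lg p) ^ 3 := pow_le_pow_left₀ (by norm_num) h1 3
  calc 1 * qr (lg p) = 8 * (1 / 2) ^ 3 * qr (lg p) := by ring
    _ ≤ 8 * qr (lg p) ^ 3 * qr (lg p) := by gcongr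
    _ = _ := by ring

/-- sum of `1/p` over primes below a prime -/
theorem rec_below : ∃ C : ℝ, 1 ≤ C ∧ ∀ q : ℕ, q.Prime →
    ∑ p ∈ q.primesBelow, (1 : ℝ) / p ≤ C * qr (lg q) := by
  obtain ⟨C, hC1, hC⟩ := prime_recip
  refine ⟨C, hC1, fun q hq => ?_⟩
  exact hC (lg q) _ (by have := lgP hq; linarith) (fun p hp => ⟨(mb hp).1, (mb hp).2.2⟩)

theorem log_below : ∃ C : ℝ, 1 ≤ C ∧ ∀ q : ℕ, q.Prime →
    ∑ p ∈ q.primesBelow, (1 : ℝ) / p * lg p ≤ C * lg q := by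
  obtain ⟨C, hC1, hC⟩ := prime_log
  refine ⟨C, hC1, fun q hq => ?_⟩
  have := hC q q.primesBelow hq.two_le (fun p hp => ⟨(mb hp).1, (mb hp).2.1.le⟩)
  refine le_trans (le_of_eq ?_) this
  unfold lg
  exact Finset.sum_congr rfl (fun p _ => by ring)

theorem T2_l : ∃ C : ℝ, 0 ≤ C ∧ ∀ N : ℕ, T2 N (fun p _ => 1 / lg p) ≤ C := by
  obtain ⟨C, hC0, hC⟩ := T1_q
  obtain ⟨K, hK1, hK⟩ := rec_below
  refine ⟨(4 * K) * C, by positivity, fun N => ?_⟩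
  refine le_trans ?_ ((T1_mono (c := 4 * K) (Ψ := fun p => (1 / lg p) * (K * qr (lg p)))
    (Φ := fun p => 1 / qr (lg p)) ?_).trans (mul_le_mul_of_nonneg_left (hC N) (by positivity)))
  · unfold T2 T1
    apply Finset.sum_le_sum
    intro p hp
    have hpp := (mb hp).1
    have hL := lgP hpp
    have h1 := hK p hpp
    calc ∑ p₂ ∈ p.primesBelow, 1 / (p : ℝ) * (1 / p₂) * (1 / lg p)
        = 1 / (p : ℝ) * (1 / lg p) * ∑ p₂ ∈ p.primesBelow, (1 : ℝ) / p₂ := by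
          rw [Finset.mul_sum]; exact Finset.sum_congr rfl (fun _ _ => by ring)
      _ ≤ 1 / (p : ℝ) * (1 / lg p) * (K * qr (lg p)) := by
          apply mul_le_mul_of_nonneg_left h1
          have : 0 < lg p := by linarith
          positivity
      _ = _ := by ring
  · intro p hp
    have hL := lgP hp
    obtain ⟨h1, h2⟩ := qr_facts hL
    have h4 := qr_pow (by linarith : 0 ≤ lg p)
    have hu : 0 < qr (lg p) := by linarith
    have h5 : 1 / lg p * (K * qr (lg p)) = K * (1 / qr (lg p) ^ 3) := by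
      conv_lhs => rw [← h4]
      conv_lhs => rw [show qr (qr (lg p) ^ 4) = qr (lg p) by rw [h4]]
      field_simp
    rw [h5]
    have h6 : 1 / qr (lg p) ^ 3 ≤ 4 * (1 / qr (lg p)) := by
      rw [mul_one_div, div_le_div_iff₀ (by positivity) hu]
      have h7 : 0 ≤ 4 * qr (lg p) ^ 2 - 1 := by nlinarith
      nlinarith [mul_nonneg hu.le h7]
    calc K * (1 / qr (lg p) ^ 3) ≤ K * (4 * (1 / qr (lg p))) := by gcongr
      _ = _ := by ring

theorem T2_b : ∃ C : ℝ, 0 ≤ C ∧ ∀ N : ℕ, T2 N (fun q p => bi p q * lg q ^ 2) ≤ C := by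
  classical
  obtain ⟨C, hC1, hC⟩ := bad_sum
  refine ⟨C, by linarith, fun N => ?_⟩
  refine le_trans (le_of_eq ?_) (hC N)
  unfold T2
  apply Finset.sum_congr rfl
  intro q _
  rw [Finset.sum_filter]
  apply Finset.sum_congr rfl
  intro p _
  unfold bi lg
  by_cases h : NR p q
  · simp [h]
  · simp [h]

theorem T2_mono {N : ℕ} {Ψ Φ : ℕ → ℕ → ℝ} {c : ℝ}
    (h : ∀ p₁ p₂, p₁.Prime → p₂ ∈ p₁.primesBelow → Ψ p₁ p₂ ≤ c * Φ p₁ p₂) :
    T2 N Ψ ≤ c * T2 N Φ := by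
  unfold T2
  rw [Finset.mul_sum]
  apply Finset.sum_le_sum
  intro p hp
  rw [Finset.mul_sum]
  apply Finset.sum_le_sum
  intro q hq
  have := h p q (Nat.prime_of_mem_primesBelow hp) hq
  calc 1 / (p : ℝ) * (1 / q) * Ψ p q ≤ 1 / (p : ℝ) * (1 / q) * (c * Φ p q) := by gcongr
    _ = _ := by ring

theorem T2_b0 : ∃ C : ℝ, 0 ≤ C ∧ ∀ N : ℕ, T2 N (fun q p => bi p q) ≤ C := by
  obtain ⟨C, hC0, hC⟩ := T2_b
  refine ⟨4 * C, by linarith, fun N => ?_⟩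
  refine (T2_mono (c := 4) ?_).trans (mul_le_mul_of_nonneg_left (hC N) (by norm_num))
  intro q p hq _
  have := lgP hq
  have h2 : 1 ≤ 4 * lg q ^ 2 := by nlinarith
  have := bi_nonneg p q
  nlinarith

theorem T3_1 : ∃ C : ℝ, 0 ≤ C ∧ ∀ N : ℕ, T3 N (fun p₁ p₂ p₃ => bi p₂ p₁ * lg p₃) ≤ C := by
  obtain ⟨C, hC0, hC⟩ := T2_b
  obtain ⟨K, hK1, hK⟩ := log_below
  refine ⟨(2 * K) * C, by positivity, fun N => ?_⟩
  refine le_trans ?_ ((T2_mono (c := 2 * K) (Ψ := fun p₁ p₂ => bi p₂ p₁ * (K * lg p₂)) ?_).trans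
    (mul_le_mul_of_nonneg_left (hC N) (by positivity)))
  · unfold T3 T2
    apply Finset.sum_le_sum
    intro p₁ _
    apply Finset.sum_le_sum
    intro p₂ hp₂
    have h1 := hK p₂ (mb hp₂).1
    have hb := bi_nonneg p₂ p₁
    calc ∑ p₃ ∈ p₂.primesBelow, 1 / (p₁ : ℝ) * (1 / p₂) * (1 / p₃) * (bi p₂ p₁ * lg p₃)
        = 1 / (p₁ : ℝ) * (1 / p₂) * bi p₂ p₁ * ∑ p₃ ∈ p₂.primesBelow, (1 : ℝ) / p₃ * lg p₃ := by
          rw [Finset.mul_sum]; exact Finset.sum_congr rfl (fun _ _ => by ring)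
      _ ≤ 1 / (p₁ : ℝ) * (1 / p₂) * bi p₂ p₁ * (K * lg p₂) := by gcongr
      _ = _ := by ring
  · intro p₁ p₂ hp₁ hp₂
    have h1 := lgP hp₁
    have h2 := (mb hp₂).2.2
    have hb := bi_nonneg p₂ p₁
    have h3 : K * lg p₂ ≤ 2 * K * lg p₁ ^ 2 := by
      have : lg p₂ ≤ 2 * lg p₁ ^ 2 := by nlinarith
      nlinarith
    calc bi p₂ p₁ * (K * lg p₂) ≤ bi p₂ p₁ * (2 * K * lg p₁ ^ 2) := by gcongr
      _ = _ := by ring

theorem T3_2 : ∃ C : ℝ, 0 ≤ C ∧ ∀ N : ℕ, T3 N (fun p₁ _ p₃ => bi p₃ p₁ * lg p₃) ≤ C := by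
  obtain ⟨C, hC0, hC⟩ := T2_b
  obtain ⟨K, hK1, hK⟩ := rec_below
  refine ⟨(2 * K) * C, by positivity, fun N => ?_⟩
  refine le_trans ?_ ((T2_mono (c := 2 * K)
    (Ψ := fun p₁ p₃ => (K * qr (lg p₁)) * (bi p₃ p₁ * lg p₃)) ?_).trans
    (mul_le_mul_of_nonneg_left (hC N) (by positivity)))
  · unfold T3 T2
    apply Finset.sum_le_sum
    intro p₁ hp₁
    have hpp := (mb hp₁).1
    have h1 := hK p₁ hpp
    set Y := ∑ p₃ ∈ p₁.primesBelow, 1 / (p₁ : ℝ) * (1 / p₃) * (bi p₃ p₁ * lg p₃) with hY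
    have hnn : ∀ p₃ ∈ p₁.primesBelow, 0 ≤ 1 / (p₁ : ℝ) * (1 / p₃) * (bi p₃ p₁ * lg p₃) := by
      intro p₃ hp₃
      have := bi_nonneg p₃ p₁
      have := lgP (mb hp₃).1
      have : 0 ≤ lg p₃ := by linarith
      positivity
    have hY0 : 0 ≤ Y := Finset.sum_nonneg hnn
    calc ∑ p₂ ∈ p₁.primesBelow, ∑ p₃ ∈ p₂.primesBelow,
          1 / (p₁ : ℝ) * (1 / p₂) * (1 / p₃) * (bi p₃ p₁ * lg p₃)
        ≤ ∑ p₂ ∈ p₁.primesBelow, 1 / (p₂ : ℝ) * Y := by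
          apply Finset.sum_le_sum
          intro p₂ hp₂
          rw [hY, Finset.mul_sum]
          calc ∑ p₃ ∈ p₂.primesBelow, 1 / (p₁ : ℝ) * (1 / p₂) * (1 / p₃) * (bi p₃ p₁ * lg p₃)
              = ∑ p₃ ∈ p₂.primesBelow, 1 / (p₂ : ℝ) *
                (1 / (p₁ : ℝ) * (1 / p₃) * (bi p₃ p₁ * lg p₃)) :=
                Finset.sum_congr rfl (fun _ _ => by ring)
            _ ≤ _ := by
                apply Finset.sum_le_sum_of_subset_of_nonneg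
                · intro p hp
                  rw [Nat.mem_primesBelow] at hp ⊢
                  have := (mb hp₂).2.1
                  exact ⟨by omega, hp.2⟩
                · intro p hp _
                  have := hnn p hp
                  positivity
      _ = (∑ p₂ ∈ p₁.primesBelow, 1 / (p₂ : ℝ)) * Y := by rw [Finset.sum_mul]
      _ ≤ (K * qr (lg p₁)) * Y := by gcongr
      _ = _ := by
          rw [hY, Finset.mul_sum]
          exact Finset.sum_congr rfl (fun _ _ => by ring)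
  · intro p₁ p₃ hp₁ hp₃
    have h1 := lgP hp₁
    have h2 := (mb hp₃).2.2
    have h2' := lgP (mb hp₃).1
    have hb := bi_nonneg p₃ p₁
    obtain ⟨g1, g2⟩ := qr_facts h1
    have h3 : qr (lg p₁) * lg p₃ ≤ 2 * lg p₁ ^ 2 := by
      calc qr (lg p₁) * lg p₃ ≤ (2 * lg p₁) * lg p₁ := by
            apply mul_le_mul g2 h2 (by linarith) (by linarith)
        _ = _ := by ring
    calc K * qr (lg p₁) * (bi p₃ p₁ * lg p₃) = K * bi p₃ p₁ * (qr (lg p₁) * lg p₃) := by ring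
      _ ≤ K * bi p₃ p₁ * (2 * lg p₁ ^ 2) := by gcongr
      _ = _ := by ring

/-- tail over the largest prime -/
theorem tail_above : ∃ C : ℝ, 1 ≤ C ∧ ∀ (N : ℕ) (Z : ℝ) (P : ℕ → Prop) [DecidablePred P],
    1 / 4 ≤ Z → (∀ p ∈ N.primesBelow, P p → Z ≤ lg p) →
    ∑ p ∈ N.primesBelow.filter P, 1 / (p : ℝ) * (1 / lg p) ≤ C / Z := by
  obtain ⟨C, hC1, hC⟩ := prime_tail
  refine ⟨C, hC1, ?_⟩
  intro N Z P _ hZ hP
  have := hC Z (N.primesBelow.filter P) hZ (by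
    intro p hp
    rw [Finset.mem_filter] at hp
    exact ⟨(mb hp.1).1, hP p hp.1 hp.2⟩)
  refine le_trans (le_of_eq ?_) this
  unfold lg
  exact Finset.sum_congr rfl (fun p _ => by ring)

theorem T3_3 : ∃ C : ℝ, 0 ≤ C ∧ ∀ N : ℕ,
    T3 N (fun p₁ p₂ p₃ => bi p₃ p₂ * (lg p₂ * lg p₃ / lg p₁)) ≤ C := by
  obtain ⟨C, hC0, hC⟩ := T2_b
  obtain ⟨K, hK1, hK⟩ := tail_above
  refine ⟨(2 * K) * C, by positivity, fun N => ?_⟩
  refine le_trans ?_ ((T2_mono (c := 2 * K) (Ψ := fun p₂ p₃ => K * (bi p₃ p₂ * lg p₃)) ?_).trans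
    (mul_le_mul_of_nonneg_left (hC N) (by positivity)))
  · unfold T3 T2
    rw [swap12]
    apply Finset.sum_le_sum
    intro p₂ hp₂
    have hpp := (mb hp₂).1
    have hL := lgP hpp
    have h1 := hK N (lg p₂) (fun p => p₂ < p) (by linarith) (fun p hp hlt => lg_mono hpp hlt.le)
    set Y := ∑ p₃ ∈ p₂.primesBelow, (1 / (p₂ : ℝ)) * (1 / p₃) * (bi p₃ p₂ * lg p₃) * lg p₂ with hY
    have hY0 : 0 ≤ Y := by
      apply Finset.sum_nonneg
      intro p₃ hp₃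
      have := bi_nonneg p₃ p₂
      have := lgP (mb hp₃).1
      have : 0 ≤ lg p₃ := by linarith
      have : 0 ≤ lg p₂ := by linarith
      positivity
    calc ∑ p₁ ∈ N.primesBelow.filter (fun p => p₂ < p), ∑ p₃ ∈ p₂.primesBelow,
          1 / (p₁ : ℝ) * (1 / p₂) * (1 / p₃) * (bi p₃ p₂ * (lg p₂ * lg p₃ / lg p₁))
        = ∑ p₁ ∈ N.primesBelow.filter (fun p => p₂ < p), (1 / (p₁ : ℝ) * (1 / lg p₁)) * Y := by
          apply Finset.sum_congr rfl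
          intro p₁ _
          rw [hY, Finset.mul_sum]
          exact Finset.sum_congr rfl (fun _ _ => by ring)
      _ = (∑ p₁ ∈ N.primesBelow.filter (fun p => p₂ < p), (1 / (p₁ : ℝ) * (1 / lg p₁))) * Y := by
          rw [Finset.sum_mul]
      _ ≤ (K / lg p₂) * Y := by gcongr
      _ = _ := by
          rw [hY, Finset.mul_sum]
          apply Finset.sum_congr rfl
          intro p₃ _
          have : lg p₂ ≠ 0 := by linarith
          field_simp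
  · intro p₂ p₃ hp₂ hp₃
    have h1 := lgP hp₂
    have h2 := (mb hp₃).2.2
    have hb := bi_nonneg p₃ p₂
    have h3 : lg p₃ ≤ 2 * lg p₂ ^ 2 := by nlinarith
    calc K * (bi p₃ p₂ * lg p₃) ≤ K * (bi p₃ p₂ * (2 * lg p₂ ^ 2)) := by gcongr
      _ = _ := by ring

theorem T3_4 : ∃ C : ℝ, 0 ≤ C ∧ ∀ N : ℕ, T3 N (fun p₁ _ _ => 1 / lg p₁) ≤ C := by
  obtain ⟨C, hC0, hC⟩ := T1_q
  obtain ⟨K, hK1, hK⟩ := rec_below
  refine ⟨(2 * K ^ 2) * C, by positivity, fun N => ?_⟩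
  refine le_trans ?_ ((T1_mono (c := 2 * K ^ 2)
    (Ψ := fun p => (1 / lg p) * ((K * qr (lg p)) * (K * qr (lg p))))
    (Φ := fun p => 1 / qr (lg p)) ?_).trans (mul_le_mul_of_nonneg_left (hC N) (by positivity)))
  · unfold T3 T1
    apply Finset.sum_le_sum
    intro p₁ hp₁
    have hpp := (mb hp₁).1
    have hL := lgP hpp
    have hL0 : 0 < lg p₁ := by linarith
    have h1 := hK p₁ hpp
    have h10 : 0 ≤ ∑ p ∈ p₁.primesBelow, (1 : ℝ) / p := Finset.sum_nonneg (fun _ _ => by positivity)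
    calc ∑ p₂ ∈ p₁.primesBelow, ∑ p₃ ∈ p₂.primesBelow,
          1 / (p₁ : ℝ) * (1 / p₂) * (1 / p₃) * (1 / lg p₁)
        ≤ ∑ p₂ ∈ p₁.primesBelow, ∑ p₃ ∈ p₁.primesBelow,
          1 / (p₁ : ℝ) * (1 / p₂) * (1 / p₃) * (1 / lg p₁) := by
          apply Finset.sum_le_sum
          intro p₂ hp₂
          apply Finset.sum_le_sum_of_subset_of_nonneg
          · intro p hp
            rw [Nat.mem_primesBelow] at hp ⊢
            have := (mb hp₂).2.1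
            exact ⟨by omega, hp.2⟩
          · intro p _ _
            positivity
      _ = 1 / (p₁ : ℝ) * (1 / lg p₁ * ((∑ p ∈ p₁.primesBelow, (1 : ℝ) / p) *
            (∑ p ∈ p₁.primesBelow, (1 : ℝ) / p))) := by
          rw [Finset.sum_mul_sum, Finset.mul_sum, Finset.mul_sum]
          apply Finset.sum_congr rfl
          intro p₂ _
          rw [Finset.mul_sum, Finset.mul_sum]
          exact Finset.sum_congr rfl (fun _ _ => by ring)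
      _ ≤ 1 / (p₁ : ℝ) * (1 / lg p₁ * ((K * qr (lg p₁)) * (K * qr (lg p₁)))) := by
          have : 0 ≤ K * qr (lg p₁) := h10.trans h1
          gcongr
  · intro p hp
    have hL := lgP hp
    obtain ⟨h1, h2⟩ := qr_facts hL
    have h4 := qr_pow (by linarith : 0 ≤ lg p)
    have hu : 0 < qr (lg p) := by linarith
    have h5 : 1 / lg p * ((K * qr (lg p)) * (K * qr (lg p))) = K ^ 2 * (1 / qr (lg p) ^ 2) := by
      conv_lhs => rw [← h4]
      conv_lhs => rw [show qr (qr (lg p) ^ 4) = qr (lg p) by rw [h4]]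
      field_simp
    rw [h5]
    have h6 : 1 / qr (lg p) ^ 2 ≤ 2 * (1 / qr (lg p)) := by
      rw [mul_one_div, div_le_div_iff₀ (by positivity) hu]
      nlinarith
    calc K ^ 2 * (1 / qr (lg p) ^ 2) ≤ K ^ 2 * (2 * (1 / qr (lg p))) := by gcongr
      _ = _ := by ring

theorem T3_5 : ∃ C : ℝ, 0 ≤ C ∧ ∀ N : ℕ,
    T3 N (fun p₁ p₂ p₃ => ch p₁ p₂ * (lg p₃ / lg p₁)) ≤ C := by
  classical
  obtain ⟨C, hC0, hC⟩ := T1_l
  obtain ⟨K, hK1, hK⟩ := tail_above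
  obtain ⟨M, hM1, hM⟩ := log_below
  refine ⟨(K * M) * C, by positivity, fun N => ?_⟩
  refine le_trans ?_ (mul_le_mul_of_nonneg_left (hC N) (by positivity : 0 ≤ K * M))
  unfold T3 T1
  rw [swap12, Finset.mul_sum]
  apply Finset.sum_le_sum
  intro p₂ hp₂
  have hpp := (mb hp₂).1
  have hL := lgP hpp
  have hL0 : 0 < lg p₂ := by linarith
  have h1 := hK N (lg p₂ ^ 2) (fun p => p₂ < p ∧ lg p₂ ^ 2 ≤ lg p) (by nlinarith)
    (fun p hp hlt => hlt.2)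
  have h2 := hM p₂ hpp
  set Y := ∑ p₃ ∈ p₂.primesBelow, (1 : ℝ) / p₃ * lg p₃ with hY
  have hY0 : 0 ≤ Y := by
    apply Finset.sum_nonneg
    intro p₃ hp₃
    have := lgP (mb hp₃).1
    have : 0 ≤ lg p₃ := by linarith
    positivity
  have h3 : ∑ p₁ ∈ N.primesBelow.filter (fun p => p₂ < p), ch p₁ p₂ * (1 / (p₁ : ℝ) * (1 / lg p₁)) =
      ∑ p₁ ∈ N.primesBelow.filter (fun p => p₂ < p ∧ lg p₂ ^ 2 ≤ lg p),
        (1 / (p₁ : ℝ) * (1 / lg p₁)) := by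
    rw [← Finset.filter_filter, Finset.sum_filter (fun p => lg p₂ ^ 2 ≤ lg p)]
    apply Finset.sum_congr rfl
    intro p _
    unfold ch
    by_cases h : lg p₂ ^ 2 ≤ lg p
    · simp [h]
    · simp [h]
  calc ∑ p₁ ∈ N.primesBelow.filter (fun p => p₂ < p), ∑ p₃ ∈ p₂.primesBelow,
        1 / (p₁ : ℝ) * (1 / p₂) * (1 / p₃) * (ch p₁ p₂ * (lg p₃ / lg p₁))
      = ∑ p₁ ∈ N.primesBelow.filter (fun p => p₂ < p),
          (ch p₁ p₂ * (1 / (p₁ : ℝ) * (1 / lg p₁))) * (1 / p₂ * Y) := by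
        apply Finset.sum_congr rfl
        intro p₁ _
        rw [hY, Finset.mul_sum, Finset.mul_sum]
        exact Finset.sum_congr rfl (fun _ _ => by ring)
    _ = (∑ p₁ ∈ N.primesBelow.filter (fun p => p₂ < p ∧ lg p₂ ^ 2 ≤ lg p),
        (1 / (p₁ : ℝ) * (1 / lg p₁))) * (1 / p₂ * Y) := by
        rw [← Finset.sum_mul, h3]
    _ ≤ (K / lg p₂ ^ 2) * (1 / p₂ * (M * lg p₂)) := by gcongr
    _ = _ := by field_simp

theorem T3_6 : ∃ C : ℝ, 0 ≤ C ∧ ∀ N : ℕ,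
    T3 N (fun p₁ p₂ _ => (1 - ch p₁ p₂) * (1 / lg p₂)) ≤ C := by
  classical
  obtain ⟨C, hC0, hC⟩ := T1_q
  obtain ⟨K, hK1, hK⟩ := prime_recip
  refine ⟨(K * K) * C, by positivity, fun N => ?_⟩
  refine le_trans ?_ (mul_le_mul_of_nonneg_left (hC N) (by positivity : 0 ≤ K * K))
  unfold T3 T1
  rw [swap12, Finset.mul_sum]
  apply Finset.sum_le_sum
  intro p₂ hp₂
  have hpp := (mb hp₂).1
  have hL := lgP hpp
  have hL0 : 0 < lg p₂ := by linarith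
  have h1 := hK (lg p₂ ^ 2) (N.primesBelow.filter (fun p => p₂ < p ∧ ¬ lg p₂ ^ 2 ≤ lg p))
    (by positivity) (by
      intro p hp
      rw [Finset.mem_filter] at hp
      exact ⟨(mb hp.1).1, (not_le.1 hp.2.2).le⟩)
  have h2 := hK (lg p₂) p₂.primesBelow (by positivity) (fun p hp => ⟨(mb hp).1, (mb hp).2.2⟩)
  have h3 : ∑ p₁ ∈ N.primesBelow.filter (fun p => p₂ < p), (1 - ch p₁ p₂) * (1 / (p₁ : ℝ)) =
      ∑ p₁ ∈ N.primesBelow.filter (fun p => p₂ < p ∧ ¬ lg p₂ ^ 2 ≤ lg p), (1 / (p₁ : ℝ)) := by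
    rw [← Finset.filter_filter, Finset.sum_filter (fun p => ¬ lg p₂ ^ 2 ≤ lg p)]
    apply Finset.sum_congr rfl
    intro p _
    unfold ch
    by_cases h : lg p₂ ^ 2 ≤ lg p
    · simp [h]
    · simp [h]
  obtain ⟨g1, g2⟩ := qr_facts hL
  have h4 := qr_pow hL0.le
  have hu : 0 < qr (lg p₂) := by linarith
  have hsq : qr (lg p₂ ^ 2) = qr (lg p₂) ^ 2 := by
    unfold qr
    rw [← Real.rpow_natCast, ← Real.rpow_natCast, ← Real.rpow_mul hL0.le, ← Real.rpow_mul hL0.le]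
    norm_num
  have h20 : 0 ≤ ∑ p ∈ p₂.primesBelow, (1 : ℝ) / p := Finset.sum_nonneg (fun _ _ => by positivity)
  calc ∑ p₁ ∈ N.primesBelow.filter (fun p => p₂ < p), ∑ p₃ ∈ p₂.primesBelow,
        1 / (p₁ : ℝ) * (1 / p₂) * (1 / p₃) * ((1 - ch p₁ p₂) * (1 / lg p₂))
      = ∑ p₁ ∈ N.primesBelow.filter (fun p => p₂ < p),
          ((1 - ch p₁ p₂) * (1 / (p₁ : ℝ))) *
            (1 / p₂ * (1 / lg p₂) * ∑ p ∈ p₂.primesBelow, (1 : ℝ) / p) := by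
        apply Finset.sum_congr rfl
        intro p₁ _
        rw [Finset.mul_sum, Finset.mul_sum]
        exact Finset.sum_congr rfl (fun _ _ => by ring)
    _ = (∑ p₁ ∈ N.primesBelow.filter (fun p => p₂ < p ∧ ¬ lg p₂ ^ 2 ≤ lg p),
        (1 / (p₁ : ℝ))) * (1 / p₂ * (1 / lg p₂) * ∑ p ∈ p₂.primesBelow, (1 : ℝ) / p) := by
        rw [← Finset.sum_mul, h3]
    _ ≤ (K * qr (lg p₂ ^ 2)) * (1 / p₂ * (1 / lg p₂) * (K * qr (lg p₂))) := by
        have : 0 ≤ K * qr (lg p₂ ^ 2) := by rw [hsq]; positivity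
        gcongr
    _ = K * K * (1 / p₂ * (1 / qr (lg p₂))) := by
        rw [hsq]
        have h5 : 1 / lg p₂ = 1 / qr (lg p₂) ^ 4 := by rw [h4]
        rw [h5]
        field_simp

end Pool.Agent.KS6_8.LM
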