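import Mathlib
import Pool.Agent.KS6_8.LM.Meas
import Pool.Agent.KS6_8.LM.Tri
import Pool.Graph.R_seed8.Helper923.PPS.Crit

set_option autoImplicit false

open Finset

namespace Pool.Agent.KS6_8.LM

open Pool.Agent.Helper923.PPS (pw Iset)

theorem pw_exp {p : ℕ} (hp : p.Prime) {τ : ℝ} (hτ : 0 ≤ τ) :
    (pw p ⌊Real.exp τ⌋₊ : ℝ) = Real.exp τ * Real.exp (-D (lg p) τ) := by
  have hp1 : 1 < p := hp.one_lt
  have hL0 : 0 < lg p := by have := lgP hp; linarith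
  have ht1 : 1 ≤ Real.exp τ := Real.one_le_exp hτ
  have hfl : ⌊Real.exp τ⌋₊ ≠ 0 := by
    have : 1 ≤ ⌊Real.exp τ⌋₊ := by rwa [Nat.one_le_floor_iff]
    omega
  set k := Nat.log p ⌊Real.exp τ⌋₊ with hk
  have h1 : p ^ k ≤ ⌊Real.exp τ⌋₊ := Nat.pow_log_le_self p hfl
  have h2 : ⌊Real.exp τ⌋₊ < p ^ (k + 1) := Nat.lt_pow_succ_log_self hp1 _
  have h3 : ((p ^ k : ℕ) : ℝ) ≤ Real.exp τ := (Nat.le_floor_iff (Real.exp_pos _).le).1 h1
  have h4 : Real.exp τ < ((p ^ (k + 1) : ℕ) : ℝ) := (Nat.floor_lt (Real.exp_pos _).le).1 h2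
  have hp0 : (0 : ℝ) < p := by exact_mod_cast hp.pos
  have h5 : (k : ℝ) * lg p ≤ τ := by
    have := Real.log_le_log (by positivity) h3
    rw [Real.log_exp] at this
    push_cast at this
    rwa [Real.log_pow] at this
  have h6 : τ < ((k : ℝ) + 1) * lg p := by
    have := Real.log_lt_log (Real.exp_pos _) h4
    rw [Real.log_exp] at this
    push_cast at this
    rw [Real.log_pow] at this
    push_cast at this
    exact this
  have h7 : ⌊τ / lg p⌋ = (k : ℤ) := by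
    rw [Int.floor_eq_iff]
    push_cast
    constructor
    · rwa [le_div_iff₀ hL0]
    · rwa [div_lt_iff₀ hL0]
  unfold D pw
  rw [h7, ← Real.exp_add]
  push_cast
  rw [show τ + -(τ - lg p * (k : ℝ)) = (k : ℝ) * lg p by ring, Real.exp_nat_mul]
  unfold lg
  rw [Real.exp_log hp0]

theorem pair_point {m p q : ℕ} {τ : ℝ} (hτ : 0 ≤ τ) (hm : m ≠ 0) (hI : Real.exp τ ∈ Iset m)
    (hp : p.Prime) (hq : q.Prime) (hpq : p ≠ q) (hpm : p ∣ m) (hqm : q ∣ m) {a b : ℕ}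
    (ha : 1 ≤ a) (hb : 1 ≤ b) (hle : (a : ℝ) * lg p + b * lg q ≤ τ) :
    Real.exp (a * lg p + b * lg q - τ) ≤ Real.exp (-D (lg p) τ) + Real.exp (-D (lg q) τ) := by
  obtain ⟨-, hall⟩ := hI
  have hp0 : (0 : ℝ) < p := by exact_mod_cast hp.pos
  have hq0 : (0 : ℝ) < q := by exact_mod_cast hq.pos
  have hpf : (p ^ a * q ^ b).primeFactors = {p, q} := by
    rw [Nat.primeFactors_mul (pow_ne_zero _ hp.ne_zero) (pow_ne_zero _ hq.ne_zero),
      Nat.primeFactors_pow _ (by omega), Nat.primeFactors_pow _ (by omega), hp.primeFactors,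
      hq.primeFactors]
    rfl
  have he2 : 2 ≤ p ^ a * q ^ b := by
    have h1 : 2 ≤ p ^ a := hp.two_le.trans (Nat.le_self_pow (by omega) p)
    have h2 : 1 ≤ q ^ b := Nat.one_le_pow _ _ hq.pos
    nlinarith
  have hlog : ((p ^ a * q ^ b : ℕ) : ℝ) = Real.exp (a * lg p + b * lg q) := by
    push_cast
    rw [Real.exp_add, Real.exp_nat_mul, Real.exp_nat_mul]
    unfold lg
    rw [Real.exp_log hp0, Real.exp_log hq0]
  have h := hall (p ^ a * q ^ b) he2 (by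
    rw [hpf]
    intro x hx
    rw [Finset.mem_insert, Finset.mem_singleton] at hx
    rcases hx with rfl | rfl
    · exact Nat.mem_primeFactors.2 ⟨hp, hpm, hm⟩
    · exact Nat.mem_primeFactors.2 ⟨hq, hqm, hm⟩)
  have h1 := h.1 (by rw [hlog]; exact Real.exp_le_exp.2 hle)
  rw [hpf, Finset.sum_pair hpq, pw_exp hp hτ, pw_exp hq hτ, hlog, ← mul_add] at h1
  rw [Real.exp_sub, div_le_iff₀ (Real.exp_pos τ)]
  linarith

theorem pair_good {m p q : ℕ} {τ : ℝ} (hτ : 0 ≤ τ) (hm : m ≠ 0) (hI : Real.exp τ ∈ Iset m)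
    (hp : p.Prime) (hq : q.Prime) (hpq : p ≠ q) (hpm : p ∣ m) (hqm : q ∣ m) {a b : ℕ}
    (ha : 1 ≤ a) (hb : 1 ≤ b) (hle : (a : ℝ) * lg p + b * lg q ≤ τ)
    (hge : τ - 1 / 2 ≤ a * lg p + b * lg q) : D (lg p) τ ≤ 2 ∨ D (lg q) τ ≤ 2 := by
  have h := pair_point hτ hm hI hp hq hpq hpm hqm ha hb hle
  by_contra hcon
  push Not at hcon
  have h1 : Real.exp (-D (lg p) τ) ≤ Real.exp (-2) := Real.exp_le_exp.2 (by linarith [hcon.1])
  have h2 : Real.exp (-D (lg q) τ) ≤ Real.exp (-2) := Real.exp_le_exp.2 (by linarith [hcon.2])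
  have h3 : Real.exp (-(1 / 2)) ≤ Real.exp (a * lg p + b * lg q - τ) :=
    Real.exp_le_exp.2 (by linarith)
  have h4 : Real.exp (-(1 / 2)) = Real.exp (-2) * Real.exp (3 / 2) := by
    rw [← Real.exp_add]; norm_num
  have h5 : (3 / 2 : ℝ) + 1 ≤ Real.exp (3 / 2) := Real.add_one_le_exp _
  have h6 := Real.exp_pos (-2 : ℝ)
  nlinarith

theorem top_point {p a m : ℕ} {τ : ℝ} (hτ : 0 ≤ τ) (hp : p.Prime) (ha : 1 ≤ a) (hm : 1 ≤ m)
    (hI : Real.exp τ ∈ Iset (p ^ a * m)) : D (lg p) τ ≤ Real.log (2 * (m : ℝ)) := by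
  obtain ⟨-, hall⟩ := hI
  have hp0 : (0 : ℝ) < p := by exact_mod_cast hp.pos
  have hm0 : (0 : ℝ) < m := by exact_mod_cast hm
  have h1 : 2 ≤ p ^ a := hp.two_le.trans (Nat.le_self_pow (by omega) p)
  have h := hall (p ^ a) h1 (by
    rw [Nat.primeFactors_pow _ (by omega), hp.primeFactors]
    intro x hx
    rw [Finset.mem_singleton] at hx
    subst hx
    exact Nat.mem_primeFactors.2 ⟨hp, (dvd_pow_self x (by omega)).mul_right m,
      Nat.mul_ne_zero (pow_ne_zero _ hp.ne_zero) (by omega)⟩)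
  have h2 := h.2 (Nat.le_mul_of_pos_right _ hm)
  rw [Nat.primeFactors_pow _ (by omega), hp.primeFactors, Finset.sum_singleton, pw_exp hp hτ] at h2
  push_cast at h2
  have h3 : (2 : ℝ) ≤ (p : ℝ) ^ a := by exact_mod_cast h1
  have ht := Real.exp_pos τ
  have h4 : (p : ℝ) ^ a - 1 ≤ (p : ℝ) ^ a * m * Real.exp (-D (lg p) τ) := by
    have : Real.exp τ * ((p : ℝ) ^ a - 1) ≤
        Real.exp τ * ((p : ℝ) ^ a * m * Real.exp (-D (lg p) τ)) := by linarith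
    exact le_of_mul_le_mul_left this ht
  have h5 : 1 ≤ 2 * (m : ℝ) * Real.exp (-D (lg p) τ) := by
    have h6 : (p : ℝ) ^ a * 1 ≤ (p : ℝ) ^ a * (2 * (m : ℝ) * Real.exp (-D (lg p) τ)) := by
      linarith
    exact le_of_mul_le_mul_left h6 (by linarith)
  rw [Real.le_log_iff_exp_le (by positivity)]
  rw [Real.exp_neg] at h5
  have h6 := Real.exp_pos (D (lg p) τ)
  rwa [← div_eq_mul_inv, le_div_iff₀ h6, one_mul] at h5

end Pool.Agent.KS6_8.LM
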