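import Mathlib
import Pool.Agent.KS6_8.LM.Tri

set_option autoImplicit false

open Finset

namespace Pool.Agent.KS6_8.LM

/-- the hypotheses on the weight -/
structure WH (C0 : ℝ) (w : ℕ → ℝ) : Prop where
  nonneg : ∀ m, 0 ≤ w m
  le_one : ∀ m, w m ≤ 1
  h1 : ∀ p a m : ℕ, p.Prime → 1 ≤ a → 1 ≤ m →
    w (p ^ a * m) ≤ C0 * (Real.log (2 * (m : ℝ)) / lg p)
  h2 : ∀ q p a b : ℕ, q.Prime → p ∈ q.primesBelow → NR p q → 1 ≤ a → 1 ≤ b →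
    w (q ^ a * (p ^ b * 1)) ≤
      C0 * (1 / lg q + Real.log (2 * ((p ^ b * 1 : ℕ) : ℝ)) / (lg q * lg p))
  h3 : ∀ p₁ p₂ p₃ a₁ a₂ a₃ m : ℕ, p₁.Prime → p₂ ∈ p₁.primesBelow → p₃ ∈ p₂.primesBelow →
    NR p₂ p₁ → NR p₃ p₁ → NR p₃ p₂ → 1 ≤ a₁ → 1 ≤ a₂ → 1 ≤ a₃ → 1 ≤ m →
    w (p₁ ^ a₁ * (p₂ ^ a₂ * (p₃ ^ a₃ * m))) ≤
      C0 * (1 / (lg p₁ * lg p₃) + 1 / (lg p₂ * lg p₃))
  h4 : ∀ p₁ p₂ p₃ a₁ a₂ a₃ m : ℕ, p₁.Prime → p₂ ∈ p₁.primesBelow → p₃ ∈ p₂.primesBelow →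
    NR p₂ p₁ → NR p₃ p₁ → NR p₃ p₂ → 1 ≤ a₁ → 1 ≤ a₂ → 1 ≤ a₃ → 1 ≤ m →
    w (p₁ ^ a₁ * (p₂ ^ a₂ * (p₃ ^ a₃ * m))) ≤
      C0 * (1 / (lg p₁ * lg p₃) +
        Real.log (2 * ((p₂ ^ a₂ * (p₃ ^ a₃ * m) : ℕ) : ℝ)) / (lg p₁ * lg p₂))

theorem nestE {K : ℝ} (hE : ∀ (p N : ℕ), p.Prime → ∑ a ∈ Finset.Icc 1 N, E p a ≤ K * (1 / p))
    {p N : ℕ} (hp : p.Prime) {Y : ℝ} (hY : 0 ≤ Y) :
    ∑ a ∈ Finset.Icc 1 N, E p a * Y ≤ K * (1 / p) * Y := by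
  rw [← Finset.sum_mul]
  exact mul_le_mul_of_nonneg_right (hE p N hp) hY

theorem nest1 {K : ℝ} (hE : ∀ (p N : ℕ), p.Prime → ∑ a ∈ Finset.Icc 1 N, E p a ≤ K * (1 / p))
    (M N : ℕ) (X : ℕ → ℝ) (hX : ∀ p ∈ M.primesBelow, 0 ≤ X p) :
    ∑ p₁ ∈ M.primesBelow, ∑ a₁ ∈ Finset.Icc 1 N, E p₁ a₁ * X p₁ ≤ K * T1 M X := by
  unfold T1
  rw [Finset.mul_sum]
  apply Finset.sum_le_sum
  intro p hp
  exact (nestE hE (mb hp).1 (hX p hp)).trans (le_of_eq (by ring))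

theorem nest2 {K : ℝ} (hK : 0 ≤ K)
    (hE : ∀ (p N : ℕ), p.Prime → ∑ a ∈ Finset.Icc 1 N, E p a ≤ K * (1 / p))
    (M N : ℕ) (X : ℕ → ℕ → ℝ) (hX : ∀ p ∈ M.primesBelow, ∀ q ∈ p.primesBelow, 0 ≤ X p q) :
    ∑ p₁ ∈ M.primesBelow, ∑ a₁ ∈ Finset.Icc 1 N, ∑ p₂ ∈ p₁.primesBelow, ∑ a₂ ∈ Finset.Icc 1 N,
      E p₁ a₁ * (E p₂ a₂ * X p₁ p₂) ≤ K ^ 2 * T2 M X := by
  unfold T2
  rw [Finset.mul_sum]
  apply Finset.sum_le_sum
  intro p₁ hp₁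
  simp only [← Finset.mul_sum]
  have h0 : 0 ≤ ∑ p₂ ∈ p₁.primesBelow, ∑ a₂ ∈ Finset.Icc 1 N, E p₂ a₂ * X p₁ p₂ :=
    Finset.sum_nonneg (fun p₂ hp₂ => Finset.sum_nonneg (fun a₂ _ =>
      mul_nonneg (E_nonneg _ _) (hX p₁ hp₁ p₂ hp₂)))
  refine (nestE hE (mb hp₁).1 h0).trans ?_
  calc K * (1 / (p₁ : ℝ)) * ∑ p₂ ∈ p₁.primesBelow, ∑ a₂ ∈ Finset.Icc 1 N, E p₂ a₂ * X p₁ p₂
      ≤ K * (1 / (p₁ : ℝ)) * ∑ p₂ ∈ p₁.primesBelow, K * (1 / (p₂ : ℝ)) * X p₁ p₂ := by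
        apply mul_le_mul_of_nonneg_left _ (by positivity)
        exact Finset.sum_le_sum (fun p₂ hp₂ => nestE hE (mb hp₂).1 (hX p₁ hp₁ p₂ hp₂))
    _ = _ := by
        rw [Finset.mul_sum, Finset.mul_sum]
        exact Finset.sum_congr rfl (fun _ _ => by ring)

theorem nest3 {K : ℝ} (hK : 0 ≤ K)
    (hE : ∀ (p N : ℕ), p.Prime → ∑ a ∈ Finset.Icc 1 N, E p a ≤ K * (1 / p))
    (M N : ℕ) (X : ℕ → ℕ → ℕ → ℝ)
    (hX : ∀ p ∈ M.primesBelow, ∀ q ∈ p.primesBelow, ∀ r ∈ q.primesBelow, 0 ≤ X p q r) :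
    ∑ p₁ ∈ M.primesBelow, ∑ a₁ ∈ Finset.Icc 1 N, ∑ p₂ ∈ p₁.primesBelow, ∑ a₂ ∈ Finset.Icc 1 N,
      ∑ p₃ ∈ p₂.primesBelow, ∑ a₃ ∈ Finset.Icc 1 N,
      E p₁ a₁ * (E p₂ a₂ * (E p₃ a₃ * X p₁ p₂ p₃)) ≤ K ^ 3 * T3 M X := by
  have h := nest2 hK hE M N (fun p₁ p₂ => ∑ p₃ ∈ p₂.primesBelow, ∑ a₃ ∈ Finset.Icc 1 N,
    E p₃ a₃ * X p₁ p₂ p₃) (fun p₁ hp₁ p₂ hp₂ => Finset.sum_nonneg (fun p₃ hp₃ =>
      Finset.sum_nonneg (fun a₃ _ => mul_nonneg (E_nonneg _ _) (hX p₁ hp₁ p₂ hp₂ p₃ hp₃))))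
  simp only [Finset.mul_sum] at h
  refine h.trans ?_
  unfold T2 T3
  rw [Finset.mul_sum, Finset.mul_sum]
  apply Finset.sum_le_sum
  intro p₁ hp₁
  rw [Finset.mul_sum, Finset.mul_sum]
  apply Finset.sum_le_sum
  intro p₂ hp₂
  simp only [← Finset.mul_sum]
  calc K ^ 2 * (1 / (p₁ : ℝ) * (1 / p₂) * ∑ p₃ ∈ p₂.primesBelow, ∑ a₃ ∈ Finset.Icc 1 N,
        E p₃ a₃ * X p₁ p₂ p₃)
      ≤ K ^ 2 * (1 / (p₁ : ℝ) * (1 / p₂) * ∑ p₃ ∈ p₂.primesBelow, K * (1 / (p₃ : ℝ)) *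
        X p₁ p₂ p₃) := by
        apply mul_le_mul_of_nonneg_left _ (by positivity)
        apply mul_le_mul_of_nonneg_left _ (by positivity)
        exact Finset.sum_le_sum (fun p₃ hp₃ => nestE hE (mb hp₃).1 (hX p₁ hp₁ p₂ hp₂ p₃ hp₃))
    _ = _ := by
        rw [Finset.mul_sum, Finset.mul_sum, Finset.mul_sum]
        exact Finset.sum_congr rfl (fun _ _ => by ring)

/-- the majorant in the triple range -/
noncomputable def Ph (C0 : ℝ) (p₁ p₂ p₃ : ℕ) (u : ℝ) : ℝ :=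
  bi p₂ p₁ + bi p₃ p₁ + C0 * (bi p₃ p₂ * ((lg p₂ + u) / lg p₁)) + C0 * (1 / (lg p₁ * lg p₃)) +
    C0 * (ch p₁ p₂ * ((lg p₂ + u) / (lg p₁ * lg p₂))) +
    C0 * ((1 - ch p₁ p₂) * (1 / (lg p₂ * lg p₃)))

noncomputable def Ps (C0 : ℝ) (p₁ p₂ p₃ : ℕ) : ℝ :=
  bi p₂ p₁ * lg p₃ + bi p₃ p₁ * lg p₃ + C0 * (bi p₃ p₂ * (lg p₂ * lg p₃ / lg p₁)) +
    C0 * (1 / lg p₁) + C0 * (ch p₁ p₂ * (lg p₃ / lg p₁)) + C0 * ((1 - ch p₁ p₂) * (1 / lg p₂))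

theorem log_two_le_lg {p : ℕ} (hp : p.Prime) : Real.log 2 ≤ lg p :=
  Real.log_le_log (by norm_num) (by exact_mod_cast hp.two_le)

theorem w_le_Ph {C0 : ℝ} (hC0 : 0 ≤ C0) {w : ℕ → ℝ} (hw : WH C0 w) {p₁ p₂ p₃ a₁ a₂ a₃ m : ℕ}
    (hp₁ : p₁.Prime) (hp₂ : p₂ ∈ p₁.primesBelow) (hp₃ : p₃ ∈ p₂.primesBelow)
    (ha₁ : 1 ≤ a₁) (ha₂ : 1 ≤ a₂) (ha₃ : 1 ≤ a₃) (hm : 1 ≤ m) :
    w (p₁ ^ a₁ * (p₂ ^ a₂ * (p₃ ^ a₃ * m))) ≤
      (1 + a₂) * ((1 + a₃) * Ph C0 p₁ p₂ p₃ (Real.log m)) := by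
  obtain ⟨hp₂', -, hl21⟩ := mb hp₂
  obtain ⟨hp₃', -, hl32⟩ := mb hp₃
  have L1 := lgP hp₁
  have L2 := lgP hp₂'
  have L3 := lgP hp₃'
  have hL1 : 0 < lg p₁ := by linarith
  have hL2 : 0 < lg p₂ := by linarith
  have hL3 : 0 < lg p₃ := by linarith
  have hlm : 0 ≤ Real.log m := Real.log_natCast_nonneg m
  have hb1 := bi_nonneg p₂ p₁
  have hb2 := bi_nonneg p₃ p₁
  have hb3 := bi_nonneg p₃ p₂
  have hc0 := ch_nonneg p₁ p₂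
  have hc1 := ch_le p₁ p₂
  have hc2 : 0 ≤ 1 - ch p₁ p₂ := by linarith
  have ha₂' : (0 : ℝ) ≤ a₂ := Nat.cast_nonneg _
  have ha₃' : (0 : ℝ) ≤ a₃ := Nat.cast_nonneg _
  set A : ℝ := (1 + a₂) * (1 + a₃) with hA
  have hA1 : 1 ≤ A := by rw [hA]; nlinarith
  have hgoal : (1 + (a₂ : ℝ)) * ((1 + a₃) * Ph C0 p₁ p₂ p₃ (Real.log m)) =
      A * Ph C0 p₁ p₂ p₃ (Real.log m) := by rw [hA]; ring
  rw [hgoal]
  have hm0 : (0 : ℝ) < m := by exact_mod_cast hm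
  have hp20 : (0 : ℝ) < p₂ := by exact_mod_cast hp₂'.pos
  have hp30 : (0 : ℝ) < p₃ := by exact_mod_cast hp₃'.pos
  have hlog : Real.log (2 * ((p₂ ^ a₂ * (p₃ ^ a₃ * m) : ℕ) : ℝ)) ≤ A * (lg p₂ + Real.log m) := by
    push_cast
    rw [Real.log_mul (by norm_num) (by positivity), Real.log_mul (by positivity) (by positivity),
      Real.log_mul (by positivity) (by positivity), Real.log_pow, Real.log_pow]
    have e2 := log_two_le_lg hp₂'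
    change Real.log 2 + (a₂ * lg p₂ + (a₃ * lg p₃ + Real.log m)) ≤ _
    have e3 : a₃ * lg p₃ ≤ a₃ * lg p₂ := mul_le_mul_of_nonneg_left hl32 ha₃'
    have e4 : 0 ≤ (a₂ : ℝ) * a₃ * lg p₂ := by positivity
    have e5 : Real.log m ≤ A * Real.log m := by nlinarith
    rw [hA] at e5 ⊢
    nlinarith
  have hPh0 : 0 ≤ Ph C0 p₁ p₂ p₃ (Real.log m) := by
    unfold Ph
    positivity
  by_cases n21 : NR p₂ p₁
  swap
  · have h1 : (1 : ℝ) ≤ Ph C0 p₁ p₂ p₃ (Real.log m) := by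
      have e1 : bi p₂ p₁ = 1 := by unfold bi; simp [n21]
      unfold Ph
      rw [e1]
      have : 0 ≤ bi p₃ p₁ + C0 * (bi p₃ p₂ * ((lg p₂ + Real.log m) / lg p₁)) +
        C0 * (1 / (lg p₁ * lg p₃)) +
        C0 * (ch p₁ p₂ * ((lg p₂ + Real.log m) / (lg p₁ * lg p₂))) +
        C0 * ((1 - ch p₁ p₂) * (1 / (lg p₂ * lg p₃))) := by positivity
      linarith
    have := hw.le_one (p₁ ^ a₁ * (p₂ ^ a₂ * (p₃ ^ a₃ * m)))
    nlinarith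
  by_cases n31 : NR p₃ p₁
  swap
  · have h1 : (1 : ℝ) ≤ Ph C0 p₁ p₂ p₃ (Real.log m) := by
      have e1 : bi p₃ p₁ = 1 := by unfold bi; simp [n31]
      unfold Ph
      rw [e1]
      have : 0 ≤ bi p₂ p₁ + C0 * (bi p₃ p₂ * ((lg p₂ + Real.log m) / lg p₁)) +
        C0 * (1 / (lg p₁ * lg p₃)) +
        C0 * (ch p₁ p₂ * ((lg p₂ + Real.log m) / (lg p₁ * lg p₂))) +
        C0 * ((1 - ch p₁ p₂) * (1 / (lg p₂ * lg p₃))) := by positivity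
      linarith
    have := hw.le_one (p₁ ^ a₁ * (p₂ ^ a₂ * (p₃ ^ a₃ * m)))
    nlinarith
  by_cases n32 : NR p₃ p₂
  swap
  · have e1 : bi p₃ p₂ = 1 := by unfold bi; simp [n32]
    have h1 := hw.h1 p₁ a₁ (p₂ ^ a₂ * (p₃ ^ a₃ * m)) hp₁ ha₁
      (Nat.mul_pos (pow_pos hp₂'.pos _) (Nat.mul_pos (pow_pos hp₃'.pos _) hm))
    refine h1.trans ?_
    calc C0 * (Real.log (2 * ((p₂ ^ a₂ * (p₃ ^ a₃ * m) : ℕ) : ℝ)) / lg p₁)
        ≤ C0 * (A * (lg p₂ + Real.log m) / lg p₁) := by gcongr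
      _ = A * (C0 * (1 * ((lg p₂ + Real.log m) / lg p₁))) := by ring
      _ ≤ A * Ph C0 p₁ p₂ p₃ (Real.log m) := by
          apply mul_le_mul_of_nonneg_left _ (by linarith)
          unfold Ph
          rw [e1]
          have : 0 ≤ bi p₂ p₁ + bi p₃ p₁ +
            C0 * (1 / (lg p₁ * lg p₃)) +
            C0 * (ch p₁ p₂ * ((lg p₂ + Real.log m) / (lg p₁ * lg p₂))) +
            C0 * ((1 - ch p₁ p₂) * (1 / (lg p₂ * lg p₃))) := by positivity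
          linarith
  by_cases hch : lg p₂ ^ 2 ≤ lg p₁
  · have e1 : ch p₁ p₂ = 1 := by unfold ch; simp [hch]
    refine (hw.h4 p₁ p₂ p₃ a₁ a₂ a₃ m hp₁ hp₂ hp₃ n21 n31 n32 ha₁ ha₂ ha₃ hm).trans ?_
    calc C0 * (1 / (lg p₁ * lg p₃) +
          Real.log (2 * ((p₂ ^ a₂ * (p₃ ^ a₃ * m) : ℕ) : ℝ)) / (lg p₁ * lg p₂))
        ≤ C0 * (A * (1 / (lg p₁ * lg p₃)) + A * (lg p₂ + Real.log m) / (lg p₁ * lg p₂)) := by
          have : 1 / (lg p₁ * lg p₃) ≤ A * (1 / (lg p₁ * lg p₃)) :=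
            le_mul_of_one_le_left (by positivity) hA1
          gcongr
      _ = A * (C0 * (1 / (lg p₁ * lg p₃)) +
          C0 * (1 * ((lg p₂ + Real.log m) / (lg p₁ * lg p₂)))) := by ring
      _ ≤ A * Ph C0 p₁ p₂ p₃ (Real.log m) := by
          apply mul_le_mul_of_nonneg_left _ (by linarith)
          unfold Ph
          rw [e1]
          have : 0 ≤ bi p₂ p₁ + bi p₃ p₁ +
            C0 * (bi p₃ p₂ * ((lg p₂ + Real.log m) / lg p₁)) := by positivity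
          linarith
  · have e1 : ch p₁ p₂ = 0 := by unfold ch; simp [hch]
    refine (hw.h3 p₁ p₂ p₃ a₁ a₂ a₃ m hp₁ hp₂ hp₃ n21 n31 n32 ha₁ ha₂ ha₃ hm).trans ?_
    have h5 : C0 * (1 / (lg p₁ * lg p₃) + 1 / (lg p₂ * lg p₃)) ≤ Ph C0 p₁ p₂ p₃ (Real.log m) := by
      unfold Ph
      rw [e1]
      have : 0 ≤ bi p₂ p₁ + bi p₃ p₁ +
        C0 * (bi p₃ p₂ * ((lg p₂ + Real.log m) / lg p₁)) := by positivity
      linarith
    nlinarith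

theorem Ph_sum {C0 K0 K1 : ℝ} (hC0 : 0 ≤ C0) (hK0 : 0 ≤ K0) (hK1 : 0 ≤ K1) {p₁ p₂ p₃ : ℕ}
    (hp₁ : p₁.Prime) (hp₂ : p₂ ∈ p₁.primesBelow) (hp₃ : p₃ ∈ p₂.primesBelow)
    {S : Finset ℕ} (h0 : ∑ m ∈ S, (1 : ℝ) / m ≤ K0 * lg p₃)
    (h1 : ∑ m ∈ S, Real.log m / m ≤ K1 * (lg p₃ * lg p₃)) :
    ∑ m ∈ S, Ph C0 p₁ p₂ p₃ (Real.log m) / m ≤ (K0 + K1) * Ps C0 p₁ p₂ p₃ := by
  obtain ⟨hp₂', -, hl21⟩ := mb hp₂
  obtain ⟨hp₃', -, hl32⟩ := mb hp₃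
  have L1 := lgP hp₁
  have L2 := lgP hp₂'
  have L3 := lgP hp₃'
  have hL1 : 0 < lg p₁ := by linarith
  have hL2 : 0 < lg p₂ := by linarith
  have hL3 : 0 < lg p₃ := by linarith
  have hb1 := bi_nonneg p₂ p₁
  have hb2 := bi_nonneg p₃ p₁
  have hb3 := bi_nonneg p₃ p₂
  have hc0 := ch_nonneg p₁ p₂
  have hc1 := ch_le p₁ p₂
  have hc2 : 0 ≤ 1 - ch p₁ p₂ := by linarith
  set α : ℝ := bi p₂ p₁ + bi p₃ p₁ + C0 * (1 / (lg p₁ * lg p₃)) +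
    C0 * ((1 - ch p₁ p₂) * (1 / (lg p₂ * lg p₃))) with hα
  set β : ℝ := C0 * (bi p₃ p₂ * (1 / lg p₁)) + C0 * (ch p₁ p₂ * (1 / (lg p₁ * lg p₂))) with hβ
  have hα0 : 0 ≤ α := by rw [hα]; positivity
  have hβ0 : 0 ≤ β := by rw [hβ]; positivity
  have e1 : ∀ m : ℕ, Ph C0 p₁ p₂ p₃ (Real.log m) / m =
      α * (1 / m) + β * (lg p₂ * (1 / m) + Real.log m / m) := by
    intro m
    unfold Ph
    rw [hα, hβ]
    ring
  rw [Finset.sum_congr rfl (fun m _ => e1 m), Finset.sum_add_distrib, ← Finset.mul_sum,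
    ← Finset.mul_sum, Finset.sum_add_distrib, ← Finset.mul_sum]
  have e2 : lg p₂ * ∑ m ∈ S, (1 : ℝ) / m + ∑ m ∈ S, Real.log m / m ≤
      (K0 + K1) * (lg p₂ * lg p₃) := by
    have : lg p₂ * ∑ m ∈ S, (1 : ℝ) / m ≤ lg p₂ * (K0 * lg p₃) := by gcongr
    have : K1 * (lg p₃ * lg p₃) ≤ K1 * (lg p₂ * lg p₃) := by gcongr
    linarith
  have e3 : ∑ m ∈ S, (1 : ℝ) / m ≤ (K0 + K1) * lg p₃ := by nlinarith
  calc α * ∑ m ∈ S, (1 : ℝ) / m + β * (lg p₂ * ∑ m ∈ S, (1 : ℝ) / m + ∑ m ∈ S, Real.log m / m)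
      ≤ α * ((K0 + K1) * lg p₃) + β * ((K0 + K1) * (lg p₂ * lg p₃)) := by gcongr
    _ = (K0 + K1) * Ps C0 p₁ p₂ p₃ := by
      unfold Ps
      rw [hα, hβ]
      field_simp
      ring

theorem sum_main (C0 : ℝ) (hC0 : 0 ≤ C0) : ∃ C : ℝ, 0 ≤ C ∧ ∀ w : ℕ → ℝ, WH C0 w →
    ∀ N : ℕ, ∑ m ∈ Finset.Icc 1 N, w m / m ≤ C := by
  obtain ⟨K, hK1, hE⟩ := E_sum
  have hK0 : 0 ≤ K := by linarith
  obtain ⟨K0, hK01, hS0⟩ := smooth0
  obtain ⟨K1, hK11, hS1⟩ := smooth1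
  obtain ⟨c1, hc1, H1⟩ := T1_l
  obtain ⟨c2, hc2, H2⟩ := T2_l
  obtain ⟨c3, hc3, H3⟩ := T2_b0
  obtain ⟨d1, hd1, D1⟩ := T3_1
  obtain ⟨d2, hd2, D2⟩ := T3_2
  obtain ⟨d3, hd3, D3⟩ := T3_3
  obtain ⟨d4, hd4, D4⟩ := T3_4
  obtain ⟨d5, hd5, D5⟩ := T3_5
  obtain ⟨d6, hd6, D6⟩ := T3_6
  refine ⟨1 + K * (C0 * c1) + K ^ 2 * (c3 + 2 * C0 * c2) +
    K ^ 3 * ((K0 + K1) * (d1 + d2 + C0 * d3 + C0 * d4 + C0 * d5 + C0 * d6)), by positivity, ?_⟩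
  intro w hw N
  have hG : ∀ m : ℕ, 0 ≤ w m / m := fun m => div_nonneg (hw.nonneg m) (Nat.cast_nonneg _)
  refine (peel3 N (fun m => w m / m) hG).trans ?_
  have p0 : w 1 / ((1 : ℕ) : ℝ) ≤ 1 := by
    rw [Nat.cast_one, div_one]; exact hw.le_one 1
  -- one prime
  have p1 : ∑ p₁ ∈ (N + 1).primesBelow, ∑ a₁ ∈ Finset.Icc 1 N,
      w (p₁ ^ a₁ * 1) / ((p₁ ^ a₁ * 1 : ℕ) : ℝ) ≤ K * (C0 * c1) := by
    have h1 : ∑ p₁ ∈ (N + 1).primesBelow, ∑ a₁ ∈ Finset.Icc 1 N,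
        w (p₁ ^ a₁ * 1) / ((p₁ ^ a₁ * 1 : ℕ) : ℝ) ≤
        ∑ p₁ ∈ (N + 1).primesBelow, ∑ a₁ ∈ Finset.Icc 1 N, E p₁ a₁ * (C0 * (1 / lg p₁)) := by
      apply Finset.sum_le_sum
      intro p hp
      apply Finset.sum_le_sum
      intro a ha
      have ha1 := (Finset.mem_Icc.1 ha).1
      have hpp := (mb hp).1
      have hL := lgP hpp
      have hL0 : 0 < lg p := by linarith
      have h2 := hw.h1 p a 1 hpp ha1 le_rfl
      have hl2 : Real.log 2 ≤ 1 := by have := Real.log_two_lt_d9; linarith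
      have h3 : w (p ^ a * 1) ≤ C0 * (1 / lg p) := by
        refine h2.trans ?_
        rw [Nat.cast_one, mul_one]
        gcongr
      have hp0 : (0 : ℝ) < p := by exact_mod_cast hpp.pos
      have h4 : (1 : ℝ) / ((p ^ a * 1 : ℕ) : ℝ) ≤ E p a := by
        unfold E
        push_cast
        rw [mul_one]
        gcongr
        have : (0 : ℝ) ≤ a := Nat.cast_nonneg _
        linarith
      calc w (p ^ a * 1) / ((p ^ a * 1 : ℕ) : ℝ) = (1 / ((p ^ a * 1 : ℕ) : ℝ)) * w (p ^ a * 1) := by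
            ring
        _ ≤ E p a * (C0 * (1 / lg p)) :=
            mul_le_mul h4 h3 (hw.nonneg _) (E_nonneg _ _)
    refine h1.trans ((nest1 hE (N + 1) N (fun p => C0 * (1 / lg p)) ?_).trans ?_)
    · intro p hp
      have := lgP (mb hp).1
      have : 0 < lg p := by linarith
      positivity
    · apply mul_le_mul_of_nonneg_left _ hK0
      exact (T1_mono (c := C0) (Φ := fun p => 1 / lg p) (fun p _ => le_rfl)).trans
        (mul_le_mul_of_nonneg_left (H1 _) hC0)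
  -- two primes
  have p2 : ∑ p₁ ∈ (N + 1).primesBelow, ∑ a₁ ∈ Finset.Icc 1 N,
      ∑ p₂ ∈ p₁.primesBelow, ∑ a₂ ∈ Finset.Icc 1 N,
      w (p₁ ^ a₁ * (p₂ ^ a₂ * 1)) / ((p₁ ^ a₁ * (p₂ ^ a₂ * 1) : ℕ) : ℝ) ≤
      K ^ 2 * (c3 + 2 * C0 * c2) := by
    have h1 : ∑ p₁ ∈ (N + 1).primesBelow, ∑ a₁ ∈ Finset.Icc 1 N,
        ∑ p₂ ∈ p₁.primesBelow, ∑ a₂ ∈ Finset.Icc 1 N,
        w (p₁ ^ a₁ * (p₂ ^ a₂ * 1)) / ((p₁ ^ a₁ * (p₂ ^ a₂ * 1) : ℕ) : ℝ) ≤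
        ∑ p₁ ∈ (N + 1).primesBelow, ∑ a₁ ∈ Finset.Icc 1 N,
        ∑ p₂ ∈ p₁.primesBelow, ∑ a₂ ∈ Finset.Icc 1 N,
        E p₁ a₁ * (E p₂ a₂ * (bi p₂ p₁ + 2 * C0 * (1 / lg p₁))) := by
      apply Finset.sum_le_sum
      intro p₁ hp₁
      apply Finset.sum_le_sum
      intro a₁ ha₁
      apply Finset.sum_le_sum
      intro p₂ hp₂
      apply Finset.sum_le_sum
      intro a₂ ha₂
      have hpp := (mb hp₁).1
      have hpp₂ := (mb hp₂).1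
      have ha₁' := (Finset.mem_Icc.1 ha₁).1
      have ha₂' := (Finset.mem_Icc.1 ha₂).1
      have hL := lgP hpp
      have hL0 : 0 < lg p₁ := by linarith
      have hL2 := lgP hpp₂
      have hL20 : 0 < lg p₂ := by linarith
      have hb := bi_nonneg p₂ p₁
      have hA : (0 : ℝ) ≤ a₂ := Nat.cast_nonneg _
      have h10 : (0 : ℝ) < p₁ := by exact_mod_cast hpp.pos
      have h20 : (0 : ℝ) < p₂ := by exact_mod_cast hpp₂.pos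
      have hmain : w (p₁ ^ a₁ * (p₂ ^ a₂ * 1)) ≤
          (1 + a₂) * (bi p₂ p₁ + 2 * C0 * (1 / lg p₁)) := by
        by_cases hn : NR p₂ p₁
        · refine (hw.h2 p₁ p₂ a₁ a₂ hpp hp₂ hn ha₁' ha₂').trans ?_
          have hlog : Real.log (2 * ((p₂ ^ a₂ * 1 : ℕ) : ℝ)) ≤ (1 + a₂) * lg p₂ := by
            push_cast
            rw [mul_one, Real.log_mul (by norm_num) (by positivity), Real.log_pow]
            have := log_two_le_lg hpp₂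
            change Real.log 2 + a₂ * lg p₂ ≤ _
            linarith
          calc C0 * (1 / lg p₁ + Real.log (2 * ((p₂ ^ a₂ * 1 : ℕ) : ℝ)) / (lg p₁ * lg p₂))
              ≤ C0 * ((1 + a₂) * (1 / lg p₁) + (1 + a₂) * lg p₂ / (lg p₁ * lg p₂)) := by
                have : 1 / lg p₁ ≤ (1 + a₂) * (1 / lg p₁) :=
                  le_mul_of_one_le_left (by positivity) (by linarith)
                gcongr
            _ = (1 + a₂) * (2 * C0 * (1 / lg p₁)) := by field_simp; ring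
            _ ≤ (1 + a₂) * (bi p₂ p₁ + 2 * C0 * (1 / lg p₁)) := by
                gcongr
                linarith
        · have e1 : bi p₂ p₁ = 1 := by unfold bi; simp [hn]
          rw [e1]
          have := hw.le_one (p₁ ^ a₁ * (p₂ ^ a₂ * 1))
          have h2 : 0 ≤ 2 * C0 * (1 / lg p₁) := by positivity
          nlinarith
      calc w (p₁ ^ a₁ * (p₂ ^ a₂ * 1)) / ((p₁ ^ a₁ * (p₂ ^ a₂ * 1) : ℕ) : ℝ)
          ≤ ((1 + a₂) * (bi p₂ p₁ + 2 * C0 * (1 / lg p₁))) /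
            ((p₁ ^ a₁ * (p₂ ^ a₂ * 1) : ℕ) : ℝ) := by gcongr
        _ = 1 / (p₁ : ℝ) ^ a₁ * ((1 + a₂) / (p₂ : ℝ) ^ a₂ * (bi p₂ p₁ + 2 * C0 * (1 / lg p₁))) := by
            push_cast; field_simp
        _ ≤ E p₁ a₁ * (E p₂ a₂ * (bi p₂ p₁ + 2 * C0 * (1 / lg p₁))) := by
            have h5 : 1 / (p₁ : ℝ) ^ a₁ ≤ E p₁ a₁ := by
              unfold E
              gcongr
              have : (0 : ℝ) ≤ a₁ := Nat.cast_nonneg _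
              linarith
            apply mul_le_mul h5 le_rfl _ (E_nonneg _ _)
            positivity
    refine h1.trans ((nest2 hK0 hE (N + 1) N (fun p₁ p₂ => bi p₂ p₁ + 2 * C0 * (1 / lg p₁))
      ?_).trans ?_)
    · intro p hp q hq
      have := lgP (mb hp).1
      have : 0 < lg p := by linarith
      have := bi_nonneg q p
      positivity
    · apply mul_le_mul_of_nonneg_left _ (by positivity)
      have e1 : T2 (N + 1) (fun p₁ p₂ => bi p₂ p₁ + 2 * C0 * (1 / lg p₁)) =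
          T2 (N + 1) (fun p₁ p₂ => bi p₂ p₁) + 2 * C0 * T2 (N + 1) (fun p₁ _ => 1 / lg p₁) := by
        unfold T2
        simp only [Finset.mul_sum, ← Finset.sum_add_distrib]
        apply Finset.sum_congr rfl
        intro _ _
        apply Finset.sum_congr rfl
        intro _ _
        ring
      rw [e1]
      have := H3 (N + 1)
      have h2 := H2 (N + 1)
      have : 2 * C0 * T2 (N + 1) (fun p₁ _ => 1 / lg p₁) ≤ 2 * C0 * c2 := by gcongr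
      linarith
  -- three primes
  have p3 : ∑ p₁ ∈ (N + 1).primesBelow, ∑ a₁ ∈ Finset.Icc 1 N,
      ∑ p₂ ∈ p₁.primesBelow, ∑ a₂ ∈ Finset.Icc 1 N,
      ∑ p₃ ∈ p₂.primesBelow, ∑ a₃ ∈ Finset.Icc 1 N, ∑ m ∈ Sm N p₃,
      w (p₁ ^ a₁ * (p₂ ^ a₂ * (p₃ ^ a₃ * m))) /
        ((p₁ ^ a₁ * (p₂ ^ a₂ * (p₃ ^ a₃ * m)) : ℕ) : ℝ) ≤
      K ^ 3 * ((K0 + K1) * (d1 + d2 + C0 * d3 + C0 * d4 + C0 * d5 + C0 * d6)) := by
    have h1 : ∑ p₁ ∈ (N + 1).primesBelow, ∑ a₁ ∈ Finset.Icc 1 N,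
        ∑ p₂ ∈ p₁.primesBelow, ∑ a₂ ∈ Finset.Icc 1 N,
        ∑ p₃ ∈ p₂.primesBelow, ∑ a₃ ∈ Finset.Icc 1 N, ∑ m ∈ Sm N p₃,
        w (p₁ ^ a₁ * (p₂ ^ a₂ * (p₃ ^ a₃ * m))) /
          ((p₁ ^ a₁ * (p₂ ^ a₂ * (p₃ ^ a₃ * m)) : ℕ) : ℝ) ≤
        ∑ p₁ ∈ (N + 1).primesBelow, ∑ a₁ ∈ Finset.Icc 1 N,
        ∑ p₂ ∈ p₁.primesBelow, ∑ a₂ ∈ Finset.Icc 1 N,
        ∑ p₃ ∈ p₂.primesBelow, ∑ a₃ ∈ Finset.Icc 1 N,
        E p₁ a₁ * (E p₂ a₂ * (E p₃ a₃ * ((K0 + K1) * Ps C0 p₁ p₂ p₃))) := by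
      apply Finset.sum_le_sum
      intro p₁ hp₁
      apply Finset.sum_le_sum
      intro a₁ ha₁
      apply Finset.sum_le_sum
      intro p₂ hp₂
      apply Finset.sum_le_sum
      intro a₂ ha₂
      apply Finset.sum_le_sum
      intro p₃ hp₃
      apply Finset.sum_le_sum
      intro a₃ ha₃
      have hpp := (mb hp₁).1
      have hpp₂ := (mb hp₂).1
      have hpp₃ := (mb hp₃).1
      have ha₁' := (Finset.mem_Icc.1 ha₁).1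
      have ha₂' := (Finset.mem_Icc.1 ha₂).1
      have ha₃' := (Finset.mem_Icc.1 ha₃).1
      have h10 : (0 : ℝ) < p₁ := by exact_mod_cast hpp.pos
      have h20 : (0 : ℝ) < p₂ := by exact_mod_cast hpp₂.pos
      have h30 : (0 : ℝ) < p₃ := by exact_mod_cast hpp₃.pos
      have hX : ∑ m ∈ Sm N p₃, Ph C0 p₁ p₂ p₃ (Real.log m) / m ≤
          (K0 + K1) * Ps C0 p₁ p₂ p₃ := by
        apply Ph_sum hC0 (by linarith) (by linarith) hpp hp₂ hp₃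
        · exact hS0 p₃ _ hpp₃.two_le (fun a ha => (mem_Sm.1 ha).2)
        · exact hS1 p₃ _ hpp₃.two_le (fun a ha => (mem_Sm.1 ha).2)
      calc ∑ m ∈ Sm N p₃, w (p₁ ^ a₁ * (p₂ ^ a₂ * (p₃ ^ a₃ * m))) /
            ((p₁ ^ a₁ * (p₂ ^ a₂ * (p₃ ^ a₃ * m)) : ℕ) : ℝ)
          ≤ ∑ m ∈ Sm N p₃, 1 / (p₁ : ℝ) ^ a₁ * (E p₂ a₂ * (E p₃ a₃ *
              (Ph C0 p₁ p₂ p₃ (Real.log m) / m))) := by
            apply Finset.sum_le_sum
            intro m hm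
            have hm1 := (mem_Sm.1 hm).1.1
            have hm0 : (0 : ℝ) < m := by exact_mod_cast hm1
            have h5 := w_le_Ph hC0 hw hpp hp₂ hp₃ ha₁' ha₂' ha₃' hm1
            calc w (p₁ ^ a₁ * (p₂ ^ a₂ * (p₃ ^ a₃ * m))) /
                  ((p₁ ^ a₁ * (p₂ ^ a₂ * (p₃ ^ a₃ * m)) : ℕ) : ℝ)
                ≤ ((1 + a₂) * ((1 + a₃) * Ph C0 p₁ p₂ p₃ (Real.log m))) /
                  ((p₁ ^ a₁ * (p₂ ^ a₂ * (p₃ ^ a₃ * m)) : ℕ) : ℝ) := by gcongr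
              _ = _ := by
                unfold E
                push_cast
                field_simp
        _ = 1 / (p₁ : ℝ) ^ a₁ * (E p₂ a₂ * (E p₃ a₃ *
              ∑ m ∈ Sm N p₃, Ph C0 p₁ p₂ p₃ (Real.log m) / m)) := by
            simp only [Finset.mul_sum]
        _ ≤ 1 / (p₁ : ℝ) ^ a₁ * (E p₂ a₂ * (E p₃ a₃ * ((K0 + K1) * Ps C0 p₁ p₂ p₃))) := by
            apply mul_le_mul_of_nonneg_left _ (by positivity)
            apply mul_le_mul_of_nonneg_left _ (E_nonneg _ _)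
            exact mul_le_mul_of_nonneg_left hX (E_nonneg _ _)
        _ ≤ _ := by
            apply mul_le_mul_of_nonneg_right
            · unfold E
              gcongr
              have : (0 : ℝ) ≤ a₁ := Nat.cast_nonneg _
              linarith
            · apply mul_nonneg (E_nonneg _ _)
              apply mul_nonneg (E_nonneg _ _)
              refine le_trans ?_ hX
              apply Finset.sum_nonneg
              intro m hm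
              have hL := lgP hpp
              have hL0 : 0 < lg p₁ := by linarith
              have hL2 := lgP hpp₂
              have hL20 : 0 < lg p₂ := by linarith
              have hL3 := lgP hpp₃
              have hL30 : 0 < lg p₃ := by linarith
              have hb1 := bi_nonneg p₂ p₁
              have hb2 := bi_nonneg p₃ p₁
              have hb3 := bi_nonneg p₃ p₂
              have hc0 := ch_nonneg p₁ p₂
              have hc1 := ch_le p₁ p₂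
              have hc2 : 0 ≤ 1 - ch p₁ p₂ := by linarith
              have hlm : 0 ≤ Real.log m := Real.log_natCast_nonneg m
              unfold Ph
              positivity
    refine h1.trans ((nest3 hK0 hE (N + 1) N (fun p₁ p₂ p₃ => (K0 + K1) * Ps C0 p₁ p₂ p₃)
      ?_).trans ?_)
    · intro p₁ hp₁ p₂ hp₂ p₃ hp₃
      have hL := lgP (mb hp₁).1
      have hL0 : 0 < lg p₁ := by linarith
      have hL2 := lgP (mb hp₂).1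
      have hL20 : 0 < lg p₂ := by linarith
      have hL3 := lgP (mb hp₃).1
      have hL30 : 0 < lg p₃ := by linarith
      have hb1 := bi_nonneg p₂ p₁
      have hb2 := bi_nonneg p₃ p₁
      have hb3 := bi_nonneg p₃ p₂
      have hc0 := ch_nonneg p₁ p₂
      have hc1 := ch_le p₁ p₂
      have hc2 : 0 ≤ 1 - ch p₁ p₂ := by linarith
      unfold Ps
      positivity
    · apply mul_le_mul_of_nonneg_left _ (by positivity)
      have e1 : T3 (N + 1) (fun p₁ p₂ p₃ => (K0 + K1) * Ps C0 p₁ p₂ p₃) =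
          (K0 + K1) * (T3 (N + 1) (fun p₁ p₂ p₃ => bi p₂ p₁ * lg p₃) +
            T3 (N + 1) (fun p₁ _ p₃ => bi p₃ p₁ * lg p₃) +
            C0 * T3 (N + 1) (fun p₁ p₂ p₃ => bi p₃ p₂ * (lg p₂ * lg p₃ / lg p₁)) +
            C0 * T3 (N + 1) (fun p₁ _ _ => 1 / lg p₁) +
            C0 * T3 (N + 1) (fun p₁ p₂ p₃ => ch p₁ p₂ * (lg p₃ / lg p₁)) +
            C0 * T3 (N + 1) (fun p₁ p₂ _ => (1 - ch p₁ p₂) * (1 / lg p₂))) := by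
        unfold T3 Ps
        simp only [Finset.mul_sum, ← Finset.sum_add_distrib]
        apply Finset.sum_congr rfl
        intro _ _
        apply Finset.sum_congr rfl
        intro _ _
        apply Finset.sum_congr rfl
        intro _ _
        ring
      rw [e1]
      have g1 := D1 (N + 1)
      have g2 := D2 (N + 1)
      have g3 := D3 (N + 1)
      have g4 := D4 (N + 1)
      have g5 := D5 (N + 1)
      have g6 := D6 (N + 1)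
      gcongr
  have := p1
  have := p2
  have := p3
  linarith

end Pool.Agent.KS6_8.LM
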