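import Mathlib
import Pool.Agent.KS6_8.LM.Sum
import Pool.Agent.KS6_8.LM.Point
import Pool.Graph.R_seed8.Helper923.PPS.Full

set_option autoImplicit false

open Finset MeasureTheory Filter

namespace Pool.Agent.KS6_8.LM

open Pool.Agent.Helper923.PPS (pw Iset measurableSet_Iset)

/-- the set in logarithmic coordinates -/
def SW (T : ℝ) (m : ℕ) : Set ℝ := {τ : ℝ | τ ∈ Set.Icc (Real.sqrt T) T ∧ Real.exp τ ∈ Iset m}

open scoped Classical in
/-- the weight -/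
noncomputable def W (T : ℝ) (m : ℕ) : ℝ :=
  if (m : ℝ) ≤ Real.exp ((Real.log T) ^ 4) then (volume (SW T m)).toReal / T else 0

/-- `T` is large -/
def Big (T : ℝ) : Prop := 1 ≤ T ∧ 1 ≤ (Real.log T) ^ 4 ∧
  6000 * ((Real.log T) ^ 4) ^ 13 ≤ Real.sqrt T

theorem big_eventually : ∀ᶠ T : ℝ in atTop, Big T := by
  have h1 := Pool.Agent.Helper923.PPS.polylog_le 6000 52 0 (1 / 2) (by norm_num)
  filter_upwards [h1, eventually_ge_atTop (1 : ℝ),
    Real.tendsto_log_atTop.eventually_ge_atTop 1] with T h1 h2 h3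
  refine ⟨h2, one_le_pow₀ h3, ?_⟩
  rw [Real.rpow_zero, mul_one, ← Real.sqrt_eq_rpow] at h1
  calc 6000 * ((Real.log T) ^ 4) ^ 13 = 6000 * Real.log T ^ 52 := by ring
    _ ≤ _ := h1

theorem res_bounds {p q : ℕ} {Λ : ℝ} (hp : p.Prime) (hpq : p < q) (hΛ : 1 ≤ Λ) (hq : lg q ≤ Λ)
    (h : NR p q) : ∃ s r K : ℕ, 0 < |(s : ℝ) * lg q - r * lg p| ∧
      |(s : ℝ) * lg q - r * lg p| ≤ 1 / 2 ∧ K = ⌈lg p / |(s : ℝ) * lg q - r * lg p|⌉₊ ∧
      ((K : ℝ) * s + 1) * lg q + (K * r + 2) * lg p ≤ 6000 * Λ ^ 11 := by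
  obtain ⟨s, r, hs, hr, hs4, h1, h2⟩ := h
  change (s : ℝ) ≤ 4 * lg p at hs4
  change |(s : ℝ) * lg q - r * lg p| ≤ 1 / 2 at h1
  change 1 / (r * lg p) ^ 4 ≤ |(s : ℝ) * lg q - r * lg p| at h2
  have hL := lgP hp
  have hL0 : 0 < lg p := by linarith
  have hpq' : lg p ≤ lg q := lg_mono hp hpq.le
  have hr1 : (1 : ℝ) ≤ r := by exact_mod_cast hr
  have hs1 : (1 : ℝ) ≤ s := by exact_mod_cast hs
  set θ := |(s : ℝ) * lg q - r * lg p| with hθ
  have hrL : 0 < r * lg p := by positivity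
  have hθ0 : 0 < θ := lt_of_lt_of_le (by positivity) h2
  have hs5 : (s : ℝ) ≤ 4 * Λ := by linarith
  have hrb : r * lg p ≤ 5 * Λ ^ 2 := by
    have := (abs_le.1 h1).1
    have h3 : (s : ℝ) * lg q ≤ 4 * Λ * Λ := by
      apply mul_le_mul hs5 hq (by linarith) (by linarith)
    nlinarith
  refine ⟨s, r, ⌈lg p / θ⌉₊, hθ0, h1, rfl, ?_⟩
  set K := ⌈lg p / θ⌉₊ with hK
  have hKb : (K : ℝ) ≤ 626 * Λ ^ 9 := by
    have h3 : (K : ℝ) < lg p / θ + 1 := Nat.ceil_lt_add_one (by positivity)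
    have h4 : lg p / θ ≤ lg p * (r * lg p) ^ 4 := by
      rw [div_le_iff₀ hθ0]
      have h5 : 1 ≤ (r * lg p) ^ 4 * θ := by
        rw [div_le_iff₀ (by positivity)] at h2
        linarith
      nlinarith
    have h5 : (r * lg p) ^ 4 ≤ (5 * Λ ^ 2) ^ 4 := pow_le_pow_left₀ hrL.le hrb 4
    have h6 : lg p * (r * lg p) ^ 4 ≤ Λ * (5 * Λ ^ 2) ^ 4 := by
      apply mul_le_mul (by linarith) h5 (by positivity) (by linarith)
    have h7 : Λ * (5 * Λ ^ 2) ^ 4 = 625 * Λ ^ 9 := by ring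
    have h8 : 1 ≤ Λ ^ 9 := one_le_pow₀ hΛ
    linarith
  have hK0 : (0 : ℝ) ≤ K := Nat.cast_nonneg _
  have h9 : 1 ≤ Λ ^ 9 := one_le_pow₀ hΛ
  have e1 : ((K : ℝ) * s + 1) * lg q ≤ (626 * Λ ^ 9 * (4 * Λ) + 1) * Λ := by
    apply mul_le_mul _ hq (by linarith) (by positivity)
    have : (K : ℝ) * s ≤ 626 * Λ ^ 9 * (4 * Λ) :=
      mul_le_mul hKb hs5 (by linarith) (by positivity)
    linarith
  have e2 : (K * r + 2) * lg p ≤ 626 * Λ ^ 9 * (5 * Λ ^ 2) + 2 * Λ := by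
    have : (K : ℝ) * (r * lg p) ≤ 626 * Λ ^ 9 * (5 * Λ ^ 2) :=
      mul_le_mul hKb hrb hrL.le (by positivity)
    nlinarith
  have e3 : Λ ≤ Λ ^ 11 := le_self_pow₀ hΛ (by norm_num)
  have e4 : (626 * Λ ^ 9 * (4 * Λ) + 1) * Λ = 2504 * Λ ^ 11 + Λ := by ring
  have e5 : 626 * Λ ^ 9 * (5 * Λ ^ 2) = 3130 * Λ ^ 11 := by ring
  have e6 : 0 ≤ Λ ^ 11 := by positivity
  linarith

theorem two_bounds {p q : ℕ} {T : ℝ} (hT : Big T) (hp : p.Prime) (hpq : p < q)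
    (hq : lg q ≤ (Real.log T) ^ 4) (h : NR p q) :
    (∀ τ : ℝ, Real.sqrt T ≤ τ → ∃ a b : ℕ, 1 ≤ a ∧ 1 ≤ b ∧ τ - 1 / 2 ≤ a * lg p + b * lg q ∧
      (a : ℝ) * lg p + b * lg q ≤ τ) ∧
    (∀ V W : ℝ, 1 ≤ V → 0 ≤ W →
      volume {τ : ℝ | τ ∈ Set.Icc 0 T ∧ D (lg p) τ ≤ V ∧ D (lg q) τ ≤ W} ≤
        ENNReal.ofReal (T / (lg p * lg q) * (1 + 12 * (V * W)))) := by
  obtain ⟨hT1, hΛ, hbig⟩ := hT
  set Λ := (Real.log T) ^ 4 with hΛdef
  obtain ⟨s, r, K, hθ0, hθ1, hK, hb⟩ := res_bounds hp hpq hΛ hq h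
  have hL := lgP hp
  have hL0 : 0 < lg p := by linarith
  have hpq' : lg p ≤ lg q := lg_mono hp hpq.le
  have hM0 : 0 < lg q := by linarith
  have hΛ0 : 0 < Λ := by linarith
  have h11 : 6000 * Λ ^ 11 ≤ Real.sqrt T := by
    refine le_trans ?_ hbig
    have : Λ ^ 11 ≤ Λ ^ 13 := pow_le_pow_right₀ hΛ (by norm_num)
    linarith
  have hsT : Real.sqrt T ≤ T := by
    rw [Real.sqrt_le_left (by linarith)]
    nlinarith
  constructor
  · intro τ hτ
    exact hit hL0 hM0 hθ0 hθ1 hK (hb.trans (h11.trans hτ))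
  · intro V W hV hW
    refine (vol_joint hL0 hM0 (by linarith) hV hW hθ0 (by linarith) hK).trans ?_
    apply ENNReal.ofReal_le_ofReal
    have e1 : (K : ℝ) * s * lg q ≤ T / (lg p * lg q) := by
      rw [le_div_iff₀ (by positivity)]
      have h1 : (K : ℝ) * s * lg q ≤ 6000 * Λ ^ 11 := by
        have : 0 ≤ (K : ℝ) * r * lg p := by positivity
        nlinarith
      have h2 : lg p * lg q ≤ Λ ^ 2 := by nlinarith
      calc (K : ℝ) * s * lg q * (lg p * lg q) ≤ 6000 * Λ ^ 11 * Λ ^ 2 :=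
            mul_le_mul h1 h2 (by positivity) (by positivity)
        _ = 6000 * Λ ^ 13 := by ring
        _ ≤ T := hbig.trans hsT
    have hqT : lg q ≤ T := by
      have : Λ ≤ Λ ^ 11 := le_self_pow₀ hΛ (by norm_num)
      linarith
    have e2 : T / lg q + 1 ≤ 2 * (T / lg q) := by
      have : 1 ≤ T / lg q := by rw [le_div_iff₀ hM0]; linarith
      linarith
    calc (K : ℝ) * s * lg q + 6 * V / lg p * ((T / lg q + 1) * W)
        ≤ T / (lg p * lg q) + 6 * V / lg p * (2 * (T / lg q) * W) := by gcongr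
      _ = _ := by field_simp; ring

theorem SW_fin (T : ℝ) (m : ℕ) : volume (SW T m) ≠ ⊤ := by
  apply ne_of_lt
  have : volume (SW T m) ≤ volume (Set.Icc (Real.sqrt T) T) := measure_mono fun τ hτ => hτ.1
  refine this.trans_lt ?_
  rw [Real.volume_Icc]; exact ENNReal.ofReal_lt_top

theorem W_le_of {T X : ℝ} {m : ℕ} (hT : 0 < T) (hX : 0 ≤ X)
    (h : (m : ℝ) ≤ Real.exp ((Real.log T) ^ 4) → volume (SW T m) ≤ ENNReal.ofReal (T * X)) :
    W T m ≤ X := by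
  unfold W
  split_ifs with hm
  · rw [div_le_iff₀ hT]
    have := ENNReal.toReal_le_of_le_ofReal (by positivity) (h hm)
    linarith
  · exact hX

theorem lg_le_of_dvd {p m : ℕ} {Λ : ℝ} (hp : p.Prime) (hm : m ≠ 0) (hd : p ∣ m)
    (h : (m : ℝ) ≤ Real.exp Λ) : lg p ≤ Λ := by
  have h1 : p ≤ m := Nat.le_of_dvd (Nat.pos_of_ne_zero hm) hd
  have h2 : (p : ℝ) ≤ Real.exp Λ := le_trans (by exact_mod_cast h1) h
  unfold lg
  rwa [Real.log_le_iff_le_exp (by exact_mod_cast hp.pos)]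

theorem WH_W {T : ℝ} (hT : Big T) : WH 100 (W T) := by
  have hT' := hT
  obtain ⟨hT1, hΛ, hbig⟩ := hT'
  have hT0 : 0 < T := by linarith
  have hs0 : 0 ≤ Real.sqrt T := Real.sqrt_nonneg T
  have hsT : Real.sqrt T ≤ T := by
    rw [Real.sqrt_le_left (by linarith)]
    nlinarith
  have hΛT : (Real.log T) ^ 4 ≤ T := by
    have : (Real.log T) ^ 4 ≤ ((Real.log T) ^ 4) ^ 13 := le_self_pow₀ hΛ (by norm_num)
    nlinarith
  constructor
  · intro m
    unfold W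
    split_ifs
    · positivity
    · exact le_rfl
  · intro m
    apply W_le_of hT0 zero_le_one
    intro _
    have : volume (SW T m) ≤ volume (Set.Icc (Real.sqrt T) T) := measure_mono fun τ hτ => hτ.1
    refine this.trans ?_
    rw [Real.volume_Icc]
    apply ENNReal.ofReal_le_ofReal
    linarith
  · -- h1
    intro p a m hp ha hm
    have hL := lgP hp
    have hL0 : 0 < lg p := by linarith
    have hm1 : (1 : ℝ) ≤ m := by exact_mod_cast hm
    have hlog : 0 ≤ Real.log (2 * (m : ℝ)) := Real.log_nonneg (by linarith)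
    apply W_le_of hT0 (by positivity)
    intro hle
    have hne : p ^ a * m ≠ 0 := Nat.mul_ne_zero (pow_ne_zero _ hp.ne_zero) (by omega)
    have hpΛ := lg_le_of_dvd hp hne ((dvd_pow_self p (by omega)).mul_right m) hle
    have hsub : SW T (p ^ a * m) ⊆
        {τ : ℝ | τ ∈ Set.Icc 0 T ∧ D (lg p) τ ≤ Real.log (2 * (m : ℝ))} := by
      rintro τ ⟨⟨h1, h2⟩, h3⟩
      exact ⟨⟨by linarith, h2⟩, top_point (by linarith) hp ha hm h3⟩
    refine (measure_mono hsub).trans ((vol_single hL0 hT0.le hlog).trans ?_)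
    apply ENNReal.ofReal_le_ofReal
    have e2 : T / lg p + 1 ≤ 2 * (T / lg p) := by
      have : 1 ≤ T / lg p := by rw [le_div_iff₀ hL0]; linarith
      linarith
    calc (T / lg p + 1) * Real.log (2 * (m : ℝ)) ≤ 2 * (T / lg p) * Real.log (2 * (m : ℝ)) := by
          gcongr
      _ = 2 * (T * (Real.log (2 * (m : ℝ)) / lg p)) := by ring
      _ ≤ 100 * (T * (Real.log (2 * (m : ℝ)) / lg p)) := by
          gcongr
          norm_num
      _ = _ := by ring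
  · -- h2
    intro q p a b hq hpq hNR ha hb
    obtain ⟨hp, hlt, hlle⟩ := mb hpq
    have hL := lgP hp
    have hL0 : 0 < lg p := by linarith
    have hM0 : 0 < lg q := by linarith
    set c : ℕ := p ^ b * 1 with hc
    have hc1 : 1 ≤ c := by rw [hc, mul_one]; exact Nat.one_le_pow _ _ hp.pos
    have hc2 : (2 : ℝ) ≤ c := by
      have : 2 ≤ c := by rw [hc, mul_one]; exact hp.two_le.trans (Nat.le_self_pow (by omega) p)
      exact_mod_cast this
    have hlog : 1 ≤ Real.log (2 * (c : ℝ)) := by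
      rw [Real.le_log_iff_exp_le (by positivity)]
      have := Real.exp_one_lt_d9
      linarith
    apply W_le_of hT0 (by positivity)
    intro hle
    have hne : q ^ a * c ≠ 0 := Nat.mul_ne_zero (pow_ne_zero _ hq.ne_zero) (by omega)
    have hqd : q ∣ q ^ a * c := (dvd_pow_self q (by omega)).mul_right c
    have hpd : p ∣ q ^ a * c := by
      apply Dvd.dvd.mul_left
      rw [hc, mul_one]
      exact dvd_pow_self p (by omega)
    have hqΛ := lg_le_of_dvd hq hne hqd hle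
    obtain ⟨hhit, hvol⟩ := two_bounds hT hp hlt hqΛ hNR
    have hsub : SW T (q ^ a * c) ⊆
        {τ : ℝ | τ ∈ Set.Icc 0 T ∧ D (lg q) τ ≤ 2} ∪
        {τ : ℝ | τ ∈ Set.Icc 0 T ∧ D (lg p) τ ≤ 2 ∧ D (lg q) τ ≤ Real.log (2 * (c : ℝ))} := by
      rintro τ ⟨⟨h1, h2⟩, h3⟩
      have h0 : 0 ≤ τ := by linarith
      obtain ⟨a', b', ha', hb', g1, g2⟩ := hhit τ h1
      have h4 := pair_good h0 hne h3 hp hq (by omega) hpd hqd ha' hb' g2 g1
      by_cases h5 : D (lg q) τ ≤ 2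
      · exact Or.inl ⟨⟨h0, h2⟩, h5⟩
      · refine Or.inr ⟨⟨h0, h2⟩, h4.resolve_right h5, top_point h0 hq ha hc1 h3⟩
    refine (measure_mono hsub).trans ((measure_union_le _ _).trans ?_)
    refine (add_le_add (vol_single hM0 hT0.le (by norm_num))
      (hvol 2 _ (by norm_num) (by linarith))).trans ?_
    rw [← ENNReal.ofReal_add (by positivity) (by positivity)]
    apply ENNReal.ofReal_le_ofReal
    have e2 : T / lg q + 1 ≤ 2 * (T / lg q) := by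
      have : 1 ≤ T / lg q := by rw [le_div_iff₀ hM0]; linarith
      linarith
    have e3 : 1 + 12 * (2 * Real.log (2 * (c : ℝ))) ≤ 25 * Real.log (2 * (c : ℝ)) := by linarith
    calc (T / lg q + 1) * 2 + T / (lg p * lg q) * (1 + 12 * (2 * Real.log (2 * (c : ℝ))))
        ≤ 2 * (T / lg q) * 2 + T / (lg p * lg q) * (25 * Real.log (2 * (c : ℝ))) := by gcongr
      _ = 4 * (T * (1 / lg q)) + 25 * (T * (Real.log (2 * (c : ℝ)) / (lg q * lg p))) := by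
          field_simp; ring
      _ ≤ 100 * (T * (1 / lg q)) + 100 * (T * (Real.log (2 * (c : ℝ)) / (lg q * lg p))) := by
          gcongr <;> norm_num
      _ = _ := by ring
  · -- h3
    intro p₁ p₂ p₃ a₁ a₂ a₃ m hp₁ hp₂ hp₃ n21 n31 n32 ha₁ ha₂ ha₃ hm
    obtain ⟨hp₂', lt21, l21⟩ := mb hp₂
    obtain ⟨hp₃', lt32, l32⟩ := mb hp₃
    have L3 := lgP hp₃'
    have hL3 : 0 < lg p₃ := by linarith
    have hL2 : 0 < lg p₂ := by linarith
    have hL1 : 0 < lg p₁ := by linarith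
    apply W_le_of hT0 (by positivity)
    intro hle
    have hne : p₁ ^ a₁ * (p₂ ^ a₂ * (p₃ ^ a₃ * m)) ≠ 0 :=
      Nat.mul_ne_zero (pow_ne_zero _ hp₁.ne_zero) (Nat.mul_ne_zero (pow_ne_zero _ hp₂'.ne_zero)
        (Nat.mul_ne_zero (pow_ne_zero _ hp₃'.ne_zero) (by omega)))
    set n := p₁ ^ a₁ * (p₂ ^ a₂ * (p₃ ^ a₃ * m)) with hn
    have d1 : p₁ ∣ n := (dvd_pow_self p₁ (by omega)).mul_right _
    have d2 : p₂ ∣ n := Dvd.dvd.mul_left ((dvd_pow_self p₂ (by omega)).mul_right _) _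
    have d3 : p₃ ∣ n := Dvd.dvd.mul_left (Dvd.dvd.mul_left
      ((dvd_pow_self p₃ (by omega)).mul_right _) _) _
    have hΛ1 := lg_le_of_dvd hp₁ hne d1 hle
    have hΛ2 := lg_le_of_dvd hp₂' hne d2 hle
    obtain ⟨hit21, vol21⟩ := two_bounds hT hp₂' lt21 hΛ1 n21
    obtain ⟨hit31, vol31⟩ := two_bounds hT hp₃' (lt32.trans lt21) hΛ1 n31
    obtain ⟨hit32, vol32⟩ := two_bounds hT hp₃' lt32 hΛ2 n32
    have hsub : SW T n ⊆
        ({τ : ℝ | τ ∈ Set.Icc 0 T ∧ D (lg p₂) τ ≤ 2 ∧ D (lg p₁) τ ≤ 2} ∪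
        {τ : ℝ | τ ∈ Set.Icc 0 T ∧ D (lg p₃) τ ≤ 2 ∧ D (lg p₁) τ ≤ 2}) ∪
        {τ : ℝ | τ ∈ Set.Icc 0 T ∧ D (lg p₃) τ ≤ 2 ∧ D (lg p₂) τ ≤ 2} := by
      rintro τ ⟨⟨h1, h2⟩, h3⟩
      have h0 : 0 ≤ τ := by linarith
      obtain ⟨a, b, ha, hb, g1, g2⟩ := hit21 τ h1
      have k21 := pair_good h0 hne h3 hp₂' hp₁ (by omega) d2 d1 ha hb g2 g1
      obtain ⟨a, b, ha, hb, g1, g2⟩ := hit31 τ h1
      have k31 := pair_good h0 hne h3 hp₃' hp₁ (by omega) d3 d1 ha hb g2 g1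
      obtain ⟨a, b, ha, hb, g1, g2⟩ := hit32 τ h1
      have k32 := pair_good h0 hne h3 hp₃' hp₂' (by omega) d3 d2 ha hb g2 g1
      have hI : τ ∈ Set.Icc 0 T := ⟨h0, h2⟩
      by_cases e1 : D (lg p₁) τ ≤ 2
      · rcases k32 with e3 | e2
        · exact Or.inl (Or.inr ⟨hI, e3, e1⟩)
        · exact Or.inl (Or.inl ⟨hI, e2, e1⟩)
      · exact Or.inr ⟨hI, k31.resolve_right e1, k21.resolve_right e1⟩
    refine (measure_mono hsub).trans ((measure_union_le _ _).trans ?_)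
    refine (add_le_add ((measure_union_le _ _).trans (add_le_add
      (vol21 2 2 (by norm_num) (by norm_num)) (vol31 2 2 (by norm_num) (by norm_num))))
      (vol32 2 2 (by norm_num) (by norm_num))).trans ?_
    rw [← ENNReal.ofReal_add (by positivity) (by positivity),
      ← ENNReal.ofReal_add (by positivity) (by positivity)]
    apply ENNReal.ofReal_le_ofReal
    have e1 : T / (lg p₂ * lg p₁) ≤ T / (lg p₃ * lg p₁) := by gcongr
    have e2 : 0 ≤ T / (lg p₃ * lg p₁) := by positivity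
    have e3 : 0 ≤ T / (lg p₃ * lg p₂) := by positivity
    have e4 : T * (100 * (1 / (lg p₁ * lg p₃) + 1 / (lg p₂ * lg p₃))) =
        100 * (T / (lg p₃ * lg p₁)) + 100 * (T / (lg p₃ * lg p₂)) := by field_simp
    rw [e4]
    linarith
  · -- h4
    intro p₁ p₂ p₃ a₁ a₂ a₃ m hp₁ hp₂ hp₃ n21 n31 n32 ha₁ ha₂ ha₃ hm
    obtain ⟨hp₂', lt21, l21⟩ := mb hp₂
    obtain ⟨hp₃', lt32, l32⟩ := mb hp₃
    have L3 := lgP hp₃'
    have hL3 : 0 < lg p₃ := by linarith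
    have hL2 : 0 < lg p₂ := by linarith
    have hL1 : 0 < lg p₁ := by linarith
    set c : ℕ := p₂ ^ a₂ * (p₃ ^ a₃ * m) with hc
    have hc2' : 2 ≤ c := by
      have h1 : 2 ≤ p₂ ^ a₂ := hp₂'.two_le.trans (Nat.le_self_pow (by omega) p₂)
      have h2 : 1 ≤ p₃ ^ a₃ * m := Nat.mul_pos (pow_pos hp₃'.pos _) hm
      rw [hc]; nlinarith
    have hc2 : (2 : ℝ) ≤ c := by exact_mod_cast hc2'
    have hlog : 1 ≤ Real.log (2 * (c : ℝ)) := by
      rw [Real.le_log_iff_exp_le (by positivity)]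
      have := Real.exp_one_lt_d9
      linarith
    apply W_le_of hT0 (by positivity)
    intro hle
    have hne : p₁ ^ a₁ * c ≠ 0 := Nat.mul_ne_zero (pow_ne_zero _ hp₁.ne_zero) (by omega)
    set n := p₁ ^ a₁ * c with hn
    have d1 : p₁ ∣ n := (dvd_pow_self p₁ (by omega)).mul_right _
    have d2 : p₂ ∣ n := Dvd.dvd.mul_left ((dvd_pow_self p₂ (by omega)).mul_right _) _
    have d3 : p₃ ∣ n := Dvd.dvd.mul_left (Dvd.dvd.mul_left
      ((dvd_pow_self p₃ (by omega)).mul_right _) _) _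
    have hΛ1 := lg_le_of_dvd hp₁ hne d1 hle
    have hΛ2 := lg_le_of_dvd hp₂' hne d2 hle
    obtain ⟨hit21, vol21⟩ := two_bounds hT hp₂' lt21 hΛ1 n21
    obtain ⟨hit31, vol31⟩ := two_bounds hT hp₃' (lt32.trans lt21) hΛ1 n31
    obtain ⟨hit32, vol32⟩ := two_bounds hT hp₃' lt32 hΛ2 n32
    have hsub : SW T n ⊆
        ({τ : ℝ | τ ∈ Set.Icc 0 T ∧ D (lg p₂) τ ≤ 2 ∧ D (lg p₁) τ ≤ 2} ∪
        {τ : ℝ | τ ∈ Set.Icc 0 T ∧ D (lg p₃) τ ≤ 2 ∧ D (lg p₁) τ ≤ 2}) ∪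
        {τ : ℝ | τ ∈ Set.Icc 0 T ∧ D (lg p₂) τ ≤ 2 ∧
          D (lg p₁) τ ≤ Real.log (2 * (c : ℝ))} := by
      rintro τ ⟨⟨h1, h2⟩, h3⟩
      have h0 : 0 ≤ τ := by linarith
      obtain ⟨a, b, ha, hb, g1, g2⟩ := hit21 τ h1
      have k21 := pair_good h0 hne h3 hp₂' hp₁ (by omega) d2 d1 ha hb g2 g1
      obtain ⟨a, b, ha, hb, g1, g2⟩ := hit32 τ h1
      have k32 := pair_good h0 hne h3 hp₃' hp₂' (by omega) d3 d2 ha hb g2 g1
      have hI : τ ∈ Set.Icc 0 T := ⟨h0, h2⟩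
      by_cases e1 : D (lg p₁) τ ≤ 2
      · rcases k32 with e3 | e2
        · exact Or.inl (Or.inr ⟨hI, e3, e1⟩)
        · exact Or.inl (Or.inl ⟨hI, e2, e1⟩)
      · exact Or.inr ⟨hI, k21.resolve_right e1, top_point h0 hp₁ ha₁ (by omega) h3⟩
    refine (measure_mono hsub).trans ((measure_union_le _ _).trans ?_)
    refine (add_le_add ((measure_union_le _ _).trans (add_le_add
      (vol21 2 2 (by norm_num) (by norm_num)) (vol31 2 2 (by norm_num) (by norm_num))))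
      (vol21 2 _ (by norm_num) (by linarith))).trans ?_
    rw [← ENNReal.ofReal_add (by positivity) (by positivity),
      ← ENNReal.ofReal_add (by positivity) (by positivity)]
    apply ENNReal.ofReal_le_ofReal
    have e1 : T / (lg p₂ * lg p₁) ≤ T / (lg p₃ * lg p₁) := by gcongr
    have e2 : 0 ≤ T / (lg p₃ * lg p₁) := by positivity
    have e3 : 0 ≤ T / (lg p₂ * lg p₁) := by positivity
    have e4 : T * (100 * (1 / (lg p₁ * lg p₃) + Real.log (2 * (c : ℝ)) / (lg p₁ * lg p₂))) =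
        100 * (T / (lg p₃ * lg p₁)) + 100 * (T / (lg p₂ * lg p₁) * Real.log (2 * (c : ℝ))) := by
      field_simp
    rw [e4]
    have e5 : T / (lg p₂ * lg p₁) * (1 + 12 * (2 * Real.log (2 * (c : ℝ)))) ≤
        100 * (T / (lg p₂ * lg p₁) * Real.log (2 * (c : ℝ))) := by
      calc T / (lg p₂ * lg p₁) * (1 + 12 * (2 * Real.log (2 * (c : ℝ))))
          ≤ T / (lg p₂ * lg p₁) * (100 * Real.log (2 * (c : ℝ))) := by
            gcongr
            linarith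
        _ = _ := by ring
    linarith

/-- supremum of the weights -/
theorem WH_sup {ι : Type*} [Nonempty ι] {C0 : ℝ} {w : ι → ℕ → ℝ} (h : ∀ i, WH C0 (w i)) :
    WH C0 (fun m => ⨆ i, w i m) := by
  have hb : ∀ m, BddAbove (Set.range (fun i => w i m)) := by
    intro m
    refine ⟨1, ?_⟩
    rintro _ ⟨i, rfl⟩
    exact (h i).le_one m
  constructor
  · intro m
    obtain ⟨i⟩ := ‹Nonempty ι›
    exact ((h i).nonneg m).trans (le_ciSup (hb m) i)
  · intro m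
    exact ciSup_le (fun i => (h i).le_one m)
  · intro p a m h1 h2 h3
    exact ciSup_le (fun i => (h i).h1 p a m h1 h2 h3)
  · intro q p a b h1 h2 h3 h4 h5
    exact ciSup_le (fun i => (h i).h2 q p a b h1 h2 h3 h4 h5)
  · intro p₁ p₂ p₃ a₁ a₂ a₃ m h1 h2 h3 h4 h5 h6 h7 h8 h9 h10
    exact ciSup_le (fun i => (h i).h3 p₁ p₂ p₃ a₁ a₂ a₃ m h1 h2 h3 h4 h5 h6 h7 h8 h9 h10)
  · intro p₁ p₂ p₃ a₁ a₂ a₃ m h1 h2 h3 h4 h5 h6 h7 h8 h9 h10
    exact ciSup_le (fun i => (h i).h4 p₁ p₂ p₃ a₁ a₂ a₃ m h1 h2 h3 h4 h5 h6 h7 h8 h9 h10)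

/-- a summable majorant -/
theorem majorant : ∃ B : ℕ → ℝ, (∀ m, 0 ≤ B m) ∧ Summable (fun m : ℕ => B m / m) ∧
    ∀ T : ℝ, Big T → ∀ m, W T m ≤ B m := by
  obtain ⟨T₀, hT₀⟩ := big_eventually.exists
  have : Nonempty {T : ℝ // Big T} := ⟨⟨T₀, hT₀⟩⟩
  have hWH : WH 100 (fun m => ⨆ T : {T : ℝ // Big T}, W T.1 m) :=
    WH_sup (fun T : {T : ℝ // Big T} => WH_W T.2)
  obtain ⟨C, hC0, hC⟩ := sum_main 100 (by norm_num)
  refine ⟨fun m => ⨆ T : {T : ℝ // Big T}, W T.1 m, hWH.nonneg, ?_, ?_⟩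
  · apply summable_of_sum_le (c := C)
      (fun m => div_nonneg (hWH.nonneg m) (Nat.cast_nonneg _))
    intro u
    have h := hC _ hWH (u.sup id)
    refine le_trans ?_ h
    have hsub : u.filter (fun m => m ≠ 0) ⊆ Finset.Icc 1 (u.sup id) := by
      intro m hm
      rw [Finset.mem_filter] at hm
      rw [Finset.mem_Icc]
      exact ⟨Nat.one_le_iff_ne_zero.2 hm.2, Finset.le_sup (f := id) hm.1⟩
    have h0 : ∑ m ∈ u, (⨆ T : {T : ℝ // Big T}, W T.1 m) / (m : ℝ) =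
        ∑ m ∈ u.filter (fun m => m ≠ 0), (⨆ T : {T : ℝ // Big T}, W T.1 m) / (m : ℝ) := by
      rw [Finset.sum_filter]
      apply Finset.sum_congr rfl
      intro m _
      by_cases hm : m = 0
      · simp [hm]
      · simp [hm]
    rw [h0]
    exact Finset.sum_le_sum_of_subset_of_nonneg hsub
      (fun m _ _ => div_nonneg (hWH.nonneg m) (Nat.cast_nonneg _))
  · intro T hT m
    refine le_ciSup (f := fun T : {T : ℝ // Big T} => W T.1 m) ?_ ⟨T, hT⟩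
    refine ⟨1, ?_⟩
    rintro _ ⟨i, rfl⟩
    exact (WH_W i.2).le_one m

end Pool.Agent.KS6_8.LM
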