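import Mathlib
import Pool.Agent.KS6_8.LM.Negl
import Pool.Agent.KS6_8.LM.Mean
import Pool.Agent.KS6_8.LM.WT

set_option autoImplicit false

open MeasureTheory Filter Topology

namespace Pool.Agent.KS6_8.LM

open Pool.Agent.Helper923.PPS (pw Iset measurableSet_Iset)

/-- the set `I m` in logarithmic coordinates -/
def J (m : ℕ) : Set ℝ := {τ : ℝ | Real.exp τ ∈ Iset m}

theorem J_nonneg {m : ℕ} {τ : ℝ} (h : τ ∈ J m) : 0 ≤ τ := by
  have h1 : 1 ≤ Real.exp τ := h.1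
  rwa [Real.one_le_exp_iff] at h1

theorem measurableSet_J (m : ℕ) : MeasurableSet (J m) :=
  Real.measurable_exp (measurableSet_Iset m)

/-- the limiting conditions -/
structure Rc (m : ℕ) (τ : ℝ) : Prop where
  pair : ∀ p q : ℕ, p.Prime → q.Prime → p ≠ q → p ∣ m → q ∣ m →
    1 ≤ Real.exp (-D (lg p) τ) + Real.exp (-D (lg q) τ)
  pp : ∀ p a : ℕ, p.Prime → p ∣ m → 1 ≤ a → p ^ a ≤ m →
    (p : ℝ) ^ a - 1 ≤ m * Real.exp (-D (lg p) τ)

theorem J_of_Rc {m : ℕ} {τ : ℝ} (hτ : 0 ≤ τ) (h : Rc m τ) : τ ∈ J m := by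
  have ht := Real.exp_pos τ
  refine ⟨Real.one_le_exp hτ, ?_⟩
  intro e he hsub
  by_cases hc : e.primeFactors.card = 1
  · have hpp := (isPrimePow_iff_card_primeFactors_eq_one).2 hc
    obtain ⟨p, a, hp, ha, rfl⟩ := (isPrimePow_nat_iff e).1 hpp
    have hpf : (p ^ a).primeFactors = {p} := by
      rw [Nat.primeFactors_pow _ (by omega), hp.primeFactors]
    rw [hpf] at hsub ⊢
    have hpm : p ∣ m := Nat.dvd_of_mem_primeFactors (hsub (Finset.mem_singleton_self p))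
    rw [Finset.sum_singleton]
    constructor
    · intro hle
      have h1 : p ^ a ≤ ⌊Real.exp τ⌋₊ := (Nat.le_floor_iff ht.le).2 hle
      have h2 : p ^ a ≤ pw p ⌊Real.exp τ⌋₊ := by
        unfold pw
        apply Nat.pow_le_pow_right hp.pos
        exact Nat.le_log_of_pow_le hp.one_lt h1
      exact_mod_cast h2
    · intro hle
      have h1 := h.pp p a hp hpm ha hle
      rw [pw_exp hp hτ]
      push_cast
      nlinarith
  · have hc2 : 1 < e.primeFactors.card := by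
      have h1 : 0 < e.primeFactors.card :=
        Finset.card_pos.2 (Nat.nonempty_primeFactors.2 (by omega))
      omega
    obtain ⟨p, hp, q, hq, hpq⟩ := Finset.one_lt_card.1 hc2
    have hpp := Nat.prime_of_mem_primeFactors hp
    have hqp := Nat.prime_of_mem_primeFactors hq
    have hpm := Nat.dvd_of_mem_primeFactors (hsub hp)
    have hqm := Nat.dvd_of_mem_primeFactors (hsub hq)
    have h1 := h.pair p q hpp hqp hpq hpm hqm
    have h2 : Real.exp τ ≤ ∑ p ∈ e.primeFactors, (pw p ⌊Real.exp τ⌋₊ : ℝ) := by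
      have h3 : ∑ x ∈ {p, q}, (pw x ⌊Real.exp τ⌋₊ : ℝ) ≤
          ∑ p ∈ e.primeFactors, (pw p ⌊Real.exp τ⌋₊ : ℝ) := by
        apply Finset.sum_le_sum_of_subset_of_nonneg
        · intro x hx
          rw [Finset.mem_insert, Finset.mem_singleton] at hx
          rcases hx with rfl | rfl
          · exact hp
          · exact hq
        · intro _ _ _; positivity
      rw [Finset.sum_pair hpq, pw_exp hpp hτ, pw_exp hqp hτ] at h3
      nlinarith
    constructor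
    · intro hle; linarith
    · intro hle
      have h3 : (e : ℝ) ≤ m := by exact_mod_cast hle
      have h4 : (m : ℝ) * Real.exp τ ≤ m * ∑ p ∈ e.primeFactors, (pw p ⌊Real.exp τ⌋₊ : ℝ) :=
        mul_le_mul_of_nonneg_left h2 (Nat.cast_nonneg _)
      nlinarith

theorem pp_of_J {m p a : ℕ} (hm : m ≠ 0) {τ : ℝ} (h : τ ∈ J m) (hp : p.Prime) (hpm : p ∣ m)
    (ha : 1 ≤ a) (hle : p ^ a ≤ m) : (p : ℝ) ^ a - 1 ≤ m * Real.exp (-D (lg p) τ) := by
  have hτ := J_nonneg h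
  obtain ⟨-, hall⟩ := h
  have h1 : 2 ≤ p ^ a := hp.two_le.trans (Nat.le_self_pow (by omega) p)
  have hpf : (p ^ a).primeFactors = {p} := by
    rw [Nat.primeFactors_pow _ (by omega), hp.primeFactors]
  have h2 := (hall (p ^ a) h1 (by
    rw [hpf]
    intro x hx
    rw [Finset.mem_singleton] at hx
    subst hx
    exact Nat.mem_primeFactors.2 ⟨hp, hpm, hm⟩)).2 hle
  rw [hpf, Finset.sum_singleton, pw_exp hp hτ] at h2
  push_cast at h2
  have ht := Real.exp_pos τ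
  have : Real.exp τ * ((p : ℝ) ^ a - 1) ≤ Real.exp τ * (m * Real.exp (-D (lg p) τ)) := by
    linarith
  exact le_of_mul_le_mul_left this ht

/-- the exceptional set -/
def Zs (m : ℕ) (κ : ℝ) : Set ℝ :=
  ((⋃ p ∈ m.primeFactors, {τ : ℝ | |D (lg p) τ - 0| ≤ 1 * κ}) ∪
    (⋃ p ∈ m.primeFactors, {τ : ℝ | |D (lg p) τ - lg p| ≤ 1 * κ})) ∪
  ((⋃ x ∈ m.primeFactors ×ˢ Finset.Icc 1 m,
      {τ : ℝ | |D (lg x.1) τ - Real.log (m / ((x.1 : ℝ) ^ x.2 - 1))| ≤ 2 * κ}) ∪
    (⋃ x ∈ m.primeFactors.offDiag, {τ : ℝ |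
      Real.exp (-(2 * κ)) ≤ Real.exp (-D (lg x.1) τ) + Real.exp (-D (lg x.2) τ) ∧
      Real.exp (-D (lg x.1) τ) + Real.exp (-D (lg x.2) τ) ≤ Real.exp (2 * κ)}))

theorem lg_pos {p : ℕ} (hp : p.Prime) : 0 < lg p := by have := lgP hp; linarith

theorem negl_Zs (m : ℕ) : Negl (Zs m) := by
  have a1 : Negl (fun κ => ⋃ p ∈ m.primeFactors, {τ : ℝ | |D (lg p) τ - 0| ≤ 1 * κ}) :=
    Negl.biUnion m.primeFactors (S := fun p κ => {τ : ℝ | |D (lg p) τ - 0| ≤ 1 * κ})
      (fun p hp => negl_window (lg_pos (Nat.prime_of_mem_primeFactors hp)) one_pos)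
  have a2 : Negl (fun κ => ⋃ p ∈ m.primeFactors, {τ : ℝ | |D (lg p) τ - lg p| ≤ 1 * κ}) :=
    Negl.biUnion m.primeFactors (S := fun p κ => {τ : ℝ | |D (lg p) τ - lg p| ≤ 1 * κ})
      (fun p hp => negl_window (lg_pos (Nat.prime_of_mem_primeFactors hp)) one_pos)
  have a3 : Negl (fun κ => ⋃ x ∈ m.primeFactors ×ˢ Finset.Icc 1 m,
      {τ : ℝ | |D (lg x.1) τ - Real.log (m / ((x.1 : ℝ) ^ x.2 - 1))| ≤ 2 * κ}) :=
    Negl.biUnion (m.primeFactors ×ˢ Finset.Icc 1 m)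
      (S := fun x κ => {τ : ℝ | |D (lg x.1) τ - Real.log (m / ((x.1 : ℝ) ^ x.2 - 1))| ≤ 2 * κ})
      (fun x hx => negl_window (lg_pos (Nat.prime_of_mem_primeFactors
        (Finset.mem_product.1 hx).1)) two_pos)
  have a4 : Negl (fun κ => ⋃ x ∈ m.primeFactors.offDiag, {τ : ℝ |
      Real.exp (-(2 * κ)) ≤ Real.exp (-D (lg x.1) τ) + Real.exp (-D (lg x.2) τ) ∧
      Real.exp (-D (lg x.1) τ) + Real.exp (-D (lg x.2) τ) ≤ Real.exp (2 * κ)}) :=
    Negl.biUnion m.primeFactors.offDiag (S := fun x κ => {τ : ℝ |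
      Real.exp (-(2 * κ)) ≤ Real.exp (-D (lg x.1) τ) + Real.exp (-D (lg x.2) τ) ∧
      Real.exp (-D (lg x.1) τ) + Real.exp (-D (lg x.2) τ) ≤ Real.exp (2 * κ)})
      (fun x hx => by
        obtain ⟨h1, h2, h3⟩ := Finset.mem_offDiag.1 hx
        exact negl_pair (Nat.prime_of_mem_primeFactors h1) (Nat.prime_of_mem_primeFactors h2) h3)
  exact (a1.union a2).union (a3.union a4)

theorem measurableSet_Zs (m : ℕ) (κ : ℝ) : MeasurableSet (Zs m κ) := by
  have hw : ∀ (L a c : ℝ), MeasurableSet {τ : ℝ | |D L τ - a| ≤ c} := by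
    intro L a c
    have : Measurable (fun τ => |D L τ - a|) := by
      have h1 : Measurable (fun τ => D L τ - a) := (measurable_D L).sub_const a
      exact continuous_abs.measurable.comp h1
    exact measurableSet_le this measurable_const
  unfold Zs
  refine (MeasurableSet.union ?_ ?_).union (MeasurableSet.union ?_ ?_)
  · exact Finset.measurableSet_biUnion _ (fun p _ => hw _ _ _)
  · exact Finset.measurableSet_biUnion _ (fun p _ => hw _ _ _)
  · exact Finset.measurableSet_biUnion _ (fun p _ => hw _ _ _)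
  · apply Finset.measurableSet_biUnion
    intro x _
    have hm : Measurable (fun τ => Real.exp (-D (lg x.1) τ) + Real.exp (-D (lg x.2) τ)) :=
      (Real.measurable_exp.comp (measurable_D _).neg).add
        (Real.measurable_exp.comp (measurable_D _).neg)
    exact (measurableSet_le measurable_const hm).inter (measurableSet_le hm measurable_const)

theorem D_shift {L κ τ s : ℝ} (hL : 0 < L) (h1 : κ < D L τ) (h2 : D L τ < L - κ)
    (hs : ∃ j : ℤ, |s - j * L| ≤ κ) : |D L (τ + s) - D L τ| ≤ κ := by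
  obtain ⟨j, hj⟩ := hs
  have hj' := abs_le.1 hj
  have e1 : τ + s = (τ + (s - j * L)) + j * L := by ring
  have e2 : D L (τ + s) = D L τ + (s - j * L) := by
    rw [e1, D_add_mul hL]
    have h3 : ⌊(τ + (s - j * L)) / L⌋ = ⌊τ / L⌋ := by
      rw [Int.floor_eq_iff]
      unfold D at h1 h2
      constructor
      · rw [le_div_iff₀ hL]; linarith [hj'.1]
      · rw [div_lt_iff₀ hL]; linarith [hj'.2]
    unfold D
    rw [h3]; ring
  rw [e2]
  simpa using hj

theorem stable_all {m : ℕ} {κ τ s : ℝ} (hZ : τ ∉ Zs m κ)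
    (hs : ∀ p ∈ m.primeFactors, ∃ j : ℤ, |s - j * lg p| ≤ κ) :
    (∀ p ∈ m.primeFactors, |D (lg p) (τ + s) - D (lg p) τ| ≤ κ) ∧
    (∀ p ∈ m.primeFactors, ∀ a : ℕ, 1 ≤ a → p ^ a ≤ m →
      2 * κ < |D (lg p) τ - Real.log (m / ((p : ℝ) ^ a - 1))|) ∧
    (∀ p ∈ m.primeFactors, ∀ q ∈ m.primeFactors, p ≠ q →
      Real.exp (-(2 * κ)) ≤ Real.exp (-D (lg p) τ) + Real.exp (-D (lg q) τ) →
      Real.exp (2 * κ) < Real.exp (-D (lg p) τ) + Real.exp (-D (lg q) τ)) := by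
  unfold Zs at hZ
  simp only [Set.mem_union, Set.mem_iUnion, not_or, not_exists] at hZ
  obtain ⟨⟨z1, z2⟩, z3, z4⟩ := hZ
  refine ⟨?_, ?_, ?_⟩
  · intro p hp
    have hpp := Nat.prime_of_mem_primeFactors hp
    have g1 : ¬ |D (lg p) τ - 0| ≤ 1 * κ := z1 p hp
    have g2 : ¬ |D (lg p) τ - lg p| ≤ 1 * κ := z2 p hp
    have h0 := D_nonneg (lg_pos hpp) τ
    have h1 := D_lt (lg_pos hpp) τ
    rw [sub_zero, abs_of_nonneg h0, not_le, one_mul] at g1
    rw [abs_sub_comm, abs_of_nonneg (by linarith), not_le, one_mul] at g2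
    exact D_shift (lg_pos hpp) g1 (by linarith) (hs p hp)
  · intro p hp a ha hle
    have hpp := Nat.prime_of_mem_primeFactors hp
    have ham : a ≤ m := (Nat.lt_pow_self hpp.one_lt).le.trans hle
    have g := z3 (p, a) (Finset.mem_product.2 ⟨hp, Finset.mem_Icc.2 ⟨ha, ham⟩⟩)
    exact not_le.1 g
  · intro p hp q hq hpq h
    have g := z4 (p, q) (Finset.mem_offDiag.2 ⟨hp, hq, hpq⟩)
    by_contra hcon
    exact g ⟨h, not_lt.1 hcon⟩

theorem pair_shift {x x' y y' κ : ℝ} (hx : |x' - x| ≤ κ) (hy : |y' - y| ≤ κ) :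
    Real.exp (-κ) * (Real.exp (-x) + Real.exp (-y)) ≤ Real.exp (-x') + Real.exp (-y') := by
  rw [mul_add, ← Real.exp_add, ← Real.exp_add]
  have h1 := (abs_le.1 hx).2
  have h2 := (abs_le.1 hy).2
  apply add_le_add
  · exact Real.exp_le_exp.2 (by linarith)
  · exact Real.exp_le_exp.2 (by linarith)

theorem stable {m : ℕ} (hm : m ≠ 0) {κ τ₀ : ℝ} (hκ : 0 < κ)
    (hτ₀ : ∀ τ, τ₀ ≤ τ → ∀ p ∈ m.primeFactors, ∀ q ∈ m.primeFactors, p ≠ q →
      ∃ a b : ℕ, 1 ≤ a ∧ 1 ≤ b ∧ τ - κ ≤ a * lg p + b * lg q ∧ (a : ℝ) * lg p + b * lg q ≤ τ)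
    {τ s : ℝ} (h0 : 0 ≤ τ) (h0' : τ₀ ≤ τ) (hs0 : 0 ≤ s) (hZ : τ ∉ Zs m κ)
    (hs : ∀ p ∈ m.primeFactors, ∃ j : ℤ, |s - j * lg p| ≤ κ) :
    τ ∈ J m ↔ τ + s ∈ J m := by
  obtain ⟨s1, s2, s3⟩ := stable_all hZ hs
  have hm0 : (0 : ℝ) < m := by exact_mod_cast Nat.pos_of_ne_zero hm
  -- lower bound for pairs from membership in `J`
  have hJpair : ∀ τ', τ₀ ≤ τ' → τ' ∈ J m → ∀ p ∈ m.primeFactors, ∀ q ∈ m.primeFactors, p ≠ q →
      Real.exp (-κ) ≤ Real.exp (-D (lg p) τ') + Real.exp (-D (lg q) τ') := by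
    intro τ' hτ' hJ p hp q hq hpq
    obtain ⟨a, b, ha, hb, g1, g2⟩ := hτ₀ τ' hτ' p hp q hq hpq
    have := pair_point (J_nonneg hJ) hm hJ (Nat.prime_of_mem_primeFactors hp)
      (Nat.prime_of_mem_primeFactors hq) hpq (Nat.dvd_of_mem_primeFactors hp)
      (Nat.dvd_of_mem_primeFactors hq) ha hb g2
    refine le_trans (Real.exp_le_exp.2 ?_) this
    linarith
  -- reformulation of the prime power condition
  have hppiff : ∀ p : ℕ, p.Prime → ∀ a : ℕ, 1 ≤ a → ∀ τ' : ℝ,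
      ((p : ℝ) ^ a - 1 ≤ m * Real.exp (-D (lg p) τ') ↔
        D (lg p) τ' ≤ Real.log (m / ((p : ℝ) ^ a - 1))) := by
    intro p hp a ha τ'
    have h1 : (2 : ℝ) ≤ (p : ℝ) ^ a := by
      have : 2 ≤ p ^ a := hp.two_le.trans (Nat.le_self_pow (by omega) p)
      exact_mod_cast this
    have h2 : (0 : ℝ) < (p : ℝ) ^ a - 1 := by linarith
    rw [Real.le_log_iff_exp_le (by positivity), le_div_iff₀ h2, Real.exp_neg,
      ← div_eq_mul_inv, le_div_iff₀ (Real.exp_pos _), mul_comm]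
  have h2κ : (1 : ℝ) ≤ Real.exp (2 * κ) := Real.one_le_exp (by linarith)
  have hmul : Real.exp (-κ) * Real.exp (-κ) = Real.exp (-(2 * κ)) := by
    rw [← Real.exp_add]; ring_nf
  have hmul' : Real.exp (-κ) * Real.exp (2 * κ) = Real.exp κ := by
    rw [← Real.exp_add]; ring_nf
  have hκ1 : (1 : ℝ) ≤ Real.exp κ := Real.one_le_exp hκ.le
  have hek := Real.exp_pos (-κ)
  have hek1 : Real.exp (-κ) ≤ 1 := Real.exp_le_one_iff.2 (by linarith)
  constructor
  · intro hJ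
    apply J_of_Rc (by linarith)
    constructor
    · intro p q hp hq hpq hpm hqm
      have hp' : p ∈ m.primeFactors := Nat.mem_primeFactors.2 ⟨hp, hpm, hm⟩
      have hq' : q ∈ m.primeFactors := Nat.mem_primeFactors.2 ⟨hq, hqm, hm⟩
      have g1 := hJpair τ h0' hJ p hp' q hq' hpq
      have g2 := s3 p hp' q hq' hpq (by nlinarith)
      have g3 := pair_shift (s1 p hp') (s1 q hq')
      nlinarith
    · intro p a hp hpm ha hle
      have hp' : p ∈ m.primeFactors := Nat.mem_primeFactors.2 ⟨hp, hpm, hm⟩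
      have g1 := pp_of_J hm hJ hp hpm ha hle
      rw [hppiff p hp a ha] at g1 ⊢
      have g2 := s2 p hp' a ha hle
      rw [abs_sub_comm, abs_of_nonneg (by linarith)] at g2
      have g3 := (abs_le.1 (s1 p hp')).2
      linarith
  · intro hJ
    apply J_of_Rc h0
    constructor
    · intro p q hp hq hpq hpm hqm
      have hp' : p ∈ m.primeFactors := Nat.mem_primeFactors.2 ⟨hp, hpm, hm⟩
      have hq' : q ∈ m.primeFactors := Nat.mem_primeFactors.2 ⟨hq, hqm, hm⟩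
      have g1 := hJpair (τ + s) (by linarith) hJ p hp' q hq' hpq
      have k1 : |D (lg p) τ - D (lg p) (τ + s)| ≤ κ := by
        rw [abs_sub_comm]; exact s1 p hp'
      have k2 : |D (lg q) τ - D (lg q) (τ + s)| ≤ κ := by
        rw [abs_sub_comm]; exact s1 q hq'
      have g3 := pair_shift k1 k2
      have g2 := s3 p hp' q hq' hpq (by
        rw [← hmul]
        exact (mul_le_mul_of_nonneg_left g1 hek.le).trans g3)
      linarith
    · intro p a hp hpm ha hle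
      have hp' : p ∈ m.primeFactors := Nat.mem_primeFactors.2 ⟨hp, hpm, hm⟩
      have g1 := pp_of_J hm hJ hp hpm ha hle
      rw [hppiff p hp a ha] at g1 ⊢
      have g2 := s2 p hp' a ha hle
      have g3 := (abs_le.1 (s1 p hp')).1
      by_contra hcon
      rw [not_le] at hcon
      rw [abs_of_nonneg (by linarith)] at g2
      linarith

theorem hit_eventually (m : ℕ) {κ : ℝ} (hκ : 0 < κ) : ∃ τ₀ : ℝ, ∀ τ, τ₀ ≤ τ →
    ∀ p ∈ m.primeFactors, ∀ q ∈ m.primeFactors, p ≠ q →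
      ∃ a b : ℕ, 1 ≤ a ∧ 1 ≤ b ∧ τ - κ ≤ a * lg p + b * lg q ∧
        (a : ℝ) * lg p + b * lg q ≤ τ := by
  have h : ∀ᶠ τ : ℝ in atTop, ∀ x ∈ m.primeFactors.offDiag,
      ∃ a b : ℕ, 1 ≤ a ∧ 1 ≤ b ∧ τ - κ ≤ a * lg x.1 + b * lg x.2 ∧
        (a : ℝ) * lg x.1 + b * lg x.2 ≤ τ := by
    rw [Filter.eventually_all_finset]
    intro x hx
    obtain ⟨h1, h2, h3⟩ := Finset.mem_offDiag.1 hx
    have hp := Nat.prime_of_mem_primeFactors h1
    have hq := Nat.prime_of_mem_primeFactors h2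
    obtain ⟨s, r, g1, g2⟩ := dirichlet_pair hp hq h3 hκ
    filter_upwards [eventually_ge_atTop
      (((⌈lg x.1 / |(s : ℝ) * lg x.2 - r * lg x.1|⌉₊ : ℝ) * s + 1) * lg x.2 +
      (⌈lg x.1 / |(s : ℝ) * lg x.2 - r * lg x.1|⌉₊ * r + 2) * lg x.1)] with τ hτ
    exact hit (lg_pos hp) (lg_pos hq) g1 g2 rfl hτ
  obtain ⟨τ₀, hτ₀⟩ := eventually_atTop.1 h
  exact ⟨τ₀, fun τ hτ p hp q hq hpq => hτ₀ τ hτ (p, q) (Finset.mem_offDiag.2 ⟨hp, hq, hpq⟩)⟩

open scoped Classical in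
theorem dens_exists (m : ℕ) (hm : m ≠ 0) : ∃ δ : ℝ,
    Tendsto (fun T : ℝ => (volume (J m ∩ Set.Icc 0 T)).toReal / T) atTop (𝓝 δ) := by
  set F : ℝ → ℝ := (J m).indicator (fun _ => (1 : ℝ)) with hF
  have hFm : Measurable F := measurable_const.indicator (measurableSet_J m)
  have hF0 : ∀ τ, 0 ≤ F τ := fun τ => Set.indicator_nonneg (fun _ _ => zero_le_one) τ
  have hF1 : ∀ τ, F τ ≤ 1 := fun τ => Set.indicator_le_self' (fun _ _ => zero_le_one) τ
  have hint : ∀ T : ℝ, 0 ≤ T → ∫ τ in (0 : ℝ)..T, F τ = (volume (J m ∩ Set.Icc 0 T)).toReal := by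
    intro T hT
    rw [intervalIntegral.integral_of_le hT, ← integral_Icc_eq_integral_Ioc, hF,
      integral_indicator (measurableSet_J m), Measure.restrict_restrict (measurableSet_J m)]
    simp [Measure.real]
  obtain ⟨δ, hδ⟩ := mean_exists hFm hF0 hF1 (by
    intro ε hε
    obtain ⟨κ, hκ1, hκ0⟩ := ((negl_Zs m (ε / 2) (by positivity)).and
      self_mem_nhdsWithin).exists
    obtain ⟨T₁, hT₁⟩ := eventually_atTop.1 hκ1
    obtain ⟨τ₀, hτ₀⟩ := hit_eventually m hκ0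
    obtain ⟨ℓ, hℓ, hap⟩ := almost_periods m.primeFactors lg
      (fun p hp => lg_pos (Nat.prime_of_mem_primeFactors hp)) hκ0
    set τ₁ := max τ₀ 0 with hτ₁
    have hτ₁0 : 0 ≤ τ₁ := le_max_right _ _
    refine ⟨ℓ, max (max T₁ (2 * τ₁ / ε)) 1, hℓ, lt_of_lt_of_le one_pos (le_max_right _ _), ?_⟩
    intro a ha
    obtain ⟨s, hs1, hs2, hs3⟩ := hap a ha
    refine ⟨s, hs1, hs2, ?_⟩
    intro T hT
    have hT1 : T₁ ≤ T := (le_max_left _ _).trans ((le_max_left _ _).trans hT)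
    have hT2 : 2 * τ₁ / ε ≤ T := (le_max_right _ _).trans ((le_max_left _ _).trans hT)
    have hT3 : 1 ≤ T := (le_max_right _ _).trans hT
    have hT0 : 0 ≤ T := by linarith
    set G : Set ℝ := Set.Icc 0 τ₁ ∪ Zs m κ with hG
    have hGm : MeasurableSet G := measurableSet_Icc.union (measurableSet_Zs m κ)
    set g : ℝ → ℝ := G.indicator (fun _ => (1 : ℝ)) with hg
    have hgm : Measurable g := measurable_const.indicator hGm
    have hg0 : ∀ τ, 0 ≤ g τ := fun τ => Set.indicator_nonneg (fun _ _ => zero_le_one) τ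
    have hg1 : ∀ τ, g τ ≤ 1 := fun τ => Set.indicator_le_self' (fun _ _ => zero_le_one) τ
    have hpt : ∀ τ ∈ Set.Icc (0 : ℝ) T, |F (τ + s) - F τ| ≤ g τ := by
      intro τ hτ
      by_cases hτG : τ ∈ G
      · have e1 : g τ = 1 := by rw [hg, Set.indicator_of_mem hτG]
        rw [e1, abs_le]
        constructor <;> linarith [hF0 τ, hF1 τ, hF0 (τ + s), hF1 (τ + s)]
      · have hτG' : τ ∉ Set.Icc 0 τ₁ ∧ τ ∉ Zs m κ := by
          rw [hG, Set.mem_union, not_or] at hτG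
          exact hτG
        have h5 : τ₁ < τ := by
          by_contra hcon
          exact hτG'.1 ⟨hτ.1, not_lt.1 hcon⟩
        have h6 := stable hm hκ0 hτ₀ hτ.1 ((le_max_left _ _).trans h5.le) (by linarith)
          hτG'.2 hs3
        have h7 : F (τ + s) = F τ := by
          rw [hF]
          by_cases h8 : τ ∈ J m
          · rw [Set.indicator_of_mem h8, Set.indicator_of_mem (h6.1 h8)]
          · rw [Set.indicator_of_notMem h8, Set.indicator_of_notMem (fun h9 => h8 (h6.2 h9))]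
        rw [h7, sub_self, abs_zero]
        exact hg0 τ
    have hFs : IntervalIntegrable (fun τ => F (τ + s) - F τ) volume 0 T :=
      (ii_of_bdd (F := fun τ => F (τ + s)) (hFm.comp (measurable_id.add_const s))
        (fun _ => hF0 _) (fun _ => hF1 _) 0 T).sub (ii_of_bdd hFm hF0 hF1 0 T)
    have hgi := ii_of_bdd hgm hg0 hg1 0 T
    have h8 : |∫ τ in (0 : ℝ)..T, (F (τ + s) - F τ)| ≤ ∫ τ in (0 : ℝ)..T, g τ :=
      (intervalIntegral.abs_integral_le_integral_abs hT0).trans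
        (intervalIntegral.integral_mono_on hT0 hFs.abs hgi hpt)
    have h9 : ∫ τ in (0 : ℝ)..T, g τ = (volume (G ∩ Set.Icc 0 T)).toReal := by
      rw [intervalIntegral.integral_of_le hT0, ← integral_Icc_eq_integral_Ioc, hg,
        integral_indicator hGm, Measure.restrict_restrict hGm]
      simp [Measure.real]
    have h10 : volume (G ∩ Set.Icc 0 T) ≤ ENNReal.ofReal (τ₁ + ε / 2 * T) := by
      rw [hG, Set.union_inter_distrib_right]
      refine (measure_union_le _ _).trans ?_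
      have h11 : volume (Set.Icc 0 τ₁ ∩ Set.Icc 0 T) ≤ ENNReal.ofReal τ₁ := by
        refine (measure_mono Set.inter_subset_left).trans ?_
        rw [Real.volume_Icc, sub_zero]
      refine (add_le_add h11 (hT₁ T hT1)).trans ?_
      rw [← ENNReal.ofReal_add hτ₁0 (by positivity)]
    have h12 : (volume (G ∩ Set.Icc 0 T)).toReal ≤ τ₁ + ε / 2 * T :=
      ENNReal.toReal_le_of_le_ofReal (by positivity) h10
    rw [h9] at h8
    rw [div_le_iff₀ hε] at hT2
    linarith)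
  refine ⟨δ, hδ.congr' ?_⟩
  filter_upwards [eventually_ge_atTop (0 : ℝ)] with T hT
  rw [hint T hT]

end Pool.Agent.KS6_8.LM
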