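import Mathlib
import Pool.Agent.KS6_8.LM.Dens

set_option autoImplicit false

open MeasureTheory Filter Topology

namespace Pool.Agent.KS6_8.LM

open Pool.Agent.Helper923.PPS (pw Iset measurableSet_Iset)

/-- measure of `J m` up to `T` -/
noncomputable def Mt (T : ℝ) (m : ℕ) : ℝ := (volume (J m ∩ Set.Icc 0 T)).toReal

theorem Mt_fin (T : ℝ) (m : ℕ) : volume (J m ∩ Set.Icc 0 T) ≠ ⊤ := by
  apply ne_of_lt
  refine (measure_mono Set.inter_subset_right).trans_lt ?_
  rw [Real.volume_Icc]; exact ENNReal.ofReal_lt_top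

theorem Mt_nonneg (T : ℝ) (m : ℕ) : 0 ≤ Mt T m := ENNReal.toReal_nonneg

theorem Mt_SW {T : ℝ} (hT : 1 ≤ T) (m : ℕ) :
    (volume (SW T m)).toReal ≤ Mt T m ∧ Mt T m ≤ (volume (SW T m)).toReal + Real.sqrt T := by
  have hs0 : 0 ≤ Real.sqrt T := Real.sqrt_nonneg T
  constructor
  · apply ENNReal.toReal_mono (Mt_fin T m)
    apply measure_mono
    rintro τ ⟨⟨h1, h2⟩, h3⟩
    exact ⟨h3, by linarith, h2⟩
  · have h1 : volume (J m ∩ Set.Icc 0 T) ≤ volume (SW T m) + ENNReal.ofReal (Real.sqrt T) := by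
      have h2 : J m ∩ Set.Icc 0 T ⊆ SW T m ∪ Set.Icc 0 (Real.sqrt T) := by
        rintro τ ⟨h3, h4, h5⟩
        rcases le_or_gt (Real.sqrt T) τ with h | h
        · exact Or.inl ⟨⟨h, h5⟩, h3⟩
        · exact Or.inr ⟨h4, h.le⟩
      refine (measure_mono h2).trans ((measure_union_le _ _).trans ?_)
      rw [Real.volume_Icc, sub_zero]
    have h2 := ENNReal.toReal_mono (ENNReal.add_ne_top.2 ⟨SW_fin T m, ENNReal.ofReal_ne_top⟩) h1
    rwa [ENNReal.toReal_add (SW_fin T m) ENNReal.ofReal_ne_top, ENNReal.toReal_ofReal hs0] at h2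

theorem log4_tendsto : Tendsto (fun T : ℝ => (Real.log T) ^ 4) atTop atTop :=
  (tendsto_pow_atTop (by norm_num)).comp Real.tendsto_log_atTop

theorem sqrt_ratio : Tendsto (fun T : ℝ => Real.sqrt T / T) atTop (𝓝 0) := by
  have h1 : Tendsto (fun T : ℝ => (Real.sqrt T)⁻¹) atTop (𝓝 0) :=
    tendsto_inv_atTop_zero.comp Real.tendsto_sqrt_atTop
  refine h1.congr' ?_
  filter_upwards [eventually_gt_atTop (0 : ℝ)] with T hT
  have h2 : 0 < Real.sqrt T := Real.sqrt_pos.2 hT
  rw [inv_eq_one_div, div_eq_div_iff h2.ne' hT.ne', one_mul]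
  exact (Real.mul_self_sqrt hT.le).symm

theorem sqrt_log : Tendsto (fun T : ℝ => Real.sqrt T / T * (1 + (Real.log T) ^ 4)) atTop (𝓝 0) := by
  have h1 : Tendsto (fun T : ℝ => (Real.log T)⁻¹) atTop (𝓝 0) :=
    tendsto_inv_atTop_zero.comp Real.tendsto_log_atTop
  refine squeeze_zero' ?_ ?_ h1
  · filter_upwards [eventually_gt_atTop (0 : ℝ)] with T hT
    positivity
  · filter_upwards [big_eventually, Real.tendsto_log_atTop.eventually_ge_atTop 1] with T hT hl
    obtain ⟨hT1, ha, hb⟩ := hT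
    have hT0 : 0 < T := by linarith
    have hs : 0 < Real.sqrt T := Real.sqrt_pos.2 hT0
    have e1 : Real.sqrt T / T = 1 / Real.sqrt T := by
      rw [div_eq_div_iff hT0.ne' hs.ne', one_mul]
      exact Real.mul_self_sqrt hT0.le
    rw [e1, inv_eq_one_div, div_mul_eq_mul_div, one_mul, div_le_div_iff₀ hs (by linarith)]
    set a := (Real.log T) ^ 4 with hadef
    have e2 : Real.log T ≤ a := le_self_pow₀ hl (by norm_num)
    have e3 : a ^ 2 ≤ a ^ 13 := pow_le_pow_right₀ ha (by norm_num)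
    have e4 : (1 + a) * Real.log T ≤ (1 + a) * a := by gcongr
    nlinarith

theorem W_tendsto {m : ℕ} {d : ℝ}
    (h : Tendsto (fun T : ℝ => Mt T m / T) atTop (𝓝 d)) :
    Tendsto (fun T : ℝ => W T m) atTop (𝓝 d) := by
  have hlow : Tendsto (fun T : ℝ => Mt T m / T - Real.sqrt T / T) atTop (𝓝 d) := by
    have := h.sub sqrt_ratio
    rwa [sub_zero] at this
  have hY : ∀ᶠ T : ℝ in atTop, (m : ℝ) ≤ Real.exp ((Real.log T) ^ 4) :=
    (Real.tendsto_exp_atTop.comp log4_tendsto).eventually_ge_atTop (m : ℝ)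
  refine tendsto_of_tendsto_of_tendsto_of_le_of_le' hlow h ?_ ?_
  · filter_upwards [hY, eventually_ge_atTop (1 : ℝ)] with T hT hT1
    unfold W
    rw [if_pos hT, ← sub_div]
    have := (Mt_SW hT1 m).2
    gcongr
    linarith
  · filter_upwards [hY, eventually_ge_atTop (1 : ℝ)] with T hT hT1
    unfold W
    rw [if_pos hT]
    have := (Mt_SW hT1 m).1
    gcongr

theorem sum_lim (δ : ℕ → ℝ)
    (hδ : ∀ m : ℕ, m ≠ 0 → Tendsto (fun T : ℝ => Mt T m / T) atTop (𝓝 (δ m))) :
    (∀ m : ℕ, m ≠ 0 → 0 ≤ δ m) ∧ Summable (fun m : ℕ => δ m / m) ∧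
    Tendsto (fun T : ℝ => (∑ m ∈ Finset.Icc 1 ⌊Real.exp ((Real.log T) ^ 4)⌋₊, Mt T m / m) / T)
      atTop (𝓝 (∑' m : ℕ, δ m / m)) := by
  obtain ⟨B, hB0, hBs, hB⟩ := majorant
  have hδ0 : ∀ m : ℕ, m ≠ 0 → 0 ≤ δ m := fun m hm =>
    ge_of_tendsto (hδ m hm) (by
      filter_upwards [eventually_gt_atTop (0 : ℝ)] with T hT
      exact div_nonneg (Mt_nonneg T m) hT.le)
  have hδB : ∀ m : ℕ, m ≠ 0 → δ m ≤ B m := fun m hm =>
    le_of_tendsto (W_tendsto (hδ m hm)) (by
      filter_upwards [big_eventually] with T hT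
      exact hB T hT m)
  have hsum : Summable (fun m : ℕ => δ m / m) := by
    apply Summable.of_nonneg_of_le _ _ hBs
    · intro m
      rcases eq_or_ne m 0 with rfl | hm
      · simp
      · exact div_nonneg (hδ0 m hm) (Nat.cast_nonneg _)
    · intro m
      rcases eq_or_ne m 0 with rfl | hm
      · simp
      · exact div_le_div_of_nonneg_right (hδB m hm) (Nat.cast_nonneg _)
  refine ⟨hδ0, hsum, ?_⟩
  have hdom : Tendsto (fun T : ℝ => ∑' m : ℕ, W T m / m) atTop (𝓝 (∑' m : ℕ, δ m / m)) := by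
    apply tendsto_tsum_of_dominated_convergence hBs
    · intro m
      rcases eq_or_ne m 0 with rfl | hm
      · simp
      · exact (W_tendsto (hδ m hm)).div_const _
    · filter_upwards [big_eventually] with T hT m
      rw [Real.norm_eq_abs, abs_of_nonneg (div_nonneg ((WH_W hT).nonneg m) (Nat.cast_nonneg _))]
      exact div_le_div_of_nonneg_right (hB T hT m) (Nat.cast_nonneg _)
  have hts : ∀ T : ℝ, ∑' m : ℕ, W T m / m =
      ∑ m ∈ Finset.Icc 1 ⌊Real.exp ((Real.log T) ^ 4)⌋₊, W T m / m := by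
    intro T
    apply tsum_eq_sum
    intro m hm
    rcases eq_or_ne m 0 with rfl | hm0
    · simp
    · have h1 : ¬ (m : ℝ) ≤ Real.exp ((Real.log T) ^ 4) := by
        intro h
        apply hm
        rw [Finset.mem_Icc]
        exact ⟨Nat.one_le_iff_ne_zero.2 hm0, (Nat.le_floor_iff (Real.exp_pos _).le).2 h⟩
      unfold W
      rw [if_neg h1, zero_div]
  have hupper : Tendsto (fun T : ℝ => ∑' m : ℕ, W T m / m +
      Real.sqrt T / T * (1 + (Real.log T) ^ 4)) atTop (𝓝 (∑' m : ℕ, δ m / m)) := by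
    have := hdom.add sqrt_log
    rwa [add_zero] at this
  refine tendsto_of_tendsto_of_tendsto_of_le_of_le' hdom hupper ?_ ?_
  · filter_upwards [eventually_ge_atTop (1 : ℝ)] with T hT1
    rw [hts T, Finset.sum_div]
    apply Finset.sum_le_sum
    intro m hm
    have h1 : (m : ℝ) ≤ Real.exp ((Real.log T) ^ 4) :=
      (Nat.le_floor_iff (Real.exp_pos _).le).1 (Finset.mem_Icc.1 hm).2
    unfold W
    rw [if_pos h1, div_right_comm]
    have := (Mt_SW hT1 m).1
    gcongr
  · filter_upwards [eventually_ge_atTop (1 : ℝ), Real.tendsto_log_atTop.eventually_ge_atTop 0]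
      with T hT1 hlog
    have hT0 : 0 < T := by linarith
    have hharm := Pool.Agent.Helper923.PPS.harm (M := Real.exp ((Real.log T) ^ 4))
      (Real.one_le_exp (by positivity))
    rw [Real.log_exp] at hharm
    have h2 : (∑ m ∈ Finset.Icc 1 ⌊Real.exp ((Real.log T) ^ 4)⌋₊, Mt T m / m) / T ≤
        ∑ m ∈ Finset.Icc 1 ⌊Real.exp ((Real.log T) ^ 4)⌋₊,
          (W T m / m + Real.sqrt T / T * ((m : ℝ))⁻¹) := by
      rw [Finset.sum_div]
      apply Finset.sum_le_sum
      intro m hm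
      have h1 : (m : ℝ) ≤ Real.exp ((Real.log T) ^ 4) :=
        (Nat.le_floor_iff (Real.exp_pos _).le).1 (Finset.mem_Icc.1 hm).2
      unfold W
      rw [if_pos h1]
      have h3 := (Mt_SW hT1 m).2
      calc Mt T m / m / T ≤ ((volume (SW T m)).toReal + Real.sqrt T) / m / T := by gcongr
        _ = _ := by ring
    refine h2.trans ?_
    rw [Finset.sum_add_distrib, ← Finset.mul_sum, hts T]
    gcongr

end Pool.Agent.KS6_8.LM
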