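import Mathlib
import Pool.Agent.KS6_8.LM.SumLim

set_option autoImplicit false

open MeasureTheory Filter Topology

namespace Pool.Agent.KS6_8.LM

open Pool.Agent.Helper923.PPS (pw Iset measurableSet_Iset)

theorem vol_change {X : ℝ} (hX : 1 ≤ X) (m : ℕ) :
    ∫⁻ x in Iset m ∩ Set.Icc 1 X, ENNReal.ofReal (1 / x) =
      volume (J m ∩ Set.Icc 0 (Real.log X)) := by
  have hX0 : 0 < X := by linarith
  have himg : Iset m ∩ Set.Icc 1 X = Real.exp '' (J m ∩ Set.Icc 0 (Real.log X)) := by
    ext x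
    constructor
    · rintro ⟨h1, h2, h3⟩
      have hx0 : 0 < x := by linarith
      refine ⟨Real.log x, ⟨?_, ?_, ?_⟩, Real.exp_log hx0⟩
      · change Real.exp (Real.log x) ∈ Iset m
        rwa [Real.exp_log hx0]
      · exact Real.log_nonneg h2
      · exact Real.log_le_log hx0 h3
    · rintro ⟨τ, ⟨h1, h2, h3⟩, rfl⟩
      refine ⟨h1, Real.one_le_exp h2, ?_⟩
      rw [← Real.le_log_iff_exp_le hX0]
      exact h3
  have hms : MeasurableSet (J m ∩ Set.Icc 0 (Real.log X)) :=
    (measurableSet_J m).inter measurableSet_Icc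
  rw [himg, lintegral_image_eq_lintegral_abs_deriv_mul hms
    (fun x _ => (Real.hasDerivAt_exp x).hasDerivWithinAt) (Real.exp_injective.injOn)]
  have h1 : ∀ τ : ℝ, ENNReal.ofReal |Real.exp τ| * ENNReal.ofReal (1 / Real.exp τ) = 1 := by
    intro τ
    rw [abs_of_pos (Real.exp_pos τ), ← ENNReal.ofReal_mul (Real.exp_pos τ).le,
      mul_one_div, div_self (Real.exp_pos τ).ne', ENNReal.ofReal_one]
  simp only [h1, lintegral_one, Measure.restrict_apply_univ]

theorem inv_sq_int {s X : ℝ} (hs : 0 < s) (hsX : s ≤ X) :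
    ∫⁻ t in Set.Ioc s X, ENNReal.ofReal (1 / t ^ 2) = ENNReal.ofReal (1 / s - 1 / X) := by
  have hderiv : ∀ t ∈ Set.uIcc s X, HasDerivAt (fun t : ℝ => -(1 / t)) (1 / t ^ 2) t := by
    intro t ht
    rw [Set.uIcc_of_le hsX] at ht
    have ht0 : t ≠ 0 := by linarith [ht.1]
    have := (hasDerivAt_inv ht0).neg
    rw [neg_neg] at this
    simp only [one_div]
    exact this
  have hcont : ContinuousOn (fun t : ℝ => 1 / t ^ 2) (Set.uIcc s X) := by
    rw [Set.uIcc_of_le hsX]
    apply ContinuousOn.div continuousOn_const (continuousOn_pow 2)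
    intro t ht
    have : 0 < t := by linarith [ht.1]
    positivity
  have hint : IntervalIntegrable (fun t : ℝ => 1 / t ^ 2) volume s X := hcont.intervalIntegrable
  have h1 := intervalIntegral.integral_eq_sub_of_hasDerivAt hderiv hint
  rw [intervalIntegral.integral_of_le hsX] at h1
  rw [← ofReal_integral_eq_lintegral_ofReal]
  · rw [h1]
    congr 1
    ring
  · exact (intervalIntegrable_iff_integrableOn_Ioc_of_le hsX).1 hint
  · apply Eventually.of_forall
    intro t
    change 0 ≤ 1 / t ^ 2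
    positivity

theorem fub {X : ℝ} (m : ℕ) :
    ∫⁻ t in Set.Ioc 1 X, ENNReal.ofReal (1 / t ^ 2) * volume (Iset m ∩ Set.Icc 1 t) =
      ∫⁻ s in Iset m ∩ Set.Icc 1 X, ENNReal.ofReal (1 / s - 1 / X) := by
  set R : Set (ℝ × ℝ) := {z | z.1 ∈ Set.Ioc 1 X ∧ z.2 ∈ Iset m ∧ 1 ≤ z.2 ∧ z.2 ≤ z.1} with hR
  have hRm : MeasurableSet R := by
    have h1 : MeasurableSet {z : ℝ × ℝ | z.1 ∈ Set.Ioc 1 X} := measurable_fst measurableSet_Ioc
    have h2 : MeasurableSet {z : ℝ × ℝ | z.2 ∈ Iset m} := measurable_snd (measurableSet_Iset m)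
    have h3 : MeasurableSet {z : ℝ × ℝ | 1 ≤ z.2} := measurableSet_le measurable_const measurable_snd
    have h4 : MeasurableSet {z : ℝ × ℝ | z.2 ≤ z.1} := measurableSet_le measurable_snd measurable_fst
    exact h1.inter (h2.inter (h3.inter h4))
  set ψ : ℝ → ℝ → ENNReal := fun t s => R.indicator (fun z => ENNReal.ofReal (1 / z.1 ^ 2)) (t, s)
    with hψ
  have hψm : Measurable (Function.uncurry ψ) := by
    have : Function.uncurry ψ = R.indicator (fun z => ENNReal.ofReal (1 / z.1 ^ 2)) := by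
      ext ⟨t, s⟩; rfl
    rw [this]
    apply Measurable.indicator _ hRm
    fun_prop
  have hswap : ∫⁻ t, ∫⁻ s, ψ t s = ∫⁻ s, ∫⁻ t, ψ t s :=
    lintegral_lintegral_swap hψm.aemeasurable
  have hL : ∫⁻ t in Set.Ioc 1 X, ENNReal.ofReal (1 / t ^ 2) * volume (Iset m ∩ Set.Icc 1 t) =
      ∫⁻ t, ∫⁻ s, ψ t s := by
    rw [← lintegral_indicator measurableSet_Ioc]
    apply lintegral_congr
    intro t
    by_cases ht : t ∈ Set.Ioc 1 X
    · rw [Set.indicator_of_mem ht]
      have h1 : ∀ s, ψ t s = (Iset m ∩ Set.Icc 1 t).indicator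
          (fun _ => ENNReal.ofReal (1 / t ^ 2)) s := by
        intro s
        by_cases hs : s ∈ Iset m ∩ Set.Icc 1 t
        · rw [Set.indicator_of_mem hs]
          change R.indicator (fun z => ENNReal.ofReal (1 / z.1 ^ 2)) (t, s) = _
          rw [Set.indicator_of_mem]
          exact ⟨ht, hs.1, hs.2.1, hs.2.2⟩
        · rw [Set.indicator_of_notMem hs]
          change R.indicator (fun z => ENNReal.ofReal (1 / z.1 ^ 2)) (t, s) = _
          rw [Set.indicator_of_notMem]
          rintro ⟨_, h2, h3, h4⟩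
          exact hs ⟨h2, h3, h4⟩
      rw [lintegral_congr h1, lintegral_indicator ((measurableSet_Iset m).inter measurableSet_Icc),
        lintegral_const, Measure.restrict_apply_univ]
    · rw [Set.indicator_of_notMem ht]
      symm
      have h1 : ∀ s, ψ t s = 0 := by
        intro s
        change R.indicator (fun z => ENNReal.ofReal (1 / z.1 ^ 2)) (t, s) = _
        rw [Set.indicator_of_notMem]
        rintro ⟨h2, _⟩
        exact ht h2
      rw [lintegral_congr h1, lintegral_zero]
  have hRR : ∫⁻ s, ∫⁻ t, ψ t s =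
      ∫⁻ s in Iset m ∩ Set.Icc 1 X, ENNReal.ofReal (1 / s - 1 / X) := by
    rw [← lintegral_indicator ((measurableSet_Iset m).inter measurableSet_Icc)]
    apply lintegral_congr
    intro s
    by_cases hs : s ∈ Iset m ∩ Set.Icc 1 X
    · rw [Set.indicator_of_mem hs]
      obtain ⟨hs1, hs2, hs3⟩ := hs
      rw [← inv_sq_int (by linarith) hs3, ← lintegral_indicator measurableSet_Ioc]
      -- agree except possibly at `t = s`
      apply lintegral_congr_ae
      have hne : ∀ᵐ t : ℝ, t ≠ s := by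
        rw [ae_iff]
        simp
      filter_upwards [hne] with t hts
      by_cases ht : t ∈ Set.Ioc s X
      · rw [Set.indicator_of_mem ht]
        change R.indicator (fun z => ENNReal.ofReal (1 / z.1 ^ 2)) (t, s) = _
        rw [Set.indicator_of_mem]
        exact ⟨⟨lt_of_le_of_lt hs2 ht.1, ht.2⟩, hs1, hs2, ht.1.le⟩
      · rw [Set.indicator_of_notMem ht]
        change R.indicator (fun z => ENNReal.ofReal (1 / z.1 ^ 2)) (t, s) = _
        rw [Set.indicator_of_notMem]
        rintro ⟨h1, h2, h3, h4⟩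
        exact ht ⟨lt_of_le_of_ne h4 (Ne.symm hts), h1.2⟩
    · rw [Set.indicator_of_notMem hs]
      have h1 : ∀ t, ψ t s = 0 := by
        intro t
        change R.indicator (fun z => ENNReal.ofReal (1 / z.1 ^ 2)) (t, s) = _
        rw [Set.indicator_of_notMem]
        rintro ⟨h2, h3, h4, h5⟩
        exact hs ⟨h3, h4, h5.trans h2.2⟩
      rw [lintegral_congr h1, lintegral_zero]
  rw [hL, hswap, hRR]

/-- measure of `I m` up to `t` -/
noncomputable def vt (m : ℕ) (t : ℝ) : ℝ := (volume (Iset m ∩ Set.Icc 1 t)).toReal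

theorem vt_fin (m : ℕ) (t : ℝ) : volume (Iset m ∩ Set.Icc 1 t) ≠ ⊤ := by
  apply ne_of_lt
  refine (measure_mono Set.inter_subset_right).trans_lt ?_
  rw [Real.volume_Icc]; exact ENNReal.ofReal_lt_top

theorem vt_nonneg (m : ℕ) (t : ℝ) : 0 ≤ vt m t := ENNReal.toReal_nonneg

theorem vt_mono (m : ℕ) : Monotone (vt m) := by
  intro t t' h
  apply ENNReal.toReal_mono (vt_fin m t')
  apply measure_mono
  rintro x ⟨h1, h2, h3⟩
  exact ⟨h1, h2, h3.trans h⟩

theorem vt_le (m : ℕ) {t : ℝ} (ht : 1 ≤ t) : vt m t ≤ t := by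
  have h1 : volume (Iset m ∩ Set.Icc 1 t) ≤ ENNReal.ofReal t := by
    refine (measure_mono Set.inter_subset_right).trans ?_
    rw [Real.volume_Icc]
    apply ENNReal.ofReal_le_ofReal
    linarith
  exact ENNReal.toReal_le_of_le_ofReal (by linarith) h1

theorem vt_int (m : ℕ) {a b : ℝ} (ha : 1 ≤ a) (hab : a ≤ b) :
    IntervalIntegrable (fun t => vt m t / t ^ 2) volume a b := by
  rw [intervalIntegrable_iff_integrableOn_Ioc_of_le hab]
  apply Measure.integrableOn_of_bounded (M := b)
  · exact ne_of_lt measure_Ioc_lt_top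
  · exact ((vt_mono m).measurable.div (measurable_id.pow_const 2)).aestronglyMeasurable
  · rw [ae_restrict_iff' measurableSet_Ioc]
    apply Eventually.of_forall
    intro t ht
    have ht1 : 1 ≤ t := by linarith [ht.1]
    have h1 := vt_le m ht1
    have h2 := vt_nonneg m t
    rw [Real.norm_eq_abs, abs_of_nonneg (by positivity), div_le_iff₀ (by positivity)]
    have : 1 ≤ t ^ 2 := one_le_pow₀ ht1
    nlinarith [ht.2]

theorem vt_integral {X : ℝ} (hX : 1 ≤ X) (m : ℕ) :
    Mt (Real.log X) m - 1 ≤ ∫ t in (1 : ℝ)..X, vt m t / t ^ 2 ∧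
      ∫ t in (1 : ℝ)..X, vt m t / t ^ 2 ≤ Mt (Real.log X) m := by
  have hX0 : 0 < X := by linarith
  have h0 : ∫⁻ t in Set.Ioc 1 X, ENNReal.ofReal (vt m t / t ^ 2) =
      ∫⁻ s in Iset m ∩ Set.Icc 1 X, ENNReal.ofReal (1 / s - 1 / X) := by
    rw [← fub m]
    apply lintegral_congr
    intro t
    rw [show vt m t / t ^ 2 = 1 / t ^ 2 * vt m t by ring, ENNReal.ofReal_mul (by positivity)]
    unfold vt
    rw [ENNReal.ofReal_toReal (vt_fin m t)]
  have h1 : ENNReal.ofReal (∫ t in (1 : ℝ)..X, vt m t / t ^ 2) =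
      ∫⁻ s in Iset m ∩ Set.Icc 1 X, ENNReal.ofReal (1 / s - 1 / X) := by
    rw [← h0, intervalIntegral.integral_of_le hX, ofReal_integral_eq_lintegral_ofReal]
    · exact (intervalIntegrable_iff_integrableOn_Ioc_of_le hX).1 (vt_int m le_rfl hX)
    · apply Eventually.of_forall
      intro t
      exact div_nonneg (vt_nonneg m t) (by positivity)
  have hnn : 0 ≤ ∫ t in (1 : ℝ)..X, vt m t / t ^ 2 :=
    intervalIntegral.integral_nonneg hX (fun t _ => div_nonneg (vt_nonneg m t) (by positivity))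
  have hMt : ENNReal.ofReal (Mt (Real.log X) m) =
      ∫⁻ x in Iset m ∩ Set.Icc 1 X, ENNReal.ofReal (1 / x) := by
    rw [vol_change hX m]
    unfold Mt
    rw [ENNReal.ofReal_toReal (Mt_fin _ m)]
  have hms : MeasurableSet (Iset m ∩ Set.Icc 1 X) := (measurableSet_Iset m).inter measurableSet_Icc
  constructor
  · have h2 : ENNReal.ofReal (Mt (Real.log X) m) ≤
        ENNReal.ofReal (∫ t in (1 : ℝ)..X, vt m t / t ^ 2) + 1 := by
      rw [hMt, h1]
      have h3 : ∫⁻ x in Iset m ∩ Set.Icc 1 X, ENNReal.ofReal (1 / x) ≤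
          ∫⁻ x in Iset m ∩ Set.Icc 1 X,
            (ENNReal.ofReal (1 / x - 1 / X) + ENNReal.ofReal (1 / X)) := by
        apply setLIntegral_mono' hms
        intro x hx
        rw [← ENNReal.ofReal_add]
        · apply ENNReal.ofReal_le_ofReal; linarith
        · have := one_div_le_one_div_of_le (by linarith [hx.2.1] : 0 < x) hx.2.2
          linarith
        · positivity
      refine h3.trans ?_
      rw [lintegral_add_right _ measurable_const, lintegral_const, Measure.restrict_apply_univ]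
      gcongr
      have h4 : volume (Iset m ∩ Set.Icc 1 X) ≤ ENNReal.ofReal X := by
        refine (measure_mono Set.inter_subset_right).trans ?_
        rw [Real.volume_Icc]
        apply ENNReal.ofReal_le_ofReal
        linarith
      calc ENNReal.ofReal (1 / X) * volume (Iset m ∩ Set.Icc 1 X)
          ≤ ENNReal.ofReal (1 / X) * ENNReal.ofReal X := by gcongr
        _ = 1 := by
          rw [← ENNReal.ofReal_mul (by positivity), one_div, inv_mul_cancel₀ hX0.ne',
            ENNReal.ofReal_one]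
    rw [← ENNReal.ofReal_one, ← ENNReal.ofReal_add hnn zero_le_one,
      ENNReal.ofReal_le_ofReal_iff (by positivity)] at h2
    linarith
  · have h2 : ENNReal.ofReal (∫ t in (1 : ℝ)..X, vt m t / t ^ 2) ≤
        ENNReal.ofReal (Mt (Real.log X) m) := by
      rw [hMt, h1]
      apply setLIntegral_mono' hms
      intro x hx
      apply ENNReal.ofReal_le_ofReal
      have : 0 < 1 / X := by positivity
      linarith
    rwa [ENNReal.ofReal_le_ofReal_iff (Mt_nonneg _ _)] at h2

end Pool.Agent.KS6_8.LM
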