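import Mathlib
import Pool.Agent.KS6_8.LM.Fub
import Pool.Graph.R_seed8.Helper923.PPS.CutF

set_option autoImplicit false

open MeasureTheory Filter Topology

namespace Pool.Agent.KS6_8.LM

open Pool.Agent.Helper923.PPS (pw Iset measurableSet_Iset NN GY GY_mono f F)

open scoped Classical in
/-- the `n < X` with `f n = F n` -/
noncomputable def AX (X : ℝ) : Finset ℕ :=
  (Finset.Icc 1 ⌊X⌋₊).filter (fun n : ℕ => (n : ℝ) < X ∧ f n = F n)

theorem mem_AX {X : ℝ} {n : ℕ} : n ∈ AX X ↔ 1 ≤ n ∧ (n : ℝ) < X ∧ f n = F n := by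
  unfold AX
  rw [Finset.mem_filter, Finset.mem_Icc]
  constructor
  · rintro ⟨⟨h1, -⟩, h2, h3⟩
    exact ⟨h1, h2, h3⟩
  · rintro ⟨h1, h2, h3⟩
    have hX : 0 ≤ X := le_trans (Nat.cast_nonneg n) h2.le
    exact ⟨⟨h1, (Nat.le_floor_iff hX).2 h2.le⟩, h2, h3⟩

theorem NN_eq (X : ℝ) : NN X = (AX X).card := rfl

theorem NN_mono : Monotone (fun X : ℝ => (NN X : ℝ)) := by
  intro t t' h
  change ((NN t : ℕ) : ℝ) ≤ NN t'
  rw [NN_eq, NN_eq]
  have : AX t ⊆ AX t' := by
    intro n hn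
    rw [mem_AX] at hn ⊢
    exact ⟨hn.1, hn.2.1.trans_le h, hn.2.2⟩
  exact_mod_cast Finset.card_le_card this

/-- the kernel -/
noncomputable def hk (c t : ℝ) : ℝ := (Real.log t - c) / t ^ 2

theorem hk_meas (c : ℝ) : Measurable (hk c) :=
  (Real.measurable_log.sub_const c).div (measurable_id.pow_const 2)

theorem hk_cont (c : ℝ) {a b : ℝ} (ha : 0 < a) (hab : a ≤ b) :
    ContinuousOn (hk c) (Set.uIcc a b) := by
  rw [Set.uIcc_of_le hab]
  apply ContinuousOn.div
  · apply ContinuousOn.sub _ continuousOn_const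
    apply Real.continuousOn_log.mono
    intro t ht
    have : 0 < t := by linarith [ht.1]
    exact this.ne'
  · exact continuousOn_pow 2
  · intro t ht
    have : 0 < t := by linarith [ht.1]
    positivity

theorem hk_int {a b : ℝ} (ha : 0 < a) (hab : a ≤ b) :
    ∫ t in a..b, hk 1 t = Real.log a / a - Real.log b / b := by
  have hderiv : ∀ t ∈ Set.uIcc a b, HasDerivAt (fun t : ℝ => -(Real.log t / t)) (hk 1 t) t := by
    intro t ht
    rw [Set.uIcc_of_le hab] at ht
    have ht0 : t ≠ 0 := by linarith [ht.1]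
    have := ((Real.hasDerivAt_log ht0).div (hasDerivAt_id t) ht0).neg
    have e1 : hk 1 t = -((t⁻¹ * id t - Real.log t * 1) / id t ^ 2) := by
      unfold hk
      simp only [id]
      rw [inv_mul_cancel₀ ht0]
      ring
    rw [e1]
    exact this
  rw [intervalIntegral.integral_eq_sub_of_hasDerivAt hderiv (hk_cont 1 ha hab).intervalIntegrable]
  ring

theorem abel {X : ℝ} (hX : 1 ≤ X) : ∑ n ∈ AX X, Real.log n / n =
    NN X * (Real.log X / X) + ∫ t in (1 : ℝ)..X, (NN t : ℝ) * hk 1 t := by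
  classical
  have hii : ∀ n ∈ AX X, IntegrableOn (fun t => (Set.Ioi (n : ℝ)).indicator (hk 1) t) (Set.Ioc 1 X) := by
    intro n _
    apply IntegrableOn.indicator _ measurableSet_Ioi
    exact (intervalIntegrable_iff_integrableOn_Ioc_of_le hX).1
      (hk_cont 1 one_pos hX).intervalIntegrable
  have h1 : ∀ n ∈ AX X, Real.log n / n = Real.log X / X +
      ∫ t in Set.Ioc 1 X, (Set.Ioi (n : ℝ)).indicator (hk 1) t := by
    intro n hn
    obtain ⟨g1, g2, g3⟩ := mem_AX.1 hn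
    have hn1 : (1 : ℝ) ≤ n := by exact_mod_cast g1
    have e1 := hk_int (by linarith : (0 : ℝ) < n) g2.le
    rw [intervalIntegral.integral_of_le g2.le] at e1
    rw [integral_indicator measurableSet_Ioi, Measure.restrict_restrict measurableSet_Ioi]
    have e2 : Set.Ioi (n : ℝ) ∩ Set.Ioc 1 X = Set.Ioc (n : ℝ) X := by
      ext t
      simp only [Set.mem_inter_iff, Set.mem_Ioi, Set.mem_Ioc]
      constructor
      · rintro ⟨h1, h2, h3⟩; exact ⟨h1, h3⟩
      · rintro ⟨h1, h2⟩; exact ⟨h1, by linarith, h2⟩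
    rw [e2, e1]
    ring
  rw [Finset.sum_congr rfl h1, Finset.sum_add_distrib, Finset.sum_const, nsmul_eq_mul, ← NN_eq,
    ← integral_finsetSum _ hii, intervalIntegral.integral_of_le hX]
  congr 1
  apply setIntegral_congr_fun measurableSet_Ioc
  intro t ht
  have e1 : ∀ n ∈ AX X, (Set.Ioi (n : ℝ)).indicator (hk 1) t = if (n : ℝ) < t then hk 1 t else 0 := by
    intro n _
    simp only [Set.indicator, Set.mem_Ioi]
  change ∑ n ∈ AX X, (Set.Ioi (n : ℝ)).indicator (hk 1) t = (NN t : ℝ) * hk 1 t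
  rw [Finset.sum_congr rfl e1, ← Finset.sum_filter, Finset.sum_const, nsmul_eq_mul, NN_eq]
  congr 2
  have : (AX X).filter (fun n : ℕ => (n : ℝ) < t) = AX t := by
    ext n
    rw [Finset.mem_filter, mem_AX, mem_AX]
    constructor
    · rintro ⟨⟨h1, h2, h3⟩, h4⟩; exact ⟨h1, h4, h3⟩
    · rintro ⟨h1, h2, h3⟩; exact ⟨⟨h1, h2.trans_le ht.2, h3⟩, h2⟩
  rw [this]

theorem rho_int (c : ℝ) {a b : ℝ} (ha : 1 ≤ a) (hab : a ≤ b) :
    IntervalIntegrable (fun t => (NN t : ℝ) * hk c t) volume a b := by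
  rw [intervalIntegrable_iff_integrableOn_Ioc_of_le hab]
  apply Measure.integrableOn_of_bounded (M := NN b * (Real.log b + |c|))
  · exact ne_of_lt measure_Ioc_lt_top
  · exact (NN_mono.measurable.mul (hk_meas c)).aestronglyMeasurable
  · rw [ae_restrict_iff' measurableSet_Ioc]
    apply Eventually.of_forall
    intro t ht
    have ht1 : 1 ≤ t := by linarith [ht.1]
    have ht0 : 0 < t := by linarith
    have hl0 : 0 ≤ Real.log t := Real.log_nonneg ht1
    have hl1 : Real.log t ≤ Real.log b := Real.log_le_log ht0 ht.2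
    rw [Real.norm_eq_abs, abs_mul, Nat.abs_cast]
    apply mul_le_mul (NN_mono ht.2) _ (abs_nonneg _) (Nat.cast_nonneg _)
    unfold hk
    have h2 : 1 ≤ t ^ 2 := one_le_pow₀ ht1
    rw [abs_div, abs_of_pos (by positivity : 0 < t ^ 2), div_le_iff₀ (by positivity)]
    have h4 := neg_abs_le c
    have h5 := le_abs_self c
    have h6 := abs_nonneg c
    have h3 : |Real.log t - c| ≤ Real.log b + |c| := by
      rw [abs_le]; constructor <;> linarith
    nlinarith

/-- the cutoff -/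
noncomputable def Yc (x : ℝ) : ℝ := Real.exp ((Real.log (Real.log x)) ^ 4)

theorem Yc_mono {t x : ℝ} (ht : Real.exp 1 ≤ t) (h : t ≤ x) : Yc t ≤ Yc x := by
  unfold Yc
  have ht0 : 0 < t := lt_of_lt_of_le (Real.exp_pos 1) ht
  have h1 : 1 ≤ Real.log t := by rwa [Real.le_log_iff_exp_le ht0]
  have h2 : Real.log t ≤ Real.log x := Real.log_le_log ht0 h
  have h3 : 0 ≤ Real.log (Real.log t) := Real.log_nonneg h1
  have h4 : Real.log (Real.log t) ≤ Real.log (Real.log x) := Real.log_le_log (by linarith) h2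
  exact Real.exp_le_exp.2 (pow_le_pow_left₀ h3 h4 4)

theorem GY_eq (y x : ℝ) : GY y x = ∑ m ∈ Finset.Icc 1 ⌊y⌋₊, vt m x / m := rfl

theorem ratio_tendsto (c : ℝ) :
    Tendsto (fun x : ℝ => (NN x : ℝ) * (Real.log x - c) / GY (Yc x) x) atTop (𝓝 1) := by
  have h1 := Pool.Agent.Helper923.PPS.asymptotic_cut Yc
    (Pool.Agent.Helper923.PPS.GLL_le.mono fun x hx => ⟨le_rfl, hx⟩)
  have h2 : Tendsto (fun x : ℝ => (Real.log x - c) / Real.log x) atTop (𝓝 1) := by
    have h3 : Tendsto (fun x : ℝ => 1 - c * (Real.log x)⁻¹) atTop (𝓝 (1 - c * 0)) :=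
      tendsto_const_nhds.sub ((tendsto_inv_atTop_zero.comp Real.tendsto_log_atTop).const_mul c)
    rw [mul_zero, sub_zero] at h3
    refine h3.congr' ?_
    filter_upwards [Real.tendsto_log_atTop.eventually_gt_atTop 0] with x hx
    field_simp
  have h3 := h1.mul h2
  rw [one_mul] at h3
  refine h3.congr' ?_
  filter_upwards [Real.tendsto_log_atTop.eventually_gt_atTop 0] with x hx
  field_simp

theorem NN_over : Tendsto (fun x : ℝ => (NN x : ℝ) / x) atTop (𝓝 0) := by
  obtain ⟨C, hC⟩ := Pool.Agent.Helper923.PPS.N_upper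
  have h1 : Tendsto (fun x : ℝ => Real.log (Real.log x) / Real.log x) atTop (𝓝 0) := by
    have h2 : Tendsto (fun y : ℝ => Real.log y / y) atTop (𝓝 0) := by
      have := Real.isLittleO_log_id_atTop.tendsto_div_nhds_zero
      simpa using this
    exact h2.comp Real.tendsto_log_atTop
  have h3 : Tendsto (fun x : ℝ => C * (Real.log (Real.log x) / Real.log x)) atTop (𝓝 0) := by
    have := h1.const_mul C
    rwa [mul_zero] at this
  refine squeeze_zero' ?_ ?_ h3
  · filter_upwards [eventually_gt_atTop (0 : ℝ)] with x hx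
    positivity
  · filter_upwards [hC, eventually_gt_atTop (0 : ℝ),
      Real.tendsto_log_atTop.eventually_gt_atTop 0] with x hx hx0 hl
    rw [div_le_iff₀ hx0]
    refine hx.trans (le_of_eq ?_)
    field_simp

theorem sum_over_int {s : Finset ℕ} {a b : ℝ} (ha : 1 ≤ a) (hab : a ≤ b) :
    ∫ t in a..b, (∑ m ∈ s, vt m t / m) / t ^ 2 =
      ∑ m ∈ s, (∫ t in a..b, vt m t / t ^ 2) / m := by
  have h1 : ∀ t : ℝ, (∑ m ∈ s, vt m t / m) / t ^ 2 =
      ∑ m ∈ s, (vt m t / t ^ 2) / m := by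
    intro t
    rw [Finset.sum_div]
    exact Finset.sum_congr rfl (fun m _ => by ring)
  simp only [h1]
  rw [intervalIntegral.integral_finsetSum]
  · apply Finset.sum_congr rfl
    intro m _
    rw [intervalIntegral.integral_div]
  · intro m _
    exact (vt_int m ha hab).div_const _

theorem sum_ii {s : Finset ℕ} {a b : ℝ} (ha : 1 ≤ a) (hab : a ≤ b) :
    IntervalIntegrable (fun t => (∑ m ∈ s, vt m t / m) / t ^ 2) volume a b := by
  have h1 : ∀ t : ℝ, (∑ m ∈ s, vt m t / m) / t ^ 2 =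
      ∑ m ∈ s, (vt m t / t ^ 2) / m := by
    intro t
    rw [Finset.sum_div]
    exact Finset.sum_congr rfl (fun m _ => by ring)
  simp only [h1]
  have h2 := IntervalIntegrable.sum s (f := fun (m : ℕ) (t : ℝ) => vt m t / t ^ 2 / m)
    (μ := volume) (a := a) (b := b) (fun m _ => (vt_int m ha hab).div_const _)
  have h3 : (∑ m ∈ s, fun t : ℝ => vt m t / t ^ 2 / (m : ℝ)) =
      fun t => ∑ m ∈ s, vt m t / t ^ 2 / (m : ℝ) := by
    funext t
    rw [Finset.sum_apply]
  rw [h3] at h2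
  exact h2

/-- upper bound for the integral -/
theorem upper_int (c : ℝ) {ε : ℝ} (hε : 0 < ε) : ∃ C : ℝ, ∀ᶠ X : ℝ in atTop,
    ∫ t in (1 : ℝ)..X, (NN t : ℝ) * hk c t ≤
      C + (1 + ε) * ∑ m ∈ Finset.Icc 1 ⌊Yc X⌋₊, Mt (Real.log X) m / m := by
  have h1 : ∀ᶠ x : ℝ in atTop, (NN x : ℝ) * (Real.log x - c) / GY (Yc x) x < 1 + ε :=
    (ratio_tendsto c).eventually (gt_mem_nhds (by linarith))
  have h2 : ∀ᶠ x : ℝ in atTop, 0 < (NN x : ℝ) * (Real.log x - c) / GY (Yc x) x :=
    (ratio_tendsto c).eventually (lt_mem_nhds (by norm_num))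
  obtain ⟨t₀, ht₀⟩ := eventually_atTop.1 (h1.and h2)
  set t₁ := max t₀ (Real.exp 1) with ht₁
  have ht₁e : Real.exp 1 ≤ t₁ := le_max_right _ _
  have ht₁1 : 1 ≤ t₁ := le_trans (Real.one_le_exp zero_le_one) ht₁e
  refine ⟨∫ t in (1 : ℝ)..t₁, (NN t : ℝ) * hk c t, ?_⟩
  filter_upwards [eventually_ge_atTop t₁] with X hX
  have hX1 : 1 ≤ X := ht₁1.trans hX
  rw [← intervalIntegral.integral_add_adjacent_intervals (rho_int c le_rfl ht₁1) (rho_int c ht₁1 hX)]
  apply add_le_add le_rfl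
  have hpt : ∀ t ∈ Set.Icc t₁ X, (NN t : ℝ) * hk c t ≤
      (1 + ε) * ((∑ m ∈ Finset.Icc 1 ⌊Yc X⌋₊, vt m t / m) / t ^ 2) := by
    intro t ht
    obtain ⟨g1, g2⟩ := ht₀ t ((le_max_left _ _).trans ht.1)
    have ht0 : 0 < t := by linarith [ht.1]
    have hGY0 : 0 ≤ GY (Yc t) t := by
      rw [GY_eq]
      exact Finset.sum_nonneg (fun m _ => div_nonneg (vt_nonneg m t) (Nat.cast_nonneg _))
    have hGY : 0 < GY (Yc t) t := by
      rcases hGY0.lt_or_eq with h | h
      · exact h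
      · rw [← h, div_zero] at g2; exact absurd g2 (lt_irrefl _)
    rw [div_lt_iff₀ hGY] at g1
    have g3 : GY (Yc t) t ≤ GY (Yc X) t := GY_mono (Yc_mono (ht₁e.trans ht.1) ht.2) t
    rw [GY_eq (Yc X)] at g3
    unfold hk
    rw [← mul_div_assoc, ← mul_div_assoc]
    apply div_le_div_of_nonneg_right _ (by positivity)
    refine g1.le.trans ?_
    apply mul_le_mul_of_nonneg_left g3 (by linarith)
  calc ∫ t in t₁..X, (NN t : ℝ) * hk c t
      ≤ ∫ t in t₁..X, (1 + ε) * ((∑ m ∈ Finset.Icc 1 ⌊Yc X⌋₊, vt m t / m) / t ^ 2) :=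
        intervalIntegral.integral_mono_on hX (rho_int c ht₁1 hX)
          ((sum_ii ht₁1 hX).const_mul _) hpt
    _ = (1 + ε) * ∑ m ∈ Finset.Icc 1 ⌊Yc X⌋₊, (∫ t in t₁..X, vt m t / t ^ 2) / m := by
        rw [intervalIntegral.integral_const_mul, sum_over_int ht₁1 hX]
    _ ≤ (1 + ε) * ∑ m ∈ Finset.Icc 1 ⌊Yc X⌋₊, Mt (Real.log X) m / m := by
        apply mul_le_mul_of_nonneg_left _ (by linarith)
        apply Finset.sum_le_sum
        intro m _
        apply div_le_div_of_nonneg_right _ (Nat.cast_nonneg _)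
        refine le_trans ?_ (vt_integral hX1 m).2
        have e1 := intervalIntegral.integral_add_adjacent_intervals (vt_int m le_rfl ht₁1)
          (vt_int m ht₁1 hX)
        have e2 : 0 ≤ ∫ t in (1 : ℝ)..t₁, vt m t / t ^ 2 :=
          intervalIntegral.integral_nonneg ht₁1
            (fun t _ => div_nonneg (vt_nonneg m t) (by positivity))
        linarith

/-- lower bound for the integral -/
theorem lower_int (c : ℝ) {ε : ℝ} (hε : 0 < ε) (hε1 : ε < 1) (M₀ : ℕ) : ∃ C : ℝ, ∀ᶠ X : ℝ in atTop,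
    C + (1 - ε) * ∑ m ∈ Finset.range M₀, Mt (Real.log X) m / m ≤
      ∫ t in (1 : ℝ)..X, (NN t : ℝ) * hk c t := by
  have h1 : ∀ᶠ x : ℝ in atTop, 1 - ε < (NN x : ℝ) * (Real.log x - c) / GY (Yc x) x :=
    (ratio_tendsto c).eventually (lt_mem_nhds (by linarith))
  have hYt : ∀ᶠ x : ℝ in atTop, (M₀ : ℝ) ≤ Yc x :=
    (Real.tendsto_exp_atTop.comp (log4_tendsto.comp Real.tendsto_log_atTop)).eventually_ge_atTop _
  obtain ⟨t₀, ht₀⟩ := eventually_atTop.1 (h1.and hYt)
  set t₁ := max t₀ (Real.exp 1) with ht₁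
  have ht₁e : Real.exp 1 ≤ t₁ := le_max_right _ _
  have ht₁1 : 1 ≤ t₁ := le_trans (Real.one_le_exp zero_le_one) ht₁e
  refine ⟨(∫ t in (1 : ℝ)..t₁, (NN t : ℝ) * hk c t) -
    (1 - ε) * ∑ m ∈ Finset.range M₀, (1 + ∫ t in (1 : ℝ)..t₁, vt m t / t ^ 2) / m, ?_⟩
  filter_upwards [eventually_ge_atTop t₁] with X hX
  have hX1 : 1 ≤ X := ht₁1.trans hX
  rw [← intervalIntegral.integral_add_adjacent_intervals (rho_int c le_rfl ht₁1) (rho_int c ht₁1 hX)]
  have hpt : ∀ t ∈ Set.Icc t₁ X,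
      (1 - ε) * ((∑ m ∈ Finset.range M₀, vt m t / m) / t ^ 2) ≤ (NN t : ℝ) * hk c t := by
    intro t ht
    obtain ⟨g1, g2⟩ := ht₀ t ((le_max_left _ _).trans ht.1)
    have ht0 : 0 < t := by linarith [ht.1]
    have hGY0 : 0 ≤ GY (Yc t) t := by
      rw [GY_eq]
      exact Finset.sum_nonneg (fun m _ => div_nonneg (vt_nonneg m t) (Nat.cast_nonneg _))
    have hGY : 0 < GY (Yc t) t := by
      rcases hGY0.lt_or_eq with h | h
      · exact h
      · rw [← h, div_zero] at g1; linarith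
    rw [lt_div_iff₀ hGY] at g1
    have g3 : ∑ m ∈ Finset.range M₀, vt m t / m ≤ GY (Yc t) t := by
      rw [GY_eq]
      have e1 : ∑ m ∈ Finset.range M₀, vt m t / m =
          ∑ m ∈ (Finset.range M₀).filter (fun m => m ≠ 0), vt m t / m := by
        rw [Finset.sum_filter]
        apply Finset.sum_congr rfl
        intro m _
        by_cases hm : m = 0
        · simp [hm]
        · simp [hm]
      rw [e1]
      apply Finset.sum_le_sum_of_subset_of_nonneg
      · intro m hm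
        rw [Finset.mem_filter, Finset.mem_range] at hm
        rw [Finset.mem_Icc]
        refine ⟨Nat.one_le_iff_ne_zero.2 hm.2, (Nat.le_floor_iff (Real.exp_pos _).le).2 ?_⟩
        have : (m : ℝ) ≤ M₀ := by exact_mod_cast hm.1.le
        exact this.trans g2
      · intro m _ _
        exact div_nonneg (vt_nonneg m t) (Nat.cast_nonneg _)
    unfold hk
    rw [← mul_div_assoc, ← mul_div_assoc]
    apply div_le_div_of_nonneg_right _ (by positivity)
    exact (mul_le_mul_of_nonneg_left g3 (by linarith)).trans g1.le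
  have hmain : (1 - ε) * ∑ m ∈ Finset.range M₀, (∫ t in t₁..X, vt m t / t ^ 2) / m ≤
      ∫ t in t₁..X, (NN t : ℝ) * hk c t := by
    rw [← sum_over_int ht₁1 hX, ← intervalIntegral.integral_const_mul]
    exact intervalIntegral.integral_mono_on hX ((sum_ii ht₁1 hX).const_mul _)
      (rho_int c ht₁1 hX) hpt
  have hsum : ∑ m ∈ Finset.range M₀, Mt (Real.log X) m / m -
      ∑ m ∈ Finset.range M₀, (1 + ∫ t in (1 : ℝ)..t₁, vt m t / t ^ 2) / m ≤
      ∑ m ∈ Finset.range M₀, (∫ t in t₁..X, vt m t / t ^ 2) / m := by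
    rw [← Finset.sum_sub_distrib]
    apply Finset.sum_le_sum
    intro m _
    rw [← sub_div]
    apply div_le_div_of_nonneg_right _ (Nat.cast_nonneg _)
    have e1 := intervalIntegral.integral_add_adjacent_intervals (vt_int m le_rfl ht₁1)
      (vt_int m ht₁1 hX)
    have e2 := (vt_integral hX1 m).1
    linarith
  have := mul_le_mul_of_nonneg_left hsum (by linarith : 0 ≤ 1 - ε)
  linarith

/-- the logarithmic mean value -/
theorem int_mean (c : ℝ) (δ : ℕ → ℝ)
    (hδ : ∀ m : ℕ, m ≠ 0 → Tendsto (fun T : ℝ => Mt T m / T) atTop (𝓝 (δ m))) :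
    Tendsto (fun X : ℝ => (∫ t in (1 : ℝ)..X, (NN t : ℝ) * hk c t) / Real.log X) atTop
      (𝓝 (∑' m : ℕ, δ m / m)) := by
  obtain ⟨hδ0, hsum, hlim⟩ := sum_lim δ hδ
  set κ := ∑' m : ℕ, δ m / m with hκ
  have hκ0 : 0 ≤ κ := tsum_nonneg (fun m => by
    rcases eq_or_ne m 0 with rfl | hm
    · simp
    · exact div_nonneg (hδ0 m hm) (Nat.cast_nonneg _))
  have hinv : ∀ C : ℝ, Tendsto (fun X : ℝ => C / Real.log X) atTop (𝓝 0) := fun C =>
    tendsto_const_nhds.div_atTop Real.tendsto_log_atTop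
  rw [tendsto_order]
  constructor
  · intro a ha
    have hpart := hsum.hasSum.tendsto_sum_nat
    obtain ⟨M₀, hM₀⟩ := (hpart.eventually (lt_mem_nhds ha)).exists
    set κ₀ := ∑ m ∈ Finset.range M₀, δ m / m with hκ₀
    have hκ₀0 : 0 ≤ κ₀ := Finset.sum_nonneg (fun m _ => by
      rcases eq_or_ne m 0 with rfl | hm
      · simp
      · exact div_nonneg (hδ0 m hm) (Nat.cast_nonneg _))
    obtain ⟨ε, hε0, hε1, hε⟩ : ∃ ε : ℝ, 0 < ε ∧ ε < 1 ∧ a < (1 - ε) * κ₀ := by
      refine ⟨min (1 / 2) ((κ₀ - a) / (2 * (κ₀ + 1))), ?_, ?_, ?_⟩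
      · apply lt_min (by norm_num)
        apply div_pos (by linarith) (by positivity)
      · exact lt_of_le_of_lt (min_le_left _ _) (by norm_num)
      · have h1 : min (1 / 2) ((κ₀ - a) / (2 * (κ₀ + 1))) ≤ (κ₀ - a) / (2 * (κ₀ + 1)) :=
          min_le_right _ _
        have h2 : (κ₀ - a) / (2 * (κ₀ + 1)) * κ₀ ≤ (κ₀ - a) / 2 := by
          rw [div_mul_eq_mul_div, div_le_div_iff₀ (by positivity) (by norm_num)]
          nlinarith
        have h3 := mul_le_mul_of_nonneg_right h1 hκ₀0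
        nlinarith
    obtain ⟨C, hC⟩ := lower_int c hε0 hε1 M₀
    have hlow : Tendsto (fun X : ℝ => C / Real.log X +
        (1 - ε) * ∑ m ∈ Finset.range M₀, (Mt (Real.log X) m / Real.log X) / m) atTop
        (𝓝 (0 + (1 - ε) * κ₀)) := by
      apply (hinv C).add
      apply Tendsto.const_mul
      rw [hκ₀]
      apply tendsto_finsetSum
      intro m _
      rcases eq_or_ne m 0 with rfl | hm
      · simp
      · exact ((hδ m hm).comp Real.tendsto_log_atTop).div_const _
    rw [zero_add] at hlow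
    filter_upwards [hlow.eventually (lt_mem_nhds hε), hC,
      Real.tendsto_log_atTop.eventually_gt_atTop 0] with X h1 h2 h4
    refine h1.trans_le ?_
    rw [le_div_iff₀ h4]
    have h6 : (C / Real.log X +
        (1 - ε) * ∑ m ∈ Finset.range M₀, (Mt (Real.log X) m / Real.log X) / m) * Real.log X =
        C + (1 - ε) * ∑ m ∈ Finset.range M₀, Mt (Real.log X) m / m := by
      rw [add_mul, div_mul_cancel₀ _ h4.ne', mul_assoc, Finset.sum_mul]
      congr 2
      apply Finset.sum_congr rfl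
      intro m _
      rw [div_mul_eq_mul_div, div_mul_cancel₀ _ h4.ne']
    rw [h6]
    exact h2
  · intro a ha
    obtain ⟨ε, hε0, hε⟩ : ∃ ε : ℝ, 0 < ε ∧ (1 + ε) * κ < a := by
      refine ⟨(a - κ) / (2 * (κ + 1)), ?_, ?_⟩
      · apply div_pos (by linarith) (by positivity)
      · have h2 : (a - κ) / (2 * (κ + 1)) * κ ≤ (a - κ) / 2 := by
          rw [div_mul_eq_mul_div, div_le_div_iff₀ (by positivity) (by norm_num)]
          nlinarith
        nlinarith
    obtain ⟨C, hC⟩ := upper_int c hε0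
    have hup : Tendsto (fun X : ℝ => C / Real.log X +
        (1 + ε) * ((∑ m ∈ Finset.Icc 1 ⌊Real.exp ((Real.log (Real.log X)) ^ 4)⌋₊,
          Mt (Real.log X) m / m) / Real.log X)) atTop (𝓝 (0 + (1 + ε) * κ)) :=
      (hinv C).add ((hlim.comp Real.tendsto_log_atTop).const_mul _)
    rw [zero_add] at hup
    filter_upwards [hup.eventually (gt_mem_nhds hε), hC,
      Real.tendsto_log_atTop.eventually_gt_atTop 0] with X h1 h2 h4
    refine lt_of_le_of_lt ?_ h1
    rw [div_le_iff₀ h4]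
    have h6 : (C / Real.log X +
        (1 + ε) * ((∑ m ∈ Finset.Icc 1 ⌊Real.exp ((Real.log (Real.log X)) ^ 4)⌋₊,
          Mt (Real.log X) m / m) / Real.log X)) * Real.log X =
        C + (1 + ε) *
        ∑ m ∈ Finset.Icc 1 ⌊Real.exp ((Real.log (Real.log X)) ^ 4)⌋₊,
          Mt (Real.log X) m / m := by
      field_simp
    rw [h6]
    unfold Yc at h2
    exact h2

/-- the asymptotic formula on logarithmic average -/
theorem log_mean (δ : ℕ → ℝ)
    (hδ : ∀ m : ℕ, m ≠ 0 → Tendsto (fun T : ℝ => Mt T m / T) atTop (𝓝 (δ m))) :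
    Tendsto (fun X : ℝ => (∑ n ∈ AX X, Real.log n / n) / Real.log X) atTop
      (𝓝 (∑' m : ℕ, δ m / m)) := by
  have h := NN_over.add (int_mean 1 δ hδ)
  rw [zero_add] at h
  refine h.congr' ?_
  filter_upwards [eventually_ge_atTop (1 : ℝ),
    Real.tendsto_log_atTop.eventually_gt_atTop 0] with X h3 h4
  rw [abel h3, add_div]
  congr 1
  field_simp

end Pool.Agent.KS6_8.LM
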