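import Mathlib
import Pool.Agent.KS6_8.LM.Fin

set_option autoImplicit false

open MeasureTheory Filter Topology

namespace Pool.Agent.KS6_8.LM

open Pool.Agent.Helper923.PPS (pw Iset measurableSet_Iset NN GY GY_mono f F)

theorem vol_Icc_le (a : ℝ) : volume (Set.Icc 0 a) ≤ ENNReal.ofReal a := by
  rw [Real.volume_Icc, sub_zero]

/-! ## the finite description of the density -/

/-- the same set with finitely many conditions -/
def Eset (m : ℕ) : Set ℝ :=
  {t : ℝ | 1 ≤ t ∧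
    (∀ p q : ℕ, p.Prime → q.Prime → p ≠ q → p ∣ m → q ∣ m →
      t ≤ (pw p ⌊t⌋₊ : ℝ) + pw q ⌊t⌋₊) ∧
    (∀ p a : ℕ, p.Prime → p ∣ m → 1 ≤ a → p ^ a ≤ m →
      t * ((p : ℝ) ^ a - 1) ≤ m * pw p ⌊t⌋₊)}

theorem Eset_iff {m : ℕ} {τ : ℝ} : Real.exp τ ∈ Eset m ↔ 0 ≤ τ ∧ Rc m τ := by
  have ht := Real.exp_pos τ
  constructor
  · rintro ⟨h1, h2, h3⟩
    have hτ : 0 ≤ τ := by rwa [Real.one_le_exp_iff] at h1
    refine ⟨hτ, ?_, ?_⟩
    · intro p q hp hq hpq hpm hqm
      have := h2 p q hp hq hpq hpm hqm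
      rw [pw_exp hp hτ, pw_exp hq hτ] at this
      have h4 : Real.exp τ * 1 ≤ Real.exp τ *
          (Real.exp (-D (lg p) τ) + Real.exp (-D (lg q) τ)) := by linarith
      exact le_of_mul_le_mul_left h4 ht
    · intro p a hp hpm ha hle
      have := h3 p a hp hpm ha hle
      rw [pw_exp hp hτ] at this
      have h4 : Real.exp τ * ((p : ℝ) ^ a - 1) ≤ Real.exp τ *
          (m * Real.exp (-D (lg p) τ)) := by linarith
      exact le_of_mul_le_mul_left h4 ht
  · rintro ⟨hτ, h2, h3⟩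
    refine ⟨Real.one_le_exp hτ, ?_, ?_⟩
    · intro p q hp hq hpq hpm hqm
      have := h2 p q hp hq hpq hpm hqm
      rw [pw_exp hp hτ, pw_exp hq hτ]
      nlinarith
    · intro p a hp hpm ha hle
      have := h3 p a hp hpm ha hle
      rw [pw_exp hp hτ]
      nlinarith

theorem Rc_of_J {m : ℕ} (hm : m ≠ 0) {κ τ₀ : ℝ} (hκ : 0 < κ)
    (hτ₀ : ∀ τ, τ₀ ≤ τ → ∀ p ∈ m.primeFactors, ∀ q ∈ m.primeFactors, p ≠ q →
      ∃ a b : ℕ, 1 ≤ a ∧ 1 ≤ b ∧ τ - κ ≤ a * lg p + b * lg q ∧ (a : ℝ) * lg p + b * lg q ≤ τ)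
    {τ : ℝ} (h0' : τ₀ ≤ τ) (hZ : τ ∉ Zs m κ) (hJ : τ ∈ J m) : Rc m τ := by
  obtain ⟨-, -, s3⟩ := stable_all (s := 0) hZ (fun p _ => ⟨0, by simpa using hκ.le⟩)
  constructor
  · intro p q hp hq hpq hpm hqm
    have hp' : p ∈ m.primeFactors := Nat.mem_primeFactors.2 ⟨hp, hpm, hm⟩
    have hq' : q ∈ m.primeFactors := Nat.mem_primeFactors.2 ⟨hq, hqm, hm⟩
    obtain ⟨a, b, ha, hb, g1, g2⟩ := hτ₀ τ h0' p hp' q hq' hpq
    have g3 := pair_point (J_nonneg hJ) hm hJ hp hq hpq hpm hqm ha hb g2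
    have g4 : Real.exp (-(2 * κ)) ≤ Real.exp (a * lg p + b * lg q - τ) :=
      Real.exp_le_exp.2 (by linarith)
    have g5 := s3 p hp' q hq' hpq (g4.trans g3)
    have g6 : (1 : ℝ) ≤ Real.exp (2 * κ) := Real.one_le_exp (by linarith)
    linarith
  · intro p a hp hpm ha hle
    exact pp_of_J hm hJ hp hpm ha hle

theorem Eset_dens {m : ℕ} (hm : m ≠ 0) {d : ℝ}
    (h : Tendsto (fun T : ℝ => Mt T m / T) atTop (𝓝 d)) :
    Tendsto (fun T : ℝ => (volume {τ : ℝ | 0 ≤ τ ∧ τ ≤ T ∧ Real.exp τ ∈ Eset m}).toReal / T)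
      atTop (𝓝 d) := by
  have hfin : ∀ T : ℝ, volume {τ : ℝ | 0 ≤ τ ∧ τ ≤ T ∧ Real.exp τ ∈ Eset m} ≠ ⊤ := by
    intro T
    apply ne_of_lt
    have : {τ : ℝ | 0 ≤ τ ∧ τ ≤ T ∧ Real.exp τ ∈ Eset m} ⊆ Set.Icc 0 T :=
      fun τ hτ => ⟨hτ.1, hτ.2.1⟩
    refine (measure_mono this).trans_lt ?_
    rw [Real.volume_Icc]; exact ENNReal.ofReal_lt_top
  have hle : ∀ T : ℝ, (volume {τ : ℝ | 0 ≤ τ ∧ τ ≤ T ∧ Real.exp τ ∈ Eset m}).toReal ≤ Mt T m := by
    intro T
    apply ENNReal.toReal_mono (Mt_fin T m)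
    apply measure_mono
    rintro τ ⟨h1, h2, h3⟩
    exact ⟨J_of_Rc h1 (Eset_iff.1 h3).2, h1, h2⟩
  have hdiff : Tendsto (fun T : ℝ => Mt T m / T -
      (volume {τ : ℝ | 0 ≤ τ ∧ τ ≤ T ∧ Real.exp τ ∈ Eset m}).toReal / T) atTop (𝓝 0) := by
    rw [tendsto_order]
    constructor
    · intro a ha
      filter_upwards [eventually_gt_atTop (0 : ℝ)] with T hT
      rw [← sub_div]
      have : 0 ≤ (Mt T m -
        (volume {τ : ℝ | 0 ≤ τ ∧ τ ≤ T ∧ Real.exp τ ∈ Eset m}).toReal) / T :=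
        div_nonneg (by linarith [hle T]) hT.le
      linarith
    · intro ε hε
      obtain ⟨κ, hκ1, hκ0⟩ := ((negl_Zs m (ε / 2) (by positivity)).and
        self_mem_nhdsWithin).exists
      obtain ⟨τ₀, hτ₀⟩ := hit_eventually m hκ0
      set τ₁ := max τ₀ 0 with hτ₁
      have hτ₁0 : 0 ≤ τ₁ := le_max_right _ _
      filter_upwards [hκ1, eventually_gt_atTop (0 : ℝ), eventually_gt_atTop (4 * τ₁ / ε)]
        with T h1 h2 h3
      have h4 : volume (J m ∩ Set.Icc 0 T) ≤
          volume {τ : ℝ | 0 ≤ τ ∧ τ ≤ T ∧ Real.exp τ ∈ Eset m} +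
            ENNReal.ofReal (τ₁ + ε / 2 * T) := by
        have hsub : J m ∩ Set.Icc 0 T ⊆ {τ : ℝ | 0 ≤ τ ∧ τ ≤ T ∧ Real.exp τ ∈ Eset m} ∪
            (Set.Icc 0 τ₁ ∪ (Zs m κ ∩ Set.Icc 0 T)) := by
          rintro τ ⟨g1, g2, g3⟩
          by_cases g4 : τ ∈ Zs m κ
          · exact Or.inr (Or.inr ⟨g4, g2, g3⟩)
          · rcases le_or_gt τ τ₁ with g5 | g5
            · exact Or.inr (Or.inl ⟨g2, g5⟩)
            · exact Or.inl ⟨g2, g3, Eset_iff.2 ⟨g2, Rc_of_J hm hκ0 hτ₀
                ((le_max_left _ _).trans g5.le) g4 g1⟩⟩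
        refine (measure_mono hsub).trans ((measure_union_le _ _).trans ?_)
        gcongr
        refine (measure_union_le _ _).trans ((add_le_add (vol_Icc_le τ₁) h1).trans ?_)
        rw [← ENNReal.ofReal_add hτ₁0 (by positivity)]
      have h5 := ENNReal.toReal_mono (ENNReal.add_ne_top.2 ⟨hfin T, ENNReal.ofReal_ne_top⟩) h4
      rw [ENNReal.toReal_add (hfin T) ENNReal.ofReal_ne_top,
        ENNReal.toReal_ofReal (by positivity)] at h5
      rw [← sub_div, div_lt_iff₀ h2]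
      rw [div_lt_iff₀ hε] at h3
      unfold Mt
      nlinarith
  have := h.sub hdiff
  rw [sub_zero] at this
  refine this.congr (fun T => ?_)
  ring

/-! ## almost all x -/

theorem vt_one {x : ℝ} (hx : 1 ≤ x) : vt 1 x = x - 1 := by
  unfold vt
  rw [Pool.Agent.Helper923.PPS.Iset_one]
  have : Set.Ici (1 : ℝ) ∩ Set.Icc 1 x = Set.Icc 1 x := Set.inter_eq_right.2 (fun y hy => hy.1)
  rw [this, Real.volume_Icc, ENNReal.toReal_ofReal (by linarith)]

theorem log_int {T : ℝ} (hT : 0 ≤ T) (m : ℕ) :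
    ∫⁻ τ in Set.Icc 0 T, ENNReal.ofReal (vt m (Real.exp τ) / Real.exp τ) ≤
      ENNReal.ofReal (Mt T m) := by
  have hX : 1 ≤ Real.exp T := Real.one_le_exp hT
  have h1 := (vt_integral hX m).2
  rw [Real.log_exp] at h1
  refine le_trans (le_of_eq ?_) (ENNReal.ofReal_le_ofReal h1)
  rw [intervalIntegral.integral_of_le hX, ofReal_integral_eq_lintegral_ofReal]
  · have himg : Set.Icc 1 (Real.exp T) = Real.exp '' (Set.Icc 0 T) := by
      ext x
      constructor
      · rintro ⟨h2, h3⟩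
        have hx0 : 0 < x := by linarith
        refine ⟨Real.log x, ⟨Real.log_nonneg h2, ?_⟩, Real.exp_log hx0⟩
        rwa [Real.log_le_iff_le_exp hx0]
      · rintro ⟨τ, ⟨h2, h3⟩, rfl⟩
        exact ⟨Real.one_le_exp h2, Real.exp_le_exp.2 h3⟩
    have hae : ∫⁻ t in Set.Ioc 1 (Real.exp T), ENNReal.ofReal (vt m t / t ^ 2) =
        ∫⁻ t in Set.Icc 1 (Real.exp T), ENNReal.ofReal (vt m t / t ^ 2) :=
      setLIntegral_congr Ioc_ae_eq_Icc
    rw [hae, himg, lintegral_image_eq_lintegral_abs_deriv_mul measurableSet_Icc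
      (fun x _ => (Real.hasDerivAt_exp x).hasDerivWithinAt) (Real.exp_injective.injOn)]
    apply lintegral_congr
    intro τ
    have hτ := Real.exp_pos τ
    rw [abs_of_pos hτ, ← ENNReal.ofReal_mul hτ.le]
    congr 1
    field_simp
  · exact (intervalIntegrable_iff_integrableOn_Ioc_of_le hX).1 (vt_int m le_rfl hX)
  · apply Eventually.of_forall
    intro t
    exact div_nonneg (vt_nonneg m t) (by positivity)

theorem markov {T η c : ℝ} (hT : 0 ≤ T) (hη : 0 ≤ η) (hc : 0 < c) (s : Finset ℕ)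
    (h : ∑ m ∈ s, Mt T m / m ≤ η) :
    volume {τ : ℝ | τ ∈ Set.Icc 0 T ∧ c * Real.exp τ ≤ ∑ m ∈ s, vt m (Real.exp τ) / m} ≤
      ENNReal.ofReal (η / c) := by
  set Φ : ℝ → ENNReal := fun τ =>
    ENNReal.ofReal (∑ m ∈ s, vt m (Real.exp τ) / Real.exp τ / m) with hΦ
  have hvm : ∀ m : ℕ, Measurable (fun τ : ℝ => vt m (Real.exp τ) / Real.exp τ / m) := by
    intro m
    exact (((vt_mono m).measurable.comp Real.measurable_exp).div Real.measurable_exp).div_const _
  have hΦm : Measurable Φ := ENNReal.measurable_ofReal.comp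
    (Finset.measurable_sum s (fun m _ => hvm m))
  have h1 : ∫⁻ τ in Set.Icc 0 T, Φ τ ≤ ENNReal.ofReal η := by
    have h2 : ∀ τ, Φ τ = ∑ m ∈ s,
        ENNReal.ofReal (vt m (Real.exp τ) / Real.exp τ) * ENNReal.ofReal (1 / m) := by
      intro τ
      rw [hΦ]
      simp only
      rw [ENNReal.ofReal_sum_of_nonneg]
      · apply Finset.sum_congr rfl
        intro m _
        rw [← ENNReal.ofReal_mul]
        · congr 1; ring
        · exact div_nonneg (vt_nonneg _ _) (Real.exp_pos _).le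
      · intro m _
        exact div_nonneg (div_nonneg (vt_nonneg _ _) (Real.exp_pos _).le) (Nat.cast_nonneg _)
    simp only [h2]
    rw [lintegral_finsetSum]
    · calc ∑ m ∈ s, ∫⁻ τ in Set.Icc 0 T,
            ENNReal.ofReal (vt m (Real.exp τ) / Real.exp τ) * ENNReal.ofReal (1 / m)
          = ∑ m ∈ s, (∫⁻ τ in Set.Icc 0 T, ENNReal.ofReal (vt m (Real.exp τ) / Real.exp τ)) *
            ENNReal.ofReal (1 / m) := by
            apply Finset.sum_congr rfl
            intro m _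
            rw [lintegral_mul_const]
            exact ENNReal.measurable_ofReal.comp
              (((vt_mono m).measurable.comp Real.measurable_exp).div Real.measurable_exp)
        _ ≤ ∑ m ∈ s, ENNReal.ofReal (Mt T m) * ENNReal.ofReal (1 / m) := by
            apply Finset.sum_le_sum
            intro m _
            gcongr
            exact log_int hT m
        _ = ENNReal.ofReal (∑ m ∈ s, Mt T m / m) := by
            rw [ENNReal.ofReal_sum_of_nonneg]
            · apply Finset.sum_congr rfl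
              intro m _
              rw [← ENNReal.ofReal_mul (Mt_nonneg _ _)]
              congr 1; ring
            · intro m _
              exact div_nonneg (Mt_nonneg _ _) (Nat.cast_nonneg _)
        _ ≤ ENNReal.ofReal η := ENNReal.ofReal_le_ofReal h
    · intro m _
      apply Measurable.mul_const
      exact ENNReal.measurable_ofReal.comp
        (((vt_mono m).measurable.comp Real.measurable_exp).div Real.measurable_exp)
  have hc' : ENNReal.ofReal c ≠ 0 := by
    rw [Ne, ENNReal.ofReal_eq_zero, not_le]; exact hc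
  have h3 := meas_ge_le_lintegral_div (μ := volume.restrict (Set.Icc 0 T)) hΦm.aemeasurable hc'
    ENNReal.ofReal_ne_top
  have hms : MeasurableSet {τ : ℝ | ENNReal.ofReal c ≤ Φ τ} :=
    measurableSet_le measurable_const hΦm
  rw [Measure.restrict_apply hms] at h3
  have hsub : {τ : ℝ | τ ∈ Set.Icc 0 T ∧ c * Real.exp τ ≤ ∑ m ∈ s, vt m (Real.exp τ) / m} ⊆
      {τ : ℝ | ENNReal.ofReal c ≤ Φ τ} ∩ Set.Icc 0 T := by
    rintro τ ⟨h4, h5⟩
    refine ⟨?_, h4⟩
    apply ENNReal.ofReal_le_ofReal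
    have hτ := Real.exp_pos τ
    have h6 : ∑ m ∈ s, vt m (Real.exp τ) / Real.exp τ / m =
        (∑ m ∈ s, vt m (Real.exp τ) / m) / Real.exp τ := by
      rw [Finset.sum_div]
      exact Finset.sum_congr rfl (fun m _ => by ring)
    rw [h6, le_div_iff₀ hτ]
    exact h5
  refine (measure_mono hsub).trans (h3.trans ?_)
  calc (∫⁻ τ in Set.Icc 0 T, Φ τ) / ENNReal.ofReal c ≤ ENNReal.ofReal η / ENNReal.ofReal c := by
        gcongr
    _ = ENNReal.ofReal (η / c) := (ENNReal.ofReal_div_of_pos hc).symm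

theorem almost_all_M {ε : ℝ} (hε : 0 < ε) (hε1 : ε ≤ 1) : ∃ M₀ : ℕ, ∀ᶠ T : ℝ in atTop,
    volume {τ : ℝ | τ ∈ Set.Icc 0 T ∧ (1 + ε) * GY M₀ (Real.exp τ) < NN (Real.exp τ) * τ} ≤
      ENNReal.ofReal (ε * T) := by
  obtain ⟨δ, hδ⟩ : ∃ δ : ℕ → ℝ, ∀ m : ℕ, m ≠ 0 →
      Tendsto (fun T : ℝ => Mt T m / T) atTop (𝓝 (δ m)) := by
    have h : ∀ m : ℕ, ∃ d : ℝ, m ≠ 0 → Tendsto (fun T : ℝ => Mt T m / T) atTop (𝓝 d) := by
      intro m
      rcases eq_or_ne m 0 with rfl | hm
      · exact ⟨0, fun h => absurd rfl h⟩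
      · obtain ⟨d, hd⟩ := dens_exists m hm
        exact ⟨d, fun _ => hd⟩
    choose δ hδ using h
    exact ⟨δ, hδ⟩
  obtain ⟨hδ0, hsum, hlim⟩ := sum_lim δ hδ
  set κ := ∑' m : ℕ, δ m / m with hκ
  set η := ε ^ 2 / 48 with hη
  have hη0 : 0 < η := by positivity
  have hpart := hsum.hasSum.tendsto_sum_nat
  obtain ⟨M, hM, hM1⟩ : ∃ M : ℕ, κ - η < ∑ m ∈ Finset.range M, δ m / m ∧ 2 ≤ M :=
    ((hpart.eventually (lt_mem_nhds (by linarith : κ - η < κ))).and
      (eventually_ge_atTop 2)).exists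
  refine ⟨M, ?_⟩
  -- asymptotics
  have h1 : ∀ᶠ x : ℝ in atTop, (NN x : ℝ) * (Real.log x - 0) / GY (Yc x) x < 1 + ε / 3 :=
    (ratio_tendsto 0).eventually (gt_mem_nhds (by linarith))
  have h2 : ∀ᶠ x : ℝ in atTop, 0 < (NN x : ℝ) * (Real.log x - 0) / GY (Yc x) x :=
    (ratio_tendsto 0).eventually (lt_mem_nhds (by norm_num))
  obtain ⟨t₀, ht₀⟩ := eventually_atTop.1 (h1.and h2)
  set t₁ := max t₀ (Real.exp 1) with ht₁
  have ht₁e : Real.exp 1 ≤ t₁ := le_max_right _ _
  have ht₁0 : 0 < t₁ := lt_of_lt_of_le (Real.exp_pos 1) ht₁e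
  have ht₁1 : 1 ≤ t₁ := le_trans (Real.one_le_exp zero_le_one) ht₁e
  -- partial sums
  have hsmall : Tendsto (fun T : ℝ => ∑ m ∈ Finset.range M, (Mt T m / T) / m) atTop
      (𝓝 (∑ m ∈ Finset.range M, δ m / m)) := by
    apply tendsto_finsetSum
    intro m _
    rcases eq_or_ne m 0 with rfl | hm
    · simp
    · exact (hδ m hm).div_const _
  have hdiff := hlim.sub hsmall
  have hdiff' : ∀ᶠ T : ℝ in atTop,
      (∑ m ∈ Finset.Icc 1 ⌊Real.exp ((Real.log T) ^ 4)⌋₊, Mt T m / m) / T -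
        ∑ m ∈ Finset.range M, (Mt T m / T) / m < η :=
    hdiff.eventually (gt_mem_nhds (by linarith))
  have hYM : ∀ᶠ T : ℝ in atTop, (M : ℝ) ≤ Real.exp ((Real.log T) ^ 4) :=
    (Real.tendsto_exp_atTop.comp log4_tendsto).eventually_ge_atTop _
  filter_upwards [hdiff', hYM, eventually_gt_atTop (0 : ℝ),
    eventually_ge_atTop (Real.log t₁ * (4 / ε)), eventually_ge_atTop (Real.log t₁)]
    with T hT1 hT2 hT0 hT3 hT4
  set Yn := ⌊Real.exp ((Real.log T) ^ 4)⌋₊ with hYn
  have hMY : M ≤ Yn := (Nat.le_floor_iff (Real.exp_pos _).le).2 hT2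
  set s := Finset.Icc 1 Yn \ Finset.range M with hs
  have hsplit : ∀ g : ℕ → ℝ, ∑ m ∈ Finset.Icc 1 Yn, g m / m =
      ∑ m ∈ s, g m / m + ∑ m ∈ Finset.range M, g m / m := by
    intro g
    have e1 : ∑ m ∈ Finset.range M, g m / m =
        ∑ m ∈ Finset.Icc 1 Yn ∩ Finset.range M, g m / m := by
      symm
      apply Finset.sum_subset Finset.inter_subset_right
      intro m hm hm'
      have : m = 0 := by
        by_contra h0
        apply hm'
        rw [Finset.mem_inter, Finset.mem_Icc]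
        have := Finset.mem_range.1 hm
        exact ⟨⟨by omega, by omega⟩, hm⟩
      simp [this]
    rw [e1, hs, ← Finset.sum_union]
    · rw [Finset.sdiff_union_inter]
    · rw [Finset.disjoint_left]
      intro a ha ha'
      rw [Finset.mem_sdiff] at ha
      exact ha.2 (Finset.mem_inter.1 ha').2
  have hstail : ∑ m ∈ s, Mt T m / m ≤ η * T := by
    have e1 := hsplit (Mt T)
    have e2 : ∑ m ∈ Finset.range M, (Mt T m / T) / m =
        (∑ m ∈ Finset.range M, Mt T m / m) / T := by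
      rw [Finset.sum_div]
      exact Finset.sum_congr rfl (fun m _ => by ring)
    rw [e2, ← sub_div, div_lt_iff₀ hT0, e1] at hT1
    linarith
  have hmk := markov hT0.le (by positivity) (by positivity : 0 < ε / 6) s hstail
  have hsub : {τ : ℝ | τ ∈ Set.Icc 0 T ∧ (1 + ε) * GY M (Real.exp τ) < NN (Real.exp τ) * τ} ⊆
      Set.Icc 0 (Real.log t₁) ∪ {τ : ℝ | τ ∈ Set.Icc 0 T ∧
        ε / 6 * Real.exp τ ≤ ∑ m ∈ s, vt m (Real.exp τ) / m} := by
    rintro τ ⟨hτ, hlt⟩
    rcases le_or_gt τ (Real.log t₁) with h | h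
    · exact Or.inl ⟨hτ.1, h⟩
    · right
      refine ⟨hτ, ?_⟩
      set x := Real.exp τ with hx
      have hxt : t₁ < x := by rwa [Real.log_lt_iff_lt_exp ht₁0] at h
      have hx2 : 2 ≤ x := by
        have := Real.exp_one_gt_d9
        linarith
      obtain ⟨g1, g2⟩ := ht₀ x ((le_max_left _ _).trans hxt.le)
      have hGY0 : 0 ≤ GY (Yc x) x := by
        rw [GY_eq]
        exact Finset.sum_nonneg (fun m _ => div_nonneg (vt_nonneg m x) (Nat.cast_nonneg _))
      have hGY : 0 < GY (Yc x) x := by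
        rcases hGY0.lt_or_eq with h | h
        · exact h
        · rw [← h, div_zero] at g2; exact absurd g2 (lt_irrefl _)
      rw [div_lt_iff₀ hGY, sub_zero, hx, Real.log_exp, ← hx] at g1
      have hxX : x ≤ Real.exp T := Real.exp_le_exp.2 hτ.2
      have g3 : GY (Yc x) x ≤ GY (Yc (Real.exp T)) x :=
        GY_mono (Yc_mono (ht₁e.trans hxt.le) hxX) x
      have e3 : Yc (Real.exp T) = Real.exp ((Real.log T) ^ 4) := by
        unfold Yc; rw [Real.log_exp]
      rw [e3, GY_eq (Real.exp ((Real.log T) ^ 4)) x, ← hYn, hsplit (fun m => vt m x)] at g3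
      have g4 : GY M x = ∑ m ∈ Finset.Icc 1 M, vt m x / m := by
        rw [GY_eq, Nat.floor_natCast]
      have g5 : ∑ m ∈ Finset.range M, vt m x / m ≤ GY M x := by
        rw [g4]
        have e1 : ∑ m ∈ Finset.range M, vt m x / m =
            ∑ m ∈ (Finset.range M).filter (fun m => m ≠ 0), vt m x / m := by
          rw [Finset.sum_filter]
          apply Finset.sum_congr rfl
          intro m _
          by_cases hm : m = 0
          · simp [hm]
          · simp [hm]
        rw [e1]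
        apply Finset.sum_le_sum_of_subset_of_nonneg
        · intro m hm
          rw [Finset.mem_filter, Finset.mem_range] at hm
          rw [Finset.mem_Icc]
          omega
        · intro m _ _
          exact div_nonneg (vt_nonneg m x) (Nat.cast_nonneg _)
      have g6 : x - 1 ≤ GY M x := by
        rw [g4, ← vt_one (by linarith : 1 ≤ x)]
        refine le_trans (le_of_eq ?_) (Finset.single_le_sum (f := fun m : ℕ => vt m x / m)
          (fun m _ => div_nonneg (vt_nonneg m x) (Nat.cast_nonneg _))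
          (Finset.mem_Icc.2 ⟨le_rfl, by omega⟩ : 1 ∈ Finset.Icc 1 M))
        simp
      set R := ∑ m ∈ s, vt m x / m with hR
      set G := GY M x with hG
      have g7 : (1 + ε) * G < (1 + ε / 3) * (R + G) := by
        refine hlt.trans (g1.trans_le ?_)
        apply mul_le_mul_of_nonneg_left _ (by linarith)
        linarith
      have hR0 : 0 ≤ R := Finset.sum_nonneg
        (fun m _ => div_nonneg (vt_nonneg m x) (Nat.cast_nonneg _))
      have g8 : ε / 3 * G ≤ R := by nlinarith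
      calc ε / 6 * x ≤ ε / 3 * (x - 1) := by nlinarith
        _ ≤ ε / 3 * G := by gcongr
        _ ≤ R := g8
  refine (measure_mono hsub).trans ((measure_union_le _ _).trans
    ((add_le_add (vol_Icc_le (Real.log t₁)) hmk).trans ?_))
  rw [← ENNReal.ofReal_add (Real.log_nonneg ht₁1) (by positivity)]
  apply ENNReal.ofReal_le_ofReal
  have e1 : η * T / (ε / 6) = ε / 8 * T := by
    rw [hη]; field_simp; ring
  rw [e1]
  have e2 : Real.log t₁ ≤ ε / 4 * T := by
    have : Real.log t₁ * (4 / ε) * (ε / 4) ≤ T * (ε / 4) := by gcongr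
    have e3 : Real.log t₁ * (4 / ε) * (ε / 4) = Real.log t₁ := by field_simp
    linarith
  nlinarith

/-- the asymptotic formula for almost all `x`, with cutoff growing arbitrarily slowly -/
theorem almost_all (Y : ℝ → ℝ) (hY : Tendsto Y atTop atTop) (hY' : ∀ᶠ x : ℝ in atTop, Y x ≤ x)
    {ε : ℝ} (hε : 0 < ε) :
    Tendsto (fun T : ℝ => (volume {τ : ℝ | 0 ≤ τ ∧ τ ≤ T ∧
      ε < |(NN (Real.exp τ) : ℝ) / (1 / Real.log (Real.exp τ) *
        GY (Y (Real.exp τ)) (Real.exp τ)) - 1|}).toReal / T) atTop (𝓝 0) := by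
  rw [tendsto_order]
  constructor
  · intro a ha
    filter_upwards [eventually_gt_atTop (0 : ℝ)] with T hT
    exact lt_of_lt_of_le ha (by positivity)
  · intro η hη
    set ε' := min (min ε 1) (η / 4) with hε'
    have hε'0 : 0 < ε' := by
      rw [hε']; positivity
    have hε'1 : ε' ≤ ε := (min_le_left _ _).trans (min_le_left _ _)
    have hε'2 : ε' ≤ 1 := (min_le_left _ _).trans (min_le_right _ _)
    have hε'3 : ε' ≤ η / 4 := min_le_right _ _
    obtain ⟨M, hM⟩ := almost_all_M hε'0 hε'2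
    have hfull := Pool.Agent.Helper923.PPS.asymptotic_cut (fun x => x)
      (Pool.Agent.Helper923.PPS.GLL_le.mono fun _ hx => ⟨hx, le_rfl⟩)
    have h1 : ∀ᶠ x : ℝ in atTop, 1 - ε < (NN x : ℝ) / (1 / Real.log x * GY x x) :=
      hfull.eventually (lt_mem_nhds (by linarith))
    have h2 : ∀ᶠ x : ℝ in atTop, (M : ℝ) ≤ Y x := hY.eventually_ge_atTop _
    obtain ⟨x₀, hx₀⟩ := eventually_atTop.1 (h1.and (h2.and hY'))
    obtain ⟨M1, hM1⟩ : ∃ M1 : ℝ, ∀ x, M1 ≤ x → 1 ≤ Y x :=
      eventually_atTop.1 (hY.eventually_ge_atTop 1)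
    set x₁ := max (max x₀ M1) (Real.exp 1) with hx₁
    have hx₁e : Real.exp 1 ≤ x₁ := le_max_right _ _
    have hx₁0 : 0 < x₁ := lt_of_lt_of_le (Real.exp_pos 1) hx₁e
    have hx₁1 : 1 ≤ x₁ := le_trans (Real.one_le_exp zero_le_one) hx₁e
    filter_upwards [hM, eventually_gt_atTop (0 : ℝ),
      eventually_gt_atTop (Real.log x₁ * (4 / η))] with T hT hT0 hT1
    have hsub : {τ : ℝ | 0 ≤ τ ∧ τ ≤ T ∧
        ε < |(NN (Real.exp τ) : ℝ) / (1 / Real.log (Real.exp τ) *
        GY (Y (Real.exp τ)) (Real.exp τ)) - 1|} ⊆ Set.Icc 0 (Real.log x₁) ∪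
        {τ : ℝ | τ ∈ Set.Icc 0 T ∧ (1 + ε') * GY M (Real.exp τ) < NN (Real.exp τ) * τ} := by
      rintro τ ⟨hτ0, hτT, hbad⟩
      rcases le_or_gt τ (Real.log x₁) with h | h
      · exact Or.inl ⟨hτ0, h⟩
      · right
        refine ⟨⟨hτ0, hτT⟩, ?_⟩
        rw [Real.log_exp] at hbad
        set x := Real.exp τ with hx
        have hxt : x₁ < x := by rwa [Real.log_lt_iff_lt_exp hx₁0] at h
        have hx2 : 2 ≤ x := by
          have := Real.exp_one_gt_d9
          linarith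
        have hτpos : 0 < τ := by
          have := Real.log_nonneg hx₁1
          linarith
        obtain ⟨g1, g2, g3⟩ := hx₀ x
          (((le_max_left _ _).trans (le_max_left _ _)).trans hxt.le)
        have g0 := hM1 x (((le_max_right _ _).trans (le_max_left _ _)).trans hxt.le)
        rw [hx, Real.log_exp, ← hx] at g1
        have hG1 : x - 1 ≤ GY (Y x) x := by
          have hm1 : (1 : ℕ) ∈ Finset.Icc 1 ⌊Y x⌋₊ := by
            rw [Finset.mem_Icc, Nat.one_le_floor_iff]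
            exact ⟨le_rfl, g0⟩
          rw [GY_eq, ← vt_one (by linarith : 1 ≤ x)]
          refine le_trans (le_of_eq ?_) (Finset.single_le_sum (f := fun m : ℕ => vt m x / m)
            (fun m _ => div_nonneg (vt_nonneg m x) (Nat.cast_nonneg _)) hm1)
          simp
        have hGpos : 0 < GY (Y x) x := by linarith
        have hGM : GY M x ≤ GY (Y x) x := GY_mono g2 x
        have hGx : GY (Y x) x ≤ GY x x := GY_mono g3 x
        have hden : 0 < 1 / τ * GY (Y x) x := by positivity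
        have hlow : 1 - ε < (NN x : ℝ) / (1 / τ * GY (Y x) x) := by
          refine g1.trans_le ?_
          apply div_le_div_of_nonneg_left (Nat.cast_nonneg _) hden
          exact mul_le_mul_of_nonneg_left hGx (by positivity)
        have hup : 1 + ε < (NN x : ℝ) / (1 / τ * GY (Y x) x) := by
          rcases lt_abs.1 hbad with h5 | h5
          · linarith
          · linarith
        rw [lt_div_iff₀ hden] at hup
        have e1 : (1 + ε) * (1 / τ * GY (Y x) x) * τ = (1 + ε) * GY (Y x) x := by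
          field_simp
        have e2 : (1 + ε) * GY (Y x) x < NN x * τ := by
          rw [← e1]
          exact mul_lt_mul_of_pos_right hup hτpos
        refine lt_of_le_of_lt ?_ e2
        calc (1 + ε') * GY M x ≤ (1 + ε') * GY (Y x) x := by gcongr
          _ ≤ (1 + ε) * GY (Y x) x := by gcongr
    have hmeas : volume {τ : ℝ | 0 ≤ τ ∧ τ ≤ T ∧
        ε < |(NN (Real.exp τ) : ℝ) / (1 / Real.log (Real.exp τ) *
        GY (Y (Real.exp τ)) (Real.exp τ)) - 1|} ≤
        ENNReal.ofReal (Real.log x₁ + ε' * T) := by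
      refine (measure_mono hsub).trans ((measure_union_le _ _).trans
        ((add_le_add (vol_Icc_le (Real.log x₁)) hT).trans ?_))
      rw [← ENNReal.ofReal_add (Real.log_nonneg hx₁1) (by positivity)]
    have h5 := ENNReal.toReal_le_of_le_ofReal
      (add_nonneg (Real.log_nonneg hx₁1) (by positivity)) hmeas
    rw [div_lt_iff₀ hT0]
    refine lt_of_le_of_lt h5 ?_
    have e2 : Real.log x₁ < η / 4 * T := by
      have : Real.log x₁ * (4 / η) * (η / 4) < T * (η / 4) := by gcongr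
      have e3 : Real.log x₁ * (4 / η) * (η / 4) = Real.log x₁ := by field_simp
      linarith
    nlinarith

end Pool.Agent.KS6_8.LM
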