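import Mathlib
import Pool.Agent.KS6_8.LM.Fin

set_option autoImplicit false

open MeasureTheory Filter Topology

namespace Pool.Agent.KS6_8.LM

open Pool.Agent.Helper923.PPS (NN f F)

/-- the weighted sum -/
noncomputable def SX (X : ℝ) : ℝ := ∑ n ∈ AX X, Real.log n / n

theorem SX_mono : Monotone SX := by
  intro t t' h
  apply Finset.sum_le_sum_of_subset_of_nonneg
  · intro n hn
    rw [mem_AX] at hn ⊢
    exact ⟨hn.1, hn.2.1.trans_le h, hn.2.2⟩
  · intro n _ _
    exact div_nonneg (Real.log_natCast_nonneg n) (Nat.cast_nonneg _)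

theorem SX_nonneg (X : ℝ) : 0 ≤ SX X :=
  Finset.sum_nonneg (fun n _ => div_nonneg (Real.log_natCast_nonneg n) (Nat.cast_nonneg _))

/-- kernel -/
noncomputable def kk (t : ℝ) : ℝ := 1 / (t * Real.log t ^ 2)

theorem kk_cont {a b : ℝ} (ha : 1 < a) (hab : a ≤ b) : ContinuousOn kk (Set.uIcc a b) := by
  rw [Set.uIcc_of_le hab]
  apply ContinuousOn.div continuousOn_const
  · apply continuousOn_id.mul
    apply ContinuousOn.pow
    apply Real.continuousOn_log.mono
    intro t ht
    have : 0 < t := by linarith [ht.1]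
    exact this.ne'
  · intro t ht
    have h1 : 1 < t := by linarith [ht.1]
    have h2 := Real.log_pos h1
    have h3 : 0 < id t := by simp only [id]; linarith
    positivity

theorem kk_int {a b : ℝ} (ha : 1 < a) (hab : a ≤ b) :
    ∫ t in a..b, kk t = 1 / Real.log a - 1 / Real.log b := by
  have hderiv : ∀ t ∈ Set.uIcc a b, HasDerivAt (fun t : ℝ => -(Real.log t)⁻¹) (kk t) t := by
    intro t ht
    rw [Set.uIcc_of_le hab] at ht
    have h1 : 1 < t := by linarith [ht.1]
    have ht0 : t ≠ 0 := by linarith
    have h2 := Real.log_pos h1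
    have := ((Real.hasDerivAt_log ht0).inv h2.ne').neg
    have e1 : kk t = -(-t⁻¹ / Real.log t ^ 2) := by
      unfold kk
      field_simp
    rw [e1]
    exact this
  rw [intervalIntegral.integral_eq_sub_of_hasDerivAt hderiv (kk_cont ha hab).intervalIntegrable]
  rw [one_div, one_div]
  ring

theorem ll_cont {a b : ℝ} (ha : 1 < a) (hab : a ≤ b) :
    ContinuousOn (fun t : ℝ => 1 / (t * Real.log t)) (Set.uIcc a b) := by
  rw [Set.uIcc_of_le hab]
  apply ContinuousOn.div continuousOn_const
  · apply continuousOn_id.mul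
    apply Real.continuousOn_log.mono
    intro t ht
    have : 0 < t := by linarith [ht.1]
    exact this.ne'
  · intro t ht
    have h1 : 1 < t := by linarith [ht.1]
    have h2 := Real.log_pos h1
    have h3 : 0 < id t := by simp only [id]; linarith
    positivity

theorem ll_int {a b : ℝ} (ha : 1 < a) (hab : a ≤ b) :
    ∫ t in a..b, 1 / (t * Real.log t) = Real.log (Real.log b) - Real.log (Real.log a) := by
  apply intervalIntegral.integral_eq_sub_of_hasDerivAt (f := fun t => Real.log (Real.log t))
  · intro t ht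
    rw [Set.uIcc_of_le hab] at ht
    have h1 : 1 < t := by linarith [ht.1]
    have ht0 : t ≠ 0 := by linarith
    have h2 := Real.log_pos h1
    have := (Real.hasDerivAt_log ht0).log h2.ne'
    have e1 : 1 / (t * Real.log t) = t⁻¹ / Real.log t := by field_simp
    rw [e1]
    exact this
  · exact (ll_cont ha hab).intervalIntegrable

theorem abel2 {X : ℝ} (hX : 2 ≤ X) : ∑ n ∈ AX X, (1 : ℝ) / n =
    (∑ n ∈ AX X, if n = 1 then (1 : ℝ) else 0) + SX X / Real.log X +
      ∫ t in (2 : ℝ)..X, SX t * kk t := by
  classical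
  have hlX : 0 < Real.log X := Real.log_pos (by linarith)
  have hii : ∀ n ∈ AX X, IntegrableOn (fun t => Real.log n / n * (Set.Ioi (n : ℝ)).indicator kk t)
      (Set.Ioc 2 X) := by
    intro n _
    apply Integrable.const_mul
    apply IntegrableOn.indicator _ measurableSet_Ioi
    exact (intervalIntegrable_iff_integrableOn_Ioc_of_le hX).1
      (kk_cont one_lt_two hX).intervalIntegrable
  have h1 : ∀ n ∈ AX X, (1 : ℝ) / n = (if n = 1 then (1 : ℝ) else 0) +
      Real.log n / n * (1 / Real.log X) +
      ∫ t in Set.Ioc 2 X, Real.log n / n * (Set.Ioi (n : ℝ)).indicator kk t := by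
    intro n hn
    obtain ⟨g1, g2, g3⟩ := mem_AX.1 hn
    rw [integral_const_mul]
    rcases eq_or_ne n 1 with rfl | hn1
    · simp
    · have hn2' : 2 ≤ n := by omega
      have hn2 : (2 : ℝ) ≤ n := by exact_mod_cast hn2'
      have e1 := kk_int (by linarith : (1 : ℝ) < n) g2.le
      rw [intervalIntegral.integral_of_le g2.le] at e1
      rw [integral_indicator measurableSet_Ioi, Measure.restrict_restrict measurableSet_Ioi]
      have e2 : Set.Ioi (n : ℝ) ∩ Set.Ioc 2 X = Set.Ioc (n : ℝ) X := by
        ext t
        simp only [Set.mem_inter_iff, Set.mem_Ioi, Set.mem_Ioc]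
        constructor
        · rintro ⟨h1, h2, h3⟩; exact ⟨h1, h3⟩
        · rintro ⟨h1, h2⟩; exact ⟨h1, by linarith, h2⟩
      rw [e2, e1, if_neg hn1]
      have hln : 0 < Real.log n := Real.log_pos (by linarith)
      field_simp
      ring
  rw [Finset.sum_congr rfl h1, Finset.sum_add_distrib, Finset.sum_add_distrib, ← Finset.sum_mul,
    ← integral_finsetSum _ hii, intervalIntegral.integral_of_le hX, mul_one_div]
  congr 1
  apply setIntegral_congr_fun measurableSet_Ioc
  intro t ht
  have e1 : ∀ n ∈ AX X, Real.log n / n * (Set.Ioi (n : ℝ)).indicator kk t =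
      if (n : ℝ) < t then Real.log n / n * kk t else 0 := by
    intro n _
    simp only [Set.indicator, Set.mem_Ioi]
    split_ifs <;> simp
  change ∑ n ∈ AX X, Real.log n / n * (Set.Ioi (n : ℝ)).indicator kk t = SX t * kk t
  rw [Finset.sum_congr rfl e1, ← Finset.sum_filter, ← Finset.sum_mul]
  have : (AX X).filter (fun n : ℕ => (n : ℝ) < t) = AX t := by
    ext n
    rw [Finset.mem_filter, mem_AX, mem_AX]
    constructor
    · rintro ⟨⟨h1, h2, h3⟩, h4⟩; exact ⟨h1, h4, h3⟩
    · rintro ⟨h1, h2, h3⟩; exact ⟨⟨h1, h2.trans_le ht.2, h3⟩, h2⟩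
  rw [this]
  rfl

theorem Sk_int {a b : ℝ} (ha : 2 ≤ a) (hab : a ≤ b) :
    IntervalIntegrable (fun t => SX t * kk t) volume a b := by
  rw [intervalIntegrable_iff_integrableOn_Ioc_of_le hab]
  have h1 : IntegrableOn kk (Set.Ioc a b) :=
    (intervalIntegrable_iff_integrableOn_Ioc_of_le hab).1
      (kk_cont (by linarith) hab).intervalIntegrable
  refine Integrable.bdd_mul (c := SX b) h1 SX_mono.measurable.aestronglyMeasurable ?_
  rw [ae_restrict_iff' measurableSet_Ioc]
  apply Eventually.of_forall
  intro t ht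
  rw [Real.norm_eq_abs, abs_of_nonneg (SX_nonneg t)]
  exact SX_mono ht.2

theorem recip {κ : ℝ} (h : Tendsto (fun X : ℝ => SX X / Real.log X) atTop (𝓝 κ)) :
    Tendsto (fun X : ℝ => (∑ n ∈ AX X, (1 : ℝ) / n) / Real.log (Real.log X)) atTop (𝓝 κ) := by
  have hLL : Tendsto (fun X : ℝ => Real.log (Real.log X)) atTop atTop :=
    Real.tendsto_log_atTop.comp Real.tendsto_log_atTop
  have hc1 : ∀ X : ℝ, 0 ≤ (∑ n ∈ AX X, if n = 1 then (1 : ℝ) else 0) ∧
      (∑ n ∈ AX X, if n = 1 then (1 : ℝ) else 0) ≤ 1 := by
    intro X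
    constructor
    · exact Finset.sum_nonneg (fun n _ => by split_ifs <;> norm_num)
    · rw [Finset.sum_ite_eq']
      split_ifs <;> norm_num
  have hmain : Tendsto (fun X : ℝ => (∫ t in (2 : ℝ)..X, SX t * kk t) / Real.log (Real.log X))
      atTop (𝓝 κ) := by
    rw [tendsto_order]
    constructor
    · intro a ha
      obtain ⟨b, hab, hb⟩ := exists_between ha
      obtain ⟨t₀, ht₀⟩ := eventually_atTop.1 (h.eventually (lt_mem_nhds hb))
      set t₁ := max t₀ 2 with ht₁
      have ht₁2 : 2 ≤ t₁ := le_max_right _ _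
      set C := (∫ t in (2 : ℝ)..t₁, SX t * kk t) - b * Real.log (Real.log t₁) with hC
      have hlim : Tendsto (fun X : ℝ => C / Real.log (Real.log X) + b) atTop (𝓝 (0 + b)) :=
        (tendsto_const_nhds.div_atTop hLL).add tendsto_const_nhds
      rw [zero_add] at hlim
      filter_upwards [hlim.eventually (lt_mem_nhds hab), eventually_ge_atTop t₁,
        hLL.eventually_gt_atTop 0] with X h1 h2 h3
      refine h1.trans_le ?_
      rw [le_div_iff₀ h3, add_mul, div_mul_cancel₀ _ h3.ne',
        ← intervalIntegral.integral_add_adjacent_intervals (Sk_int le_rfl ht₁2) (Sk_int ht₁2 h2)]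
      have h4 : ∫ t in t₁..X, b * (1 / (t * Real.log t)) ≤ ∫ t in t₁..X, SX t * kk t := by
        apply intervalIntegral.integral_mono_on h2
          ((ll_cont (by linarith) h2).intervalIntegrable.const_mul b) (Sk_int ht₁2 h2)
        intro t ht
        have ht0 : 0 < t := by linarith [ht.1]
        have hlt : 0 < Real.log t := Real.log_pos (by linarith [ht.1])
        have h5 := ht₀ t ((le_max_left _ _).trans ht.1)
        rw [lt_div_iff₀ hlt] at h5
        have h6 : b * (1 / (t * Real.log t)) = (b * Real.log t) * kk t := by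
          unfold kk; field_simp
        rw [h6]
        apply mul_le_mul_of_nonneg_right h5.le
        unfold kk; positivity
      rw [intervalIntegral.integral_const_mul, ll_int (by linarith) h2] at h4
      rw [hC]
      linarith
    · intro a ha
      obtain ⟨b, hb, hab⟩ := exists_between ha
      obtain ⟨t₀, ht₀⟩ := eventually_atTop.1 (h.eventually (gt_mem_nhds hb))
      set t₁ := max t₀ 2 with ht₁
      have ht₁2 : 2 ≤ t₁ := le_max_right _ _
      set C := (∫ t in (2 : ℝ)..t₁, SX t * kk t) - b * Real.log (Real.log t₁) with hC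
      have hlim : Tendsto (fun X : ℝ => C / Real.log (Real.log X) + b) atTop (𝓝 (0 + b)) :=
        (tendsto_const_nhds.div_atTop hLL).add tendsto_const_nhds
      rw [zero_add] at hlim
      filter_upwards [hlim.eventually (gt_mem_nhds hab), eventually_ge_atTop t₁,
        hLL.eventually_gt_atTop 0] with X h1 h2 h3
      refine lt_of_le_of_lt ?_ h1
      rw [div_le_iff₀ h3, add_mul, div_mul_cancel₀ _ h3.ne',
        ← intervalIntegral.integral_add_adjacent_intervals (Sk_int le_rfl ht₁2) (Sk_int ht₁2 h2)]
      have h4 : ∫ t in t₁..X, SX t * kk t ≤ ∫ t in t₁..X, b * (1 / (t * Real.log t)) := by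
        apply intervalIntegral.integral_mono_on h2 (Sk_int ht₁2 h2)
          ((ll_cont (by linarith) h2).intervalIntegrable.const_mul b)
        intro t ht
        have ht0 : 0 < t := by linarith [ht.1]
        have hlt : 0 < Real.log t := Real.log_pos (by linarith [ht.1])
        have h5 := ht₀ t ((le_max_left _ _).trans ht.1)
        rw [div_lt_iff₀ hlt] at h5
        have h6 : b * (1 / (t * Real.log t)) = (b * Real.log t) * kk t := by
          unfold kk; field_simp
        rw [h6]
        apply mul_le_mul_of_nonneg_right h5.le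
        unfold kk; positivity
      rw [intervalIntegral.integral_const_mul, ll_int (by linarith) h2] at h4
      rw [hC]
      linarith
  have hz : Tendsto (fun X : ℝ => ((∑ n ∈ AX X, if n = 1 then (1 : ℝ) else 0) +
      SX X / Real.log X) / Real.log (Real.log X)) atTop (𝓝 0) := by
    have hup : Tendsto (fun X : ℝ => (1 + SX X / Real.log X) / Real.log (Real.log X)) atTop
        (𝓝 0) := (tendsto_const_nhds.add h).div_atTop hLL
    refine squeeze_zero' ?_ ?_ hup
    · filter_upwards [hLL.eventually_gt_atTop 0,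
        Real.tendsto_log_atTop.eventually_gt_atTop 0] with X h1 h2
      have := (hc1 X).1
      have := SX_nonneg X
      positivity
    · filter_upwards [hLL.eventually_gt_atTop 0] with X h1
      have := (hc1 X).2
      gcongr
  have hfin := hz.add hmain
  rw [zero_add] at hfin
  refine hfin.congr' ?_
  filter_upwards [eventually_ge_atTop (2 : ℝ)] with X hX
  rw [abel2 hX, add_div (_ + _)]

end Pool.Agent.KS6_8.LM
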