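import Mathlib
import Pool.Agent.KS6_8.LM.Extra
import Pool.Agent.KS6_8.LM.Recip

set_option autoImplicit false

open MeasureTheory Filter Topology

namespace Pool.Agent.KS6_8.LM

open Pool.Agent.Helper923.PPS (pw Iset measurableSet_Iset NN GY GY_mono f F)

theorem dens_one_of {m : ℕ} (h : ∀ τ : ℝ, 0 ≤ τ → τ ∈ J m) :
    Tendsto (fun T : ℝ => Mt T m / T) atTop (𝓝 1) := by
  refine tendsto_const_nhds.congr' ?_
  filter_upwards [eventually_gt_atTop (0 : ℝ)] with T hT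
  have h1 : J m ∩ Set.Icc 0 T = Set.Icc 0 T := Set.inter_eq_right.2 (fun τ hτ => h τ hτ.1)
  unfold Mt
  rw [h1, Real.volume_Icc, sub_zero, ENNReal.toReal_ofReal hT.le, div_self hT.ne']

theorem J_one (τ : ℝ) (hτ : 0 ≤ τ) : τ ∈ J 1 := by
  apply J_of_Rc hτ
  constructor
  · intro p q hp _ _ hp1 _
    exact absurd (Nat.dvd_one.1 hp1) hp.ne_one
  · intro p a hp hp1 _ _
    exact absurd (Nat.dvd_one.1 hp1) hp.ne_one

theorem J_two (τ : ℝ) (hτ : 0 ≤ τ) : τ ∈ J 2 := by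
  apply J_of_Rc hτ
  constructor
  · intro p q hp hq hpq hp2 hq2
    rw [Nat.prime_dvd_prime_iff_eq hp Nat.prime_two] at hp2
    rw [Nat.prime_dvd_prime_iff_eq hq Nat.prime_two] at hq2
    exact absurd (hp2.trans hq2.symm) hpq
  · intro p a hp hp2 ha hle
    rw [Nat.prime_dvd_prime_iff_eq hp Nat.prime_two] at hp2
    subst hp2
    have ha1 : a = 1 := by
      by_contra hne
      have h2 : 2 ≤ a := by omega
      have h3 : 2 ^ 2 ≤ 2 ^ a := Nat.pow_le_pow_right (by norm_num) h2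
      omega
    subst ha1
    have h1 := D_lt (lg_pos Nat.prime_two) τ
    have h2 : Real.exp (-(lg 2)) ≤ Real.exp (-D (lg 2) τ) := Real.exp_le_exp.2 (by linarith)
    have h3 : Real.exp (-(lg 2)) = 1 / 2 := by
      unfold lg
      push_cast
      rw [Real.exp_neg, Real.exp_log (by norm_num), one_div]
    rw [h3] at h2
    push_cast
    norm_num
    linarith

/-- the densities and the constant -/
theorem kappa_all : ∃ δ : ℕ → ℝ,
    (∀ m : ℕ, m ≠ 0 → Tendsto (fun T : ℝ => Mt T m / T) atTop (𝓝 (δ m))) ∧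
    Summable (fun m : ℕ => δ m / m) ∧ 3 / 2 ≤ ∑' m : ℕ, δ m / m := by
  obtain ⟨δ, hδ⟩ : ∃ δ : ℕ → ℝ, ∀ m : ℕ, m ≠ 0 →
      Tendsto (fun T : ℝ => Mt T m / T) atTop (𝓝 (δ m)) := by
    have h : ∀ m : ℕ, ∃ d : ℝ, m ≠ 0 → Tendsto (fun T : ℝ => Mt T m / T) atTop (𝓝 d) := by
      intro m
      rcases eq_or_ne m 0 with rfl | hm
      · exact ⟨0, fun h => absurd rfl h⟩
      · obtain ⟨d, hd⟩ := dens_exists m hm
        exact ⟨d, fun _ => hd⟩
    choose δ hδ using h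
    exact ⟨δ, hδ⟩
  obtain ⟨hδ0, hsum, -⟩ := sum_lim δ hδ
  refine ⟨δ, hδ, hsum, ?_⟩
  have e1 : δ 1 = 1 := tendsto_nhds_unique (hδ 1 (by norm_num)) (dens_one_of J_one)
  have e2 : δ 2 = 1 := tendsto_nhds_unique (hδ 2 (by norm_num)) (dens_one_of J_two)
  have h := hsum.sum_le_tsum {1, 2} (fun m _ => by
    rcases eq_or_ne m 0 with rfl | hm
    · simp
    · exact div_nonneg (hδ0 m hm) (Nat.cast_nonneg _))
  rw [Finset.sum_pair (by norm_num), e1, e2] at h
  norm_num at h ⊢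
  linarith

end Pool.Agent.KS6_8.LM
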